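import Pool.Agent.Helper503.Gp.Defs

set_option autoImplicit false

open Metric Set Filter Topology Complex
open scoped ComplexConjugate

namespace Pool.Agent.Helper503.Gp

private theorem cay_hne {w : ℂ} (hw : 0 < w.im) : w + I ≠ 0 := by
  intro h
  have := congrArg Complex.im h
  simp at this
  linarith

private theorem cay_hns1 (w : ℂ) : Complex.normSq (w - I) = w.re ^ 2 + (w.im - 1) ^ 2 := by
  rw [Complex.normSq_apply]; simp; ring

private theorem cay_hns2 (w : ℂ) : Complex.normSq (w + I) = w.re ^ 2 + (w.im + 1) ^ 2 := by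
  rw [Complex.normSq_apply]; simp; ring

private theorem cay_hsq (w : ℂ) : ‖cay w‖ ^ 2 = (w.re ^ 2 + (w.im - 1) ^ 2) / (w.re ^ 2 + (w.im + 1) ^ 2) := by
  rw [Complex.sq_norm]
  unfold cay
  rw [Complex.normSq_div, cay_hns1, cay_hns2]

private theorem cay_hone {a : ℂ} (ha : 0 < a.im) : 1 - ‖cay a‖ ^ 2 = PH a I := by
  rw [cay_hsq]
  unfold PH
  have h : 0 < a.re ^ 2 + (a.im + 1) ^ 2 := by positivity
  simp only [Complex.I_re, Complex.I_im, sub_zero, mul_one]
  rw [one_sub_div h.ne']
  congr 1
  ring

theorem cay_mem {w : ℂ} (hw : 0 < w.im) : cay w ∈ Metric.ball (0:ℂ) 1 := by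
  rw [mem_ball_zero_iff]
  have h := cay_hsq w
  have hpos : 0 < w.re ^ 2 + (w.im + 1) ^ 2 := by positivity
  have h1 : (w.re ^ 2 + (w.im - 1) ^ 2) / (w.re ^ 2 + (w.im + 1) ^ 2) < 1 := by
    rw [div_lt_one hpos]
    nlinarith
  rw [← h] at h1
  have := norm_nonneg (cay w)
  nlinarith

theorem cay_surj {z : ℂ} (hz : z ∈ Metric.ball (0:ℂ) 1) : ∃ w : ℂ, 0 < w.im ∧ cay w = z := by
  rw [mem_ball_zero_iff] at hz
  have hz2 : Complex.normSq z < 1 := by
    rw [← Complex.sq_norm]
    have := norm_nonneg z
    nlinarith
  have hz1 : (1 : ℂ) - z ≠ 0 := by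
    intro h
    have h' : z = 1 := by linear_combination -h
    rw [h'] at hz
    simp at hz
  have hn : 0 < Complex.normSq (1 - z) := Complex.normSq_pos.2 hz1
  refine ⟨I * (1 + z) / (1 - z), ?_, ?_⟩
  · rw [Complex.div_im]
    have h1 : (I * (1 + z)).im = 1 + z.re := by simp
    have h2 : (I * (1 + z)).re = - z.im := by simp
    have h3 : (1 - z).re = 1 - z.re := by simp
    have h4 : (1 - z).im = - z.im := by simp
    rw [h1, h2, h3, h4, ← sub_div]
    apply div_pos _ hn
    rw [Complex.normSq_apply] at hz2
    nlinarith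
  · unfold cay
    have h1 : I * (1 + z) / (1 - z) - I = 2 * I * z / (1 - z) := by
      field_simp
      ring
    have h2 : I * (1 + z) / (1 - z) + I = 2 * I / (1 - z) := by
      field_simp
      ring
    rw [h1, h2]
    have hI : (I : ℂ) ≠ 0 := Complex.I_ne_zero
    field_simp

theorem one_sub_bfac_cay {a b : ℂ} (ha : 0 < a.im) (hb : 0 < b.im) :
    1 - ‖bfac (cay a) (cay b)‖ ^ 2 = PH a b := by
  by_cases h0 : cay a = 0
  · have hne := cay_hne ha
    have haI : a = I := by
      unfold cay at h0
      rw [div_eq_zero_iff] at h0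
      rcases h0 with h | h
      · linear_combination h
      · exact absurd h hne
    unfold bfac
    rw [if_pos h0, cay_hone hb, haI]
    unfold PH
    simp only [Complex.I_re, Complex.I_im]
    congr 1 <;> ring
  · unfold bfac
    rw [if_neg h0, norm_mul, norm_div, Complex.norm_real, norm_norm,
      div_self (norm_ne_zero_iff.2 h0), one_mul]
    have hne1 := cay_hne ha
    have hne2 := cay_hne hb
    have hne3 : conj a - I ≠ 0 := by
      intro h
      apply hne1
      have := congrArg (starRingEnd ℂ) h
      simpa using this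
    have hc : conj (cay a) = (conj a + I) / (conj a - I) := by
      unfold cay
      rw [map_div₀, map_sub, map_add, Complex.conj_I, sub_neg_eq_add, ← sub_eq_add_neg]
    have h1 : cay a - cay b = 2 * I * (a - b) / ((a + I) * (b + I)) := by
      unfold cay
      field_simp
      ring
    have h2 : 1 - conj (cay a) * cay b = 2 * I * (conj a - b) / ((conj a - I) * (b + I)) := by
      rw [hc]
      unfold cay
      field_simp
      ring
    have hns : Complex.normSq (conj a - I) = Complex.normSq (a + I) := by
      rw [← Complex.normSq_conj (a + I), map_add, Complex.conj_I, ← sub_eq_add_neg]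
    have hnd : conj a - b ≠ 0 := by
      intro h
      have := congrArg Complex.im h
      simp at this
      linarith
    have hnd' : Complex.normSq (conj a - b) = (a.re - b.re) ^ 2 + (a.im + b.im) ^ 2 := by
      rw [Complex.normSq_apply]; simp; ring
    have hnd2 : Complex.normSq (a - b) = (a.re - b.re) ^ 2 + (a.im - b.im) ^ 2 := by
      rw [Complex.normSq_apply]; simp; ring
    have hp : 0 < Complex.normSq (conj a - b) := Complex.normSq_pos.2 hnd
    have hp1 : 0 < Complex.normSq (a + I) := Complex.normSq_pos.2 hne1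
    have hp2 : 0 < Complex.normSq (b + I) := Complex.normSq_pos.2 hne2
    have hp3 : 0 < Complex.normSq (2 * I) := Complex.normSq_pos.2 (by simp)
    rw [Complex.sq_norm, Complex.normSq_div, h1, h2, Complex.normSq_div, Complex.normSq_div,
      Complex.normSq_mul (2 * I) (a - b), Complex.normSq_mul (a + I) (b + I),
      Complex.normSq_mul (2 * I) (conj a - b), Complex.normSq_mul (conj a - I) (b + I), hns]
    have h3 : Complex.normSq (2 * I) * Complex.normSq (a - b) /
        (Complex.normSq (a + I) * Complex.normSq (b + I)) /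
        (Complex.normSq (2 * I) * Complex.normSq (conj a - b) /
        (Complex.normSq (a + I) * Complex.normSq (b + I))) =
        Complex.normSq (a - b) / Complex.normSq (conj a - b) := by
      field_simp
    rw [h3]
    unfold PH
    rw [one_sub_div hp.ne', hnd', hnd2]
    congr 1
    ring

theorem one_sub_cay {a : ℂ} (ha : 0 < a.im) : 1 - ‖cay a‖ ^ 2 = PH a I := by
  exact cay_hone ha

end Pool.Agent.Helper503.Gp
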