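import Pool.Agent.Helper503.Gp.Defs

set_option autoImplicit false

open Metric Set Filter Topology Complex
open scoped ComplexConjugate

namespace Pool.Agent.Helper503.Gp

theorem PH_comm (a b : ℂ) : PH a b = PH b a := by
  unfold PH
  congr 1
  · ring
  · ring

theorem PH_pos {a b : ℂ} (ha : 0 < a.im) (hb : 0 < b.im) : 0 < PH a b := by
  unfold PH
  apply div_pos (by positivity)
  have : 0 < a.im + b.im := by linarith
  positivity

theorem PH_le_one {a b : ℂ} (ha : 0 < a.im) (hb : 0 < b.im) : PH a b ≤ 1 := by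
  unfold PH
  have : 0 < a.im + b.im := by linarith
  rw [div_le_one (by positivity)]
  nlinarith [sq_nonneg (a.im - b.im), sq_nonneg (a.re - b.re)]

theorem harnack_vec (p q w1 w2 K : ℝ) (hK : 0 < K)
    (hw : w1 ^ 2 + w2 ^ 2 ≤ K ^ 2 * (p ^ 2 + q ^ 2)) :
    (p + w1) ^ 2 + (q + w2) ^ 2 ≤ (1 + K) ^ 2 * (p ^ 2 + q ^ 2) := by
  have h : p * w1 + q * w2 ≤ K * (p ^ 2 + q ^ 2) := by
    have h1 : K * (p * w1 + q * w2) ≤ K * (K * (p ^ 2 + q ^ 2)) := by
      nlinarith [sq_nonneg (K * p - w1), sq_nonneg (K * q - w2)]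
    exact le_of_mul_le_mul_left h1 hK
  nlinarith

theorem harnack {x a b : ℂ} (hx : 0 < x.im) (ha : 0 < a.im) (hb : 0 < b.im) {s : ℝ} (hs : 0 < s)
    (h : s ≤ PH a b) : PH x a ≤ (4 / s) * (1 + 4 / s) ^ 2 * PH x b := by
  set K : ℝ := 4 / s with hK
  have hK0 : 0 < K := by positivity
  have hab : 0 < a.im + b.im := by linarith
  have hD : 0 < (a.re - b.re) ^ 2 + (a.im + b.im) ^ 2 := by positivity
  have h1 : s * ((a.re - b.re) ^ 2 + (a.im + b.im) ^ 2) ≤ 4 * a.im * b.im := by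
    unfold PH at h
    rwa [le_div_iff₀ hD] at h
  have h1' : (a.re - b.re) ^ 2 + (a.im + b.im) ^ 2 ≤ K * (a.im * b.im) := by
    have e : K * (a.im * b.im) = (4 * a.im * b.im) / s := by rw [hK]; ring
    rw [e, le_div_iff₀ hs]
    linarith
  have hya : a.im ≤ K * b.im := by
    have e1 : a.im * a.im ≤ a.im * (K * b.im) := by
      nlinarith [sq_nonneg (a.re - b.re), mul_pos ha hb, sq_nonneg b.im]
    exact le_of_mul_le_mul_left e1 ha
  have hyb : b.im ≤ K * a.im := by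
    have e1 : b.im * b.im ≤ b.im * (K * a.im) := by
      nlinarith [sq_nonneg (a.re - b.re), mul_pos ha hb, sq_nonneg a.im]
    exact le_of_mul_le_mul_left e1 hb
  have hxa : 0 < x.im + a.im := by linarith
  have hxb : 0 < x.im + b.im := by linarith
  have hD1 : 0 < (x.re - a.re) ^ 2 + (x.im + a.im) ^ 2 := by positivity
  have hD2 : 0 < (x.re - b.re) ^ 2 + (x.im + b.im) ^ 2 := by positivity
  have hw : (a.re - b.re) ^ 2 + (b.im - a.im) ^ 2 ≤
      K ^ 2 * ((x.re - a.re) ^ 2 + (x.im + a.im) ^ 2) := by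
    have e1 : (a.re - b.re) ^ 2 + (b.im - a.im) ^ 2 ≤ K * (a.im * b.im) := by
      nlinarith [mul_pos ha hb]
    have e2 : K * (a.im * b.im) ≤ K * (a.im * (K * a.im)) := by
      apply mul_le_mul_of_nonneg_left _ hK0.le
      exact mul_le_mul_of_nonneg_left hyb ha.le
    have e3 : a.im ^ 2 ≤ (x.re - a.re) ^ 2 + (x.im + a.im) ^ 2 := by
      nlinarith [sq_nonneg (x.re - a.re), mul_pos hx ha, sq_nonneg x.im]
    have e4 := mul_le_mul_of_nonneg_left e3 (sq_nonneg K)
    nlinarith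
  have hv := harnack_vec (x.re - a.re) (x.im + a.im) (a.re - b.re) (b.im - a.im) K hK0 hw
  have e5 : x.re - a.re + (a.re - b.re) = x.re - b.re := by ring
  have e6 : x.im + a.im + (b.im - a.im) = x.im + b.im := by ring
  rw [e5, e6] at hv
  unfold PH
  rw [mul_div_assoc', div_le_div_iff₀ hD1 hD2]
  have e7 : 4 * x.im * a.im ≤ 4 * x.im * (K * b.im) :=
    mul_le_mul_of_nonneg_left hya (by positivity)
  calc 4 * x.im * a.im * ((x.re - b.re) ^ 2 + (x.im + b.im) ^ 2)
      ≤ (4 * x.im * (K * b.im)) *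
        ((1 + K) ^ 2 * ((x.re - a.re) ^ 2 + (x.im + a.im) ^ 2)) :=
        mul_le_mul e7 hv hD2.le (by positivity)
    _ = _ := by ring

theorem summable_PH {ι : Type} {w : ι → ℂ} {A : Set ι} (h : BlaOn w A) {e : ℂ} (he : 0 < e.im) :
    Summable fun i : A => PH (w i) e := by
  obtain ⟨h1, h2⟩ := h
  have hI : 0 < Complex.I.im := by simp
  refine Summable.of_nonneg_of_le (fun i => (PH_pos (h1 i i.2) he).le)
    (fun i => harnack (h1 i i.2) he hI (PH_pos he hI) le_rfl) (h2.mul_left _)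

end Pool.Agent.Helper503.Gp
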