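import Pool.Agent.Helper503.Gp.Defs
import Pool.Agent.Helper503.Gp.Harn
import Pool.Agent.Helper503.Gp.Cay
import Pool.Agent.Helper503.Dg.Bl
import Pool.Agent.Helper503.Dg.Fact2
import Pool.Agent.Helper503.Dg.Nehari

set_option autoImplicit false

open Metric Set Filter Topology Complex
open scoped ComplexConjugate

namespace Pool.Agent.Helper503.Gp

theorem bfac_eq_lib (a z : ℂ) : bfac a z = Dg.bfac a z := rfl

theorem BF_eq_lib {ι : Type} (w : ι → ℂ) (A : Set ι) :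
    BF w A = Dg.bprod (fun i : A => cay (w i)) := rfl

theorem lib_sum {ι : Type} {w : ι → ℂ} {A : Set ι} (h : BlaOn w A) :
    Summable fun i : A => 1 - ‖cay (w i)‖ := by
  refine Summable.of_nonneg_of_le (fun i => ?_) (fun i => ?_) h.2
  · have := cay_mem (h.1 i i.2)
    rw [mem_ball_zero_iff] at this
    linarith
  · have h1 := cay_mem (h.1 i i.2)
    rw [mem_ball_zero_iff] at h1
    rw [← one_sub_cay (h.1 i i.2)]
    nlinarith [norm_nonneg (cay (w i))]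

theorem lib_mem {ι : Type} {w : ι → ℂ} {A : Set ι} (h : BlaOn w A) (i : A) :
    cay (w i) ∈ Dg.disc := cay_mem (h.1 i i.2)

theorem BF_hasProd {ι : Type} {w : ι → ℂ} {A : Set ι} (h : BlaOn w A) {z : ℂ}
    (hz : z ∈ Metric.ball (0:ℂ) 1) : HasProd (fun i : A => bfac (cay (w i)) z) (BF w A z) :=
  Dg.fam_hasProd (lib_mem h) (lib_sum h) hz

theorem BF_le {ι : Type} {w : ι → ℂ} {A : Set ι} (h : BlaOn w A) :
    ∀ z ∈ Metric.ball (0:ℂ) 1, ‖BF w A z‖ ≤ 1 :=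
  fun _ hz => Dg.fam_le (lib_mem h) (lib_sum h) hz

theorem BF_mem {ι : Type} {w : ι → ℂ} {A : Set ι} (h : BlaOn w A) : BF w A ∈ HI :=
  ⟨Dg.fam_diff (lib_mem h) (lib_sum h), 1, BF_le h⟩

theorem BF_blaschke {ι : Type} {w : ι → ℂ} {A : Set ι} (h : BlaOn w A) :
    Dg.IsBlaschke (BF w A) := by
  refine ⟨1, A, fun i => cay (w i), by simp, lib_mem h, lib_sum h, fun z hz => ?_⟩
  exact ⟨BF w A z, BF_hasProd h hz, by rw [one_mul]⟩

theorem factor_HI {f : ℂ → ℂ} (hf : f ∈ HI) (hf1 : ∀ z ∈ Metric.ball (0:ℂ) 1, ‖f z‖ ≤ 1)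
    (hne : ∃ z ∈ Metric.ball (0:ℂ) 1, f z ≠ 0) :
    ∃ (ι : Type) (w : ι → ℂ) (g : ℂ → ℂ), BlaOn w Set.univ ∧ g ∈ HI ∧
      (∀ z ∈ Metric.ball (0:ℂ) 1, ‖g z‖ ≤ 1) ∧ (∀ z ∈ Metric.ball (0:ℂ) 1, g z ≠ 0) ∧
      ∀ z ∈ Metric.ball (0:ℂ) 1, f z = BF w Set.univ z * g z := by
  obtain ⟨z0, hz0, h0⟩ := hne
  obtain ⟨g, h1, h2, h3, h4⟩ := Dg.factor hf.1 hf1 hz0 h0
  choose W hW1 hW2 using fun i : Dg.Idx f => cay_surj (Dg.zer_mem f i)
  have hsum := Dg.zer_summable hf.1 hf1 hz0 h0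
  have hB : BlaOn W Set.univ := by
    refine ⟨fun i _ => hW1 i, ?_⟩
    have h5 : Summable fun i : Dg.Idx f => PH (W i) I := by
      refine Summable.of_nonneg_of_le (fun i => ?_) (fun i => ?_) (hsum.mul_left 2)
      · exact (PH_pos (hW1 i) (by simp)).le
      · rw [← one_sub_cay (hW1 i), hW2]
        have h6 := Dg.mem_disc.1 (Dg.zer_mem f i)
        nlinarith [norm_nonneg (Dg.zer f i)]
    exact h5.subtype _
  refine ⟨Dg.Idx f, W, g, hB, ⟨h1, 1, h3⟩, h3, h2, fun z hz => ?_⟩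
  rw [h4 z hz]
  congr 1
  have e1 := (Dg.BP_hasProd hf.1 hf1 hz0 h0 hz)
  have e2 := BF_hasProd hB hz
  have e3 : HasProd (fun i : Dg.Idx f => bfac (cay (W i)) z) (BF W Set.univ z) :=
    ((Equiv.Set.univ (Dg.Idx f)).hasProd_iff (f := fun i : Dg.Idx f => bfac (cay (W i)) z)).1 e2
  have e4 : (fun i : Dg.Idx f => bfac (cay (W i)) z) = fun i => Dg.bfac (Dg.zer f i) z := by
    funext i
    rw [hW2]
    rfl
  rw [e4] at e3
  exact e1.unique e3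

theorem wolff_est {ι : Type} {w : ι → ℂ} {Z U : Set ι} (hZ : BlaOn w Z) (hU : BlaOn w U) {c : ℝ}
    (hc0 : 0 < c) (hc1 : c ≤ 1)
    (hc : ∀ z ∈ Metric.ball (0:ℂ) 1, c ≤ ‖BF w Z z‖ ^ 2 + (1 - ‖BF w U z‖ ^ 2) ^ 3) (m : ℕ) :
    ∃ g ∈ HI, ∀ z ∈ Metric.ball (0:ℂ) 1,
      ‖BF w U z ^ (2 * m + 1) - BF w Z z * g z‖ ≤ 1428 * (c⁻¹) ^ 3 / (m + 1) := by
  obtain ⟨ST, rS⟩ := Dg.inner_rep (BF_blaschke hZ).inner
  obtain ⟨bT, rb⟩ := Dg.inner_rep (BF_blaschke hU).inner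
  have hpair := Dg.pairing rb.mem rS.mem rb.one rS.one hc0 hc1 (fun z hz => by
    rw [rS.ext z hz, rb.ext z hz]; exact hc z hz) m
  have hpow : ∀ k : ℕ, (fun t => bT t ^ k) ∈ Dg.HInf ∧
      ∀ z ∈ Dg.disc, Dg.ext (fun t => bT t ^ k) z = BF w U z ^ k := by
    intro k
    induction k with
    | zero =>
      simp only [pow_zero]
      exact ⟨Dg.const_HInf 1, fun z hz => Dg.ext_one⟩
    | succ k ih =>
      have e1 : (fun t => bT t ^ (k + 1)) = fun t => bT t ^ k * bT t := by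
        funext t; rw [pow_succ]
      rw [e1]
      refine ⟨Dg.mul_HInf ih.1 rb.mem, fun z hz => ?_⟩
      rw [Dg.ext_mul ih.1 rb.mem (Dg.mem_disc.1 hz), ih.2 z hz, rb.ext z hz, pow_succ]
  obtain ⟨h1, h2⟩ := hpow (2 * m + 1)
  have hm : MeasureTheory.MemLp (fun t => conj (ST t) * bT t ^ (2 * m + 1)) ⊤ Dg.mu :=
    Dg.bdd_mul (Dg.bdd_conj rS.mem.1) h1.1
  obtain ⟨f, hf, hfle⟩ := Dg.nehari hm (by positivity) (fun P hP => hpair P hP)
  refine ⟨Dg.ext f, ?_, fun z hz => ?_⟩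
  · exact Dg.bddHol_ext hf
  · have hz1 := Dg.mem_disc.1 hz
    have h3 : (fun t => bT t ^ (2 * m + 1) - ST t * f t) ∈ Dg.HInf :=
      Dg.sub_HInf h1 (Dg.mul_HInf rS.mem hf)
    have h4 : Dg.ext (fun t => bT t ^ (2 * m + 1) - ST t * f t) z =
        BF w U z ^ (2 * m + 1) - BF w Z z * Dg.ext f z := by
      rw [Dg.ext_sub (Dg.memLp_integrable h1.1) (Dg.memLp_integrable (Dg.mul_HInf rS.mem hf).1) hz1,
        h2 z hz, Dg.ext_mul rS.mem hf hz1, rS.ext z hz]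
    rw [← h4]
    refine Dg.ext_bound h3 ?_ hz1
    filter_upwards [hfle, rS.one] with t t1 t2
    have e1 : bT t ^ (2 * m + 1) - ST t * f t =
        ST t * (conj (ST t) * bT t ^ (2 * m + 1) - f t) := by
      have e2 : ST t * conj (ST t) = 1 := by
        rw [Complex.mul_conj, Complex.normSq_eq_norm_sq, t2]; norm_num
      linear_combination (- bT t ^ (2 * m + 1)) * e2
    rw [e1, norm_mul, t2, one_mul]
    exact t1

end Pool.Agent.Helper503.Gp
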