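import Pool.Agent.Helper503.Gp.Defs
import Pool.Agent.Helper503.Gp.Lib
import Pool.Agent.Helper503.Gp.Cay

set_option autoImplicit false

open Metric Set Filter Topology Complex
open scoped ComplexConjugate

namespace Pool.Agent.Helper503.Gp



theorem BF_union {ι : Type} {w : ι → ℂ} {A B : Set ι} (hA : BlaOn w A) (hB : BlaOn w B)
    (hd : Disjoint A B) {z : ℂ} (hz : z ∈ Metric.ball (0:ℂ) 1) :
    BF w (A ∪ B) z = BF w A z * BF w B z := by
  have h1 : HasProd ((fun i : ι => bfac (cay (w i)) z) ∘ ((↑) : A → ι)) (BF w A z) :=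
    BF_hasProd hA hz
  have h2 : HasProd ((fun i : ι => bfac (cay (w i)) z) ∘ ((↑) : B → ι)) (BF w B z) :=
    BF_hasProd hB hz
  exact (h1.mul_disjoint hd h2).tprod_eq

theorem BF_map {ι ι' : Type} (f : ι' → ι) (hf : Function.Injective f) (w : ι → ℂ) (A : Set ι') :
    BF w (f '' A) = BF (w ∘ f) A := by
  funext z
  unfold BF
  exact tprod_image (fun i : ι => bfac (cay (w i)) z) hf.injOn

theorem BF_zero {ι : Type} {w : ι → ℂ} {A : Set ι} (h : BlaOn w A) {i : ι} (hi : i ∈ A) :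
    BF w A (cay (w i)) = 0 := by
  unfold BF
  refine tprod_of_exists_eq_zero ⟨⟨i, hi⟩, ?_⟩
  unfold bfac
  split_ifs with h0
  · exact h0
  · simp

end Pool.Agent.Helper503.Gp
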