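import Pool.Agent.Helper503.Gp.Defs
import Pool.Agent.Helper503.Gp.Lib
import Pool.Agent.Helper503.Gp.Cay
import Pool.Agent.Helper503.Gp.Harn

set_option autoImplicit false

open Metric Set Filter Topology Complex
open scoped ComplexConjugate

namespace Pool.Agent.Helper503.Gp



theorem BF_tend {ι : Type} {w : ι → ℂ} {A : Set ι} (h : BlaOn w A) {e : ℂ} (he : 0 < e.im) :
    Tendsto (fun s : Finset A => ∏ i ∈ s, (1 - PH (w i) e)) (SummationFilter.unconditional A).filter
      (𝓝 (‖BF w A (cay e)‖ ^ 2)) := by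
  have h1 : Tendsto (fun s : Finset A => ∏ i ∈ s, bfac (cay (w i)) (cay e))
      (SummationFilter.unconditional A).filter (𝓝 (BF w A (cay e))) := BF_hasProd h (cay_mem he)
  have h2 := h1.norm.pow 2
  refine h2.congr (fun s => ?_)
  rw [norm_prod, ← Finset.prod_pow]
  refine Finset.prod_congr rfl (fun i _ => ?_)
  have := one_sub_bfac_cay (h.1 i i.2) he
  linarith

theorem BF_tend' {ι : Type} {w : ι → ℂ} {A : Set ι} (h : BlaOn w A) {e : ℂ} (he : 0 < e.im)
    (c : ℝ) :
    Tendsto (fun s : Finset A => ∏ i ∈ s, Real.exp (c * PH (w i) e))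
      (SummationFilter.unconditional A).filter (𝓝 (Real.exp (c * mu w A e))) := by
  have h1 : Tendsto (fun s : Finset A => ∑ i ∈ s, PH (w i) e)
      (SummationFilter.unconditional A).filter (𝓝 (mu w A e)) := (summable_PH h he).hasSum
  have h2 := (Real.continuous_exp.tendsto _).comp (h1.const_mul c)
  refine h2.congr (fun s => ?_)
  rw [Function.comp_apply, Finset.mul_sum, Real.exp_sum]

theorem BF_exp_lower {x : ℝ} (hx : 0 ≤ x) (hx2 : x ≤ 1 / 2) : Real.exp (-2 * x) ≤ 1 - x := by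
  have h1 : 1 + 2 * x ≤ Real.exp (2 * x) := by
    have := Real.add_one_le_exp (2 * x)
    linarith
  have h2 : Real.exp (-2 * x) = (Real.exp (2 * x))⁻¹ := by
    rw [← Real.exp_neg]
    congr 1
    ring
  rw [h2, inv_le_comm₀ (Real.exp_pos _) (by linarith)]
  refine le_trans ?_ h1
  rw [inv_le_comm₀ (by linarith) (by linarith), inv_le_iff_one_le_mul₀ (by linarith)]
  nlinarith

theorem BF_upper {ι : Type} {w : ι → ℂ} {A : Set ι} (h : BlaOn w A) {e : ℂ} (he : 0 < e.im) :
    ‖BF w A (cay e)‖ ^ 2 ≤ Real.exp (- mu w A e) := by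
  have h1 := BF_tend h he
  have h2 := BF_tend' h he (-1)
  have h3 : (-1 : ℝ) * mu w A e = - mu w A e := by ring
  rw [h3] at h2
  refine le_of_tendsto_of_tendsto' h1 h2 (fun s => ?_)
  refine Finset.prod_le_prod (fun i _ => ?_) (fun i _ => ?_)
  · have := PH_le_one (h.1 i i.2) he
    linarith
  · have := Real.add_one_le_exp (-1 * PH (w i) e)
    linarith

theorem BF_lower {ι : Type} {w : ι → ℂ} {A : Set ι} (h : BlaOn w A) {e : ℂ} (he : 0 < e.im)
    (hhalf : ∀ i ∈ A, PH (w i) e ≤ 1 / 2) :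
    Real.exp (- 2 * mu w A e) ≤ ‖BF w A (cay e)‖ ^ 2 := by
  have h1 := BF_tend h he
  have h2 := BF_tend' h he (-2)
  refine le_of_tendsto_of_tendsto' h2 h1 (fun s => ?_)
  refine Finset.prod_le_prod (fun i _ => (Real.exp_pos _).le) (fun i _ => ?_)
  exact BF_exp_lower (PH_pos (h.1 i i.2) he).le (hhalf i i.2)

end Pool.Agent.Helper503.Gp
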