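import Pool.Agent.Helper503.Gp.Defs

set_option autoImplicit false

open Metric Set Filter Topology Complex
open scoped ComplexConjugate

namespace Pool.Agent.Helper503.Gp

theorem PH_nonneg' {a b : ℂ} (ha : 0 < a.im) (hb : 0 < b.im) : 0 ≤ PH a b := by
  unfold PH
  positivity

theorem incr_le {ι : Type} (F : ℝ → ℝ) (hF : Monotone F) (m : ℝ) (hm : ∀ t, m ≤ F t)
    (l r : ι → ℝ) (C : Finset ι) : (∀ c ∈ C, l c ≤ r c) →
    (∀ c ∈ C, ∀ c' ∈ C, c ≠ c' → r c ≤ l c' ∨ r c' ≤ l c) → (∀ c ∈ C, l c < r c) →
    ∀ M, (∀ c ∈ C, r c ≤ M) → ∑ c ∈ C, (F (r c) - F (l c)) ≤ F M - m := by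
  classical
  induction C using Finset.strongInduction with
  | H C ih =>
    intro h1 h2 h3 M hM
    rcases C.eq_empty_or_nonempty with rfl | hne
    · simp only [Finset.sum_empty]
      linarith [hm M]
    · obtain ⟨c, hc, hmax⟩ := Finset.exists_max_image C l hne
      have hsub : C.erase c ⊂ C := Finset.erase_ssubset hc
      have h4 := ih (C.erase c) hsub (fun c' hc' => h1 c' (Finset.mem_of_mem_erase hc'))
        (fun a ha b hb => h2 a (Finset.mem_of_mem_erase ha) b (Finset.mem_of_mem_erase hb))
        (fun c' hc' => h3 c' (Finset.mem_of_mem_erase hc')) (l c) (by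
          intro c' hc'
          have hne' := Finset.ne_of_mem_erase hc'
          have hc'' := Finset.mem_of_mem_erase hc'
          rcases h2 c' hc'' c hc hne' with h | h
          · exact h
          · exfalso
            have := h3 c hc
            have := hmax c' hc''
            linarith)
      rw [← Finset.add_sum_erase C _ hc]
      have h5 : F (r c) ≤ F M := hF (hM c hc)
      linarith

theorem arctan_incr (xe ye : ℝ) (hye : 0 < ye) (l r m : ℝ) (hlr : l < r)
    (hm : ∀ t, l < t → t < r → m ≤ ye / ((xe - t) ^ 2 + ye ^ 2)) :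
    m * (r - l) ≤ Real.arctan ((r - xe) / ye) - Real.arctan ((l - xe) / ye) := by
  have hd : ∀ t : ℝ, HasDerivAt (fun t => Real.arctan ((t - xe) / ye))
      (ye / ((xe - t) ^ 2 + ye ^ 2)) t := by
    intro t
    have h1 : HasDerivAt (fun t : ℝ => (t - xe) / ye) (1 / ye) t :=
      ((hasDerivAt_id t).sub_const xe).div_const ye
    have h2 := (Real.hasDerivAt_arctan ((t - xe) / ye)).comp t h1
    have h3 : 1 / (1 + ((t - xe) / ye) ^ 2) * (1 / ye) = ye / ((xe - t) ^ 2 + ye ^ 2) := by
      have h4 : 0 < (xe - t) ^ 2 + ye ^ 2 := by positivity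
      have h5 : 0 < 1 + ((t - xe) / ye) ^ 2 := by positivity
      rw [div_mul_div_comm, one_mul, div_eq_div_iff (by positivity) (by positivity)]
      field_simp
      ring
    rw [h3] at h2
    exact h2
  obtain ⟨t, ht, hts⟩ := exists_hasDerivAt_eq_slope
    (fun t => Real.arctan ((t - xe) / ye)) (fun t => ye / ((xe - t) ^ 2 + ye ^ 2)) hlr
    (fun t _ => (hd t).continuousAt.continuousWithinAt) (fun t _ => hd t)
  have h6 := hm t ht.1 ht.2
  have h7 : 0 < r - l := by linarith
  rw [hts, le_div_iff₀ h7] at h6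
  exact h6

theorem minus_part {ι : Type} (w : ι → ℂ) (T : ℝ) (hT0 : 0 ≤ T) (e : ℂ) (he : 0 < e.im)
    (B : Finset ι) : (∀ i ∈ B, 0 < (w i).im ∧ (w i).im ≤ e.im) →
    (∀ i ∈ B, ∑ j ∈ B, PH (w j) (w i) ≤ T) →
    ∃ C ⊆ B, (∀ c ∈ C, ∀ c' ∈ C, c ≠ c' →
      (w c).re + (w c).im / 2 ≤ (w c').re - (w c').im / 2 ∨
      (w c').re + (w c').im / 2 ≤ (w c).re - (w c).im / 2) ∧
      ∑ j ∈ B, PH (w j) e ≤ 55 / 2 * T * ∑ c ∈ C,
        (Real.arctan (((w c).re + (w c).im / 2 - e.re) / e.im) -
          Real.arctan (((w c).re - (w c).im / 2 - e.re) / e.im)) := by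
  classical
  induction B using Finset.strongInduction with
  | H B ih =>
    intro h1 h2
    rcases B.eq_empty_or_nonempty with rfl | hne
    · exact ⟨∅, Finset.Subset.refl _, by simp, by simp⟩
    · obtain ⟨c, hc, hmax⟩ := Finset.exists_max_image B (fun i => (w i).im) hne
      set Bc := B.filter (fun j => |(w j).re - (w c).re| ≤ (w c).im) with hBc
      set B' := B.filter (fun j => ¬ |(w j).re - (w c).re| ≤ (w c).im) with hB'
      have hyc := (h1 c hc).1
      have hyce := (h1 c hc).2
      have hcBc : c ∈ Bc := by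
        rw [hBc, Finset.mem_filter]
        exact ⟨hc, by rw [sub_self, abs_zero]; exact hyc.le⟩
      have hss : B' ⊂ B := by
        rw [Finset.ssubset_iff_of_subset (Finset.filter_subset _ _)]
        refine ⟨c, hc, ?_⟩
        rw [Finset.mem_filter]
        rintro ⟨-, h⟩
        apply h
        rw [sub_self, abs_zero]; exact hyc.le
      have hsub : B' ⊆ B := hss.1
      obtain ⟨C, hCB, hCd, hCs⟩ := ih B' hss (fun i hi => h1 i (hsub hi)) (by
        intro i hi
        refine le_trans ?_ (h2 i (hsub hi))
        exact Finset.sum_le_sum_of_subset_of_nonneg hsub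
          (fun j hj _ => PH_nonneg' (h1 j hj).1 (h1 i (hsub hi)).1))
      have hcC : c ∉ C := by
        intro h
        have := hCB h
        rw [hB', Finset.mem_filter] at this
        apply this.2
        rw [sub_self, abs_zero]; exact hyc.le
      have hsep : ∀ c' ∈ C, (w c').re + (w c').im / 2 ≤ (w c).re - (w c).im / 2 ∨
          (w c).re + (w c).im / 2 ≤ (w c').re - (w c').im / 2 := by
        intro c' hc'
        have h3 := hCB hc'
        rw [hB', Finset.mem_filter] at h3
        have h4 := hmax c' h3.1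
        have h5 := h3.2
        rw [not_le, lt_abs] at h5
        rcases h5 with h5 | h5
        · right; linarith
        · left; linarith
      refine ⟨insert c C, ?_, ?_, ?_⟩
      · intro x hx
        rw [Finset.mem_insert] at hx
        rcases hx with rfl | hx
        · exact hc
        · exact hsub (hCB hx)
      · intro a ha b hb hab
        rw [Finset.mem_insert] at ha hb
        rcases ha with rfl | ha <;> rcases hb with rfl | hb
        · exact absurd rfl hab
        · exact (hsep b hb).symm
        · exact hsep a ha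
        · exact hCd a ha b hb hab
      · rw [Finset.sum_insert hcC, mul_add]
        have hsplit : ∑ j ∈ B, PH (w j) e = ∑ j ∈ Bc, PH (w j) e + ∑ j ∈ B', PH (w j) e :=
          (Finset.sum_filter_add_sum_filter_not B _ _).symm
        rw [hsplit]
        refine add_le_add ?_ hCs
        set Δ : ℝ := Real.arctan (((w c).re + (w c).im / 2 - e.re) / e.im) -
          Real.arctan (((w c).re - (w c).im / 2 - e.re) / e.im) with hΔ
        -- each term
        have hterm : ∀ j ∈ Bc, PH (w j) e ≤ 22 * ((w j).im / (w c).im) * Δ := by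
          intro j hj
          rw [hBc, Finset.mem_filter] at hj
          have hyj := (h1 j hj.1).1
          have hyjc : (w j).im ≤ (w c).im := hmax j hj.1
          have habs := hj.2
          rw [abs_le] at habs
          have h3 := arctan_incr e.re e.im he ((w c).re - (w c).im / 2) ((w c).re + (w c).im / 2)
            (PH (w j) e / (22 * (w j).im)) (by linarith) (by
              intro t ht1 ht2
              rw [div_le_iff₀ (by positivity)]
              unfold PH
              have hden : 0 < (e.re - t) ^ 2 + e.im ^ 2 := by positivity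
              have hden2 : 0 < ((w j).re - e.re) ^ 2 + ((w j).im + e.im) ^ 2 := by positivity
              rw [div_mul_eq_mul_div, div_le_div_iff₀ hden2 hden]
              have h5 : (e.re - t) ^ 2 ≤ 2 * (e.re - (w j).re) ^ 2 + 9 / 2 * e.im ^ 2 := by
                have h6 : ((w j).re - t) ^ 2 ≤ (3 / 2 * e.im) ^ 2 := by
                  apply sq_le_sq'
                  · linarith
                  · linarith
                nlinarith [sq_nonneg ((e.re - (w j).re) - ((w j).re - t))]
              have h7 : 2 * ((e.re - t) ^ 2 + e.im ^ 2) ≤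
                  11 * (((w j).re - e.re) ^ 2 + ((w j).im + e.im) ^ 2) := by
                nlinarith [mul_pos hyj he, sq_nonneg ((w j).im), sq_nonneg ((w j).re - e.re)]
              have h8 : 0 < (w j).im * e.im := mul_pos hyj he
              nlinarith [mul_le_mul_of_nonneg_left h7 h8.le])
          have h4 : PH (w j) e / (22 * (w j).im) * (w c).im ≤ Δ := by
            have h9 : (w c).re + (w c).im / 2 - ((w c).re - (w c).im / 2) = (w c).im := by ring
            rw [h9] at h3
            exact h3
          have h10 : PH (w j) e = 22 * ((w j).im / (w c).im) *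
              (PH (w j) e / (22 * (w j).im) * (w c).im) := by
            field_simp
          rw [h10]
          exact mul_le_mul_of_nonneg_left h4 (by positivity)
        have hΔ0 : 0 ≤ Δ := by
          rw [hΔ, sub_nonneg]
          apply Real.arctan_strictMono.monotone
          gcongr
          linarith
        have hmass : ∑ j ∈ Bc, (w j).im / (w c).im ≤ 5 / 4 * T := by
          have h3 : ∑ j ∈ Bc, PH (w j) (w c) ≤ T :=
            le_trans (Finset.sum_le_sum_of_subset_of_nonneg (Finset.filter_subset _ _)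
              (fun j hj _ => PH_nonneg' (h1 j hj).1 hyc)) (h2 c hc)
          have h4 : ∑ j ∈ Bc, 4 / 5 * ((w j).im / (w c).im) ≤ ∑ j ∈ Bc, PH (w j) (w c) := by
            apply Finset.sum_le_sum
            intro j hj
            rw [hBc, Finset.mem_filter] at hj
            have hyj := (h1 j hj.1).1
            have hyjc : (w j).im ≤ (w c).im := hmax j hj.1
            have habs := abs_le.1 hj.2
            unfold PH
            rw [← mul_div_assoc, div_le_div_iff₀ hyc (by positivity)]
            have h5 : ((w j).re - (w c).re) ^ 2 ≤ (w c).im ^ 2 := sq_le_sq' (by linarith) (by linarith)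
            have h6 : ((w j).im + (w c).im) ^ 2 ≤ 4 * (w c).im ^ 2 := by nlinarith
            nlinarith [mul_le_mul_of_nonneg_left (add_le_add h5 h6) hyj.le]
          rw [← Finset.mul_sum] at h4
          linarith
        calc ∑ j ∈ Bc, PH (w j) e ≤ ∑ j ∈ Bc, 22 * ((w j).im / (w c).im) * Δ :=
              Finset.sum_le_sum hterm
          _ = 22 * Δ * ∑ j ∈ Bc, (w j).im / (w c).im := by
              rw [Finset.mul_sum]
              apply Finset.sum_congr rfl
              intros; ring
          _ ≤ 22 * Δ * (5 / 4 * T) := mul_le_mul_of_nonneg_left hmass (by positivity)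
          _ = 55 / 2 * T * Δ := by ring

theorem plus_part {ι : Type} (w : ι → ℂ) (T : ℝ) (hT0 : 0 ≤ T) (e : ℂ) (he : 0 < e.im)
    (B : Finset ι) (h1 : ∀ i ∈ B, e.im < (w i).im)
    (h2 : ∀ i ∈ B, ∑ j ∈ B, PH (w j) (w i) ≤ T) : ∑ j ∈ B, PH (w j) e ≤ 4 * T := by
  classical
  rcases B.eq_empty_or_nonempty with rfl | hne
  · simp; linarith
  · obtain ⟨c, hc, hmin⟩ := Finset.exists_min_image B
      (fun j => ((w j).re - e.re) ^ 2 + ((w j).im + e.im) ^ 2) hne
    have h3 : ∀ j ∈ B, PH (w j) e ≤ 4 * PH (w j) (w c) := by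
      intro j hj
      have hyj := h1 j hj
      have hyc := h1 c hc
      have hm := hmin j hj
      have hyj0 : 0 < (w j).im := by linarith
      have hyc0 : 0 < (w c).im := by linarith
      unfold PH
      have hd1 : 0 < ((w j).re - e.re) ^ 2 + ((w j).im + e.im) ^ 2 := by positivity
      have hd2 : 0 < ((w j).re - (w c).re) ^ 2 + ((w j).im + (w c).im) ^ 2 := by positivity
      rw [← mul_div_assoc, div_le_div_iff₀ hd1 hd2]
      have h4 : ((w j).re - (w c).re) ^ 2 + ((w j).im + (w c).im) ^ 2 ≤
          4 * (((w j).re - e.re) ^ 2 + ((w j).im + e.im) ^ 2) := by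
        nlinarith [sq_nonneg (((w j).re - e.re) + ((w c).re - e.re)),
          sq_nonneg (((w j).im + e.im) - ((w c).im - e.im)), mul_pos hyc0 he]
      have h5 : 0 < (w j).im * e.im := mul_pos hyj0 he
      have h6 : 0 < (w j).im * (w c).im := mul_pos hyj0 hyc0
      have h7 : (w j).im * e.im ≤ (w j).im * (w c).im := mul_le_mul_of_nonneg_left hyc.le hyj0.le
      calc 4 * (w j).im * e.im * (((w j).re - (w c).re) ^ 2 + ((w j).im + (w c).im) ^ 2)
          = 4 * ((w j).im * e.im) * (((w j).re - (w c).re) ^ 2 + ((w j).im + (w c).im) ^ 2) := by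
            ring
        _ ≤ 4 * ((w j).im * (w c).im) *
            (4 * (((w j).re - e.re) ^ 2 + ((w j).im + e.im) ^ 2)) := by
            gcongr
        _ = 4 * (4 * (w j).im * (w c).im) * (((w j).re - e.re) ^ 2 + ((w j).im + e.im) ^ 2) := by
            ring
    calc ∑ j ∈ B, PH (w j) e ≤ ∑ j ∈ B, 4 * PH (w j) (w c) := Finset.sum_le_sum h3
      _ = 4 * ∑ j ∈ B, PH (w j) (w c) := by rw [Finset.mul_sum]
      _ ≤ 4 * T := by linarith [h2 c hc]

theorem carleson_finset {ι : Type} (w : ι → ℂ) (A : Finset ι) (hA : ∀ i ∈ A, 0 < (w i).im)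
    (T : ℝ) (hT : ∀ i ∈ A, ∑ j ∈ A, PH (w j) (w i) ≤ T) (e : ℂ) (he : 0 < e.im) (hT0 : 0 ≤ T) :
    ∑ j ∈ A, PH (w j) e ≤ 100 * T := by
  classical
  set Am := A.filter (fun j => (w j).im ≤ e.im) with hAm
  set Ap := A.filter (fun j => ¬ (w j).im ≤ e.im) with hAp
  have hsm : Am ⊆ A := Finset.filter_subset _ _
  have hsp : Ap ⊆ A := Finset.filter_subset _ _
  have hsplit : ∑ j ∈ A, PH (w j) e = ∑ j ∈ Am, PH (w j) e + ∑ j ∈ Ap, PH (w j) e :=
    (Finset.sum_filter_add_sum_filter_not A _ _).symm
  have hp : ∑ j ∈ Ap, PH (w j) e ≤ 4 * T := by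
    apply plus_part w T hT0 e he Ap
    · intro i hi
      rw [hAp, Finset.mem_filter] at hi
      exact not_le.1 hi.2
    · intro i hi
      exact le_trans (Finset.sum_le_sum_of_subset_of_nonneg hsp
        (fun j hj _ => PH_nonneg' (hA j hj) (hA i (hsp hi)))) (hT i (hsp hi))
  obtain ⟨C, hCA, hCd, hCs⟩ := minus_part w T hT0 e he Am (by
      intro i hi
      rw [hAm, Finset.mem_filter] at hi
      exact ⟨hA i hi.1, hi.2⟩) (by
      intro i hi
      exact le_trans (Finset.sum_le_sum_of_subset_of_nonneg hsm
        (fun j hj _ => PH_nonneg' (hA j hj) (hA i (hsm hi)))) (hT i (hsm hi)))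
  have hCpos : ∀ c ∈ C, 0 < (w c).im := fun c hc => hA c (hsm (hCA hc))
  obtain ⟨M, hM⟩ : ∃ M : ℝ, ∀ c ∈ C, (w c).re + (w c).im / 2 ≤ M := by
    refine ⟨∑ c ∈ C, |(w c).re + (w c).im / 2|, fun c hc => ?_⟩
    exact (le_abs_self _).trans
      (Finset.single_le_sum (f := fun c => |(w c).re + (w c).im / 2|)
        (fun _ _ => abs_nonneg _) hc)
  have hi := incr_le (fun t => Real.arctan ((t - e.re) / e.im)) (by
      intro a b hab
      apply Real.arctan_strictMono.monotone
      gcongr) (-(Real.pi / 2)) (fun t => (Real.neg_pi_div_two_lt_arctan _).le)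
    (fun c => (w c).re - (w c).im / 2) (fun c => (w c).re + (w c).im / 2) C
    (by intro c hc; have := hCpos c hc; linarith) hCd
    (by intro c hc; have := hCpos c hc; linarith) M hM
  have h1 := Real.arctan_lt_pi_div_two ((M - e.re) / e.im)
  have h2 : ∑ c ∈ C, (Real.arctan (((w c).re + (w c).im / 2 - e.re) / e.im) -
          Real.arctan (((w c).re - (w c).im / 2 - e.re) / e.im)) ≤ 3.15 := by
    have := Real.pi_lt_d2
    linarith
  have h3 : 55 / 2 * T * ∑ c ∈ C, (Real.arctan (((w c).re + (w c).im / 2 - e.re) / e.im) -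
          Real.arctan (((w c).re - (w c).im / 2 - e.re) / e.im)) ≤ 55 / 2 * T * 3.15 :=
    mul_le_mul_of_nonneg_left h2 (by positivity)
  rw [hsplit]
  nlinarith

end Pool.Agent.Helper503.Gp
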