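import Pool.Agent.Helper503.Gp.Defs

set_option autoImplicit false

open Metric Set Filter Topology Complex
open scoped ComplexConjugate

namespace Pool.Agent.Helper503.Gp

/-! TARGET -/

theorem char_le_add {f g : ℂ → ℂ} (hf : f ∈ HI) (hg : g ∈ HI) : f + g ∈ HI := by
  obtain ⟨hf1, C, hC⟩ := hf
  obtain ⟨hg1, D, hD⟩ := hg
  refine ⟨hf1.add hg1, C + D, fun z hz => ?_⟩
  exact (norm_add_le _ _).trans (add_le_add (hC z hz) (hD z hz))

theorem char_le_mul {f g : ℂ → ℂ} (hf : f ∈ HI) (hg : g ∈ HI) : f * g ∈ HI := by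
  obtain ⟨hf1, C, hC⟩ := hf
  obtain ⟨hg1, D, hD⟩ := hg
  refine ⟨hf1.mul hg1, C * D, fun z hz => ?_⟩
  change ‖f z * g z‖ ≤ C * D
  rw [norm_mul]
  exact mul_le_mul (hC z hz) (hD z hz) (norm_nonneg _) ((norm_nonneg _).trans (hC z hz))

theorem char_le_smul (c : ℂ) {f : ℂ → ℂ} (hf : f ∈ HI) : c • f ∈ HI := by
  obtain ⟨hf1, C, hC⟩ := hf
  refine ⟨hf1.const_smul c, ‖c‖ * C, fun z hz => ?_⟩
  change ‖c • f z‖ ≤ ‖c‖ * C
  rw [norm_smul]
  exact mul_le_mul_of_nonneg_left (hC z hz) (norm_nonneg _)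

theorem char_le_one : (1 : ℂ → ℂ) ∈ HI := by
  refine ⟨differentiableOn_const (1:ℂ), 1, fun z _ => ?_⟩
  change ‖(1:ℂ)‖ ≤ 1
  rw [norm_one]

theorem char_le {φ : (ℂ → ℂ) → ℂ} (hφ : IsChar φ) {f : ℂ → ℂ} (hf : f ∈ HI) {C : ℝ}
    (hC : ∀ z ∈ Metric.ball (0:ℂ) 1, ‖f z‖ ≤ C) : ‖φ f‖ ≤ C := by
  obtain ⟨h1, h2, h3, -⟩ := hφ
  by_contra hcon
  push Not at hcon
  have hlow : ∀ z ∈ Metric.ball (0:ℂ) 1, ‖φ f‖ - C ≤ ‖φ f - f z‖ := by
    intro z hz
    have := norm_sub_norm_le (φ f) (f z)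
    have := hC z hz
    linarith
  have hne : ∀ z ∈ Metric.ball (0:ℂ) 1, φ f - f z ≠ 0 := by
    intro z hz h0
    have := hlow z hz
    rw [h0, norm_zero] at this
    linarith
  have hg : (fun z => (φ f - f z)⁻¹) ∈ HI := by
    refine ⟨?_, (‖φ f‖ - C)⁻¹, fun z hz => ?_⟩
    · exact ((differentiableOn_const _).sub hf.1).inv hne
    · rw [norm_inv]
      exact inv_anti₀ (by linarith) (hlow z hz)
  have hneg : (-1 : ℂ) • f ∈ HI := char_le_smul _ hf
  have hcon1 : (φ f) • (1 : ℂ → ℂ) ∈ HI := char_le_smul _ char_le_one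
  have hh : (φ f) • (1 : ℂ → ℂ) + (-1 : ℂ) • f ∈ HI := char_le_add hcon1 hneg
  have e1 : φ ((φ f) • (1 : ℂ → ℂ) + (-1 : ℂ) • f) = 0 := by
    rw [(h2 _ hcon1 _ hneg).1, h3 _ _ char_le_one, h3 _ _ hf, h1]
    ring
  have e2 := (h2 _ hh _ hg).2.1
  rw [e1, zero_mul] at e2
  have e3 := (h2 _ (char_le_mul hh hg) _ char_le_one).2.2 (by
    intro z hz
    change ((φ f) * 1 + (-1 : ℂ) * f z) * (φ f - f z)⁻¹ = 1
    have : (φ f) * 1 + (-1 : ℂ) * f z = φ f - f z := by ring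
    rw [this]
    exact mul_inv_cancel₀ (hne z hz))
  rw [e2, h1] at e3
  exact zero_ne_one e3

theorem char_point_id (a : ℂ) : (fun z => z - a) ∈ HI := by
  refine ⟨(differentiable_id.sub_const a).differentiableOn, 1 + ‖a‖, fun z hz => ?_⟩
  have h1 : ‖z‖ < 1 := by simpa using hz
  exact (norm_sub_le _ _).trans (by linarith)

theorem char_point_dslope {f : ℂ → ℂ} (hf : f ∈ HI) {a : ℂ} (ha : a ∈ Metric.ball (0:ℂ) 1) :
    dslope f a ∈ HI := by
  obtain ⟨hf1, C, hC⟩ := hf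
  have hd : DifferentiableOn ℂ (dslope f a) (Metric.ball (0:ℂ) 1) :=
    (Complex.differentiableOn_dslope (isOpen_ball.mem_nhds ha)).2 hf1
  have ha' : ‖a‖ < 1 := by simpa using ha
  obtain ⟨δ, hδ⟩ : ∃ δ, δ = (1 - ‖a‖) / 2 := ⟨_, rfl⟩
  have hδ0 : 0 < δ := by rw [hδ]; linarith
  have hsub : closedBall a δ ⊆ Metric.ball (0:ℂ) 1 := by
    intro z hz
    rw [mem_closedBall, dist_eq_norm] at hz
    rw [mem_ball_zero_iff]
    have : ‖z‖ ≤ ‖z - a‖ + ‖a‖ := by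
      calc ‖z‖ = ‖(z - a) + a‖ := by rw [sub_add_cancel]
        _ ≤ _ := norm_add_le _ _
    linarith
  obtain ⟨D, hD⟩ := (isCompact_closedBall a δ).exists_bound_of_continuousOn
    (hd.continuousOn.mono hsub)
  refine ⟨hd, max D ((C + C) / δ), fun z hz => ?_⟩
  by_cases h : z ∈ closedBall a δ
  · exact (hD z h).trans (le_max_left _ _)
  · refine le_trans ?_ (le_max_right _ _)
    rw [mem_closedBall, dist_eq_norm, not_le] at h
    have hne : z ≠ a := by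
      intro h0
      rw [h0, sub_self, norm_zero] at h
      linarith
    rw [dslope_of_ne f hne, slope_def_field, norm_div]
    have h1 : ‖f z - f a‖ ≤ C + C := (norm_sub_le _ _).trans (add_le_add (hC z hz) (hC a ha))
    have h2 : 0 ≤ C + C := (norm_nonneg _).trans h1
    exact div_le_div₀ h2 h1 hδ0 h.le

theorem char_point {φ : (ℂ → ℂ) → ℂ} (hφ : IsChar φ) {a : ℂ} (ha : a ∈ Metric.ball (0:ℂ) 1)
    (h : ¬ ∃ c : ℝ, c < 2 ∧ ∀ f ∈ HI,
          (∀ w ∈ Metric.ball (0:ℂ) 1, ‖f w‖ ≤ 1) → ‖φ f - f a‖ ≤ c) :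
    φ (fun z => z - a) ≠ 0 := by
  intro h0
  obtain ⟨h1, h2, h3, -⟩ := hφ
  apply h
  refine ⟨0, by norm_num, fun f hf _ => ?_⟩
  have hcon1 : (f a) • (1 : ℂ → ℂ) ∈ HI := char_le_smul _ char_le_one
  have hds := char_point_dslope hf ha
  have hid := char_point_id a
  have hfe : f = (f a) • (1 : ℂ → ℂ) + (fun z => z - a) * dslope f a := by
    funext z
    change f z = f a * 1 + (z - a) * dslope f a z
    have := sub_smul_dslope f a z
    rw [smul_eq_mul] at this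
    rw [this]
    ring
  have e1 : φ f = f a := by
    have e2 : φ ((f a) • (1 : ℂ → ℂ) + (fun z => z - a) * dslope f a) = f a := by
      rw [(h2 _ hcon1 _ (char_le_mul hid hds)).1, h3 _ _ char_le_one, h1,
        (h2 _ hid _ hds).2.1, h0]
      ring
    rw [← hfe] at e2
    exact e2
  rw [e1, sub_self, norm_zero]

end Pool.Agent.Helper503.Gp
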