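import Pool.Agent.Helper503.Gp.Defs
import Pool.Agent.Helper503.Gp.Char1

set_option autoImplicit false

open Metric Set Filter Topology Complex
open scoped ComplexConjugate

namespace Pool.Agent.Helper503.Gp






theorem x28452_one : (1 : ℂ → ℂ) ∈ HI := by
  refine ⟨differentiableOn_const (1 : ℂ), 1, fun z _ => by simp⟩

theorem x28452_smul (c : ℂ) {f : ℂ → ℂ} (hf : f ∈ HI) : c • f ∈ HI := by
  obtain ⟨hd, C, hC⟩ := hf
  refine ⟨hd.const_smul c, ‖c‖ * C, fun z hz => ?_⟩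
  simp only [Pi.smul_apply, smul_eq_mul, norm_mul]
  exact mul_le_mul_of_nonneg_left (hC z hz) (norm_nonneg c)

theorem x28452_add {f g : ℂ → ℂ} (hf : f ∈ HI) (hg : g ∈ HI) : f + g ∈ HI := by
  obtain ⟨hd, C, hC⟩ := hf
  obtain ⟨hd', C', hC'⟩ := hg
  refine ⟨hd.add hd', C + C', fun z hz => ?_⟩
  exact (norm_add_le _ _).trans (add_le_add (hC z hz) (hC' z hz))

theorem x28452_mul {f g : ℂ → ℂ} (hf : f ∈ HI) (hg : g ∈ HI) : f * g ∈ HI := by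
  obtain ⟨hd, C, hC⟩ := hf
  obtain ⟨hd', C', hC'⟩ := hg
  refine ⟨hd.mul hd', C * C', fun z hz => ?_⟩
  simp only [Pi.mul_apply, norm_mul]
  exact mul_le_mul (hC z hz) (hC' z hz) (norm_nonneg _) ((norm_nonneg _).trans (hC z hz))

theorem x28452_id (w b : ℂ) :
    ‖1 - conj b * w‖ ^ 2 = ‖w - b‖ ^ 2 + (1 - ‖b‖ ^ 2) * (1 - ‖w‖ ^ 2) := by
  rw [← Complex.normSq_eq_norm_sq, ← Complex.normSq_eq_norm_sq, ← Complex.normSq_eq_norm_sq,
    ← Complex.normSq_eq_norm_sq]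
  simp only [Complex.normSq_apply, Complex.sub_re, Complex.sub_im, Complex.one_re, Complex.one_im,
    Complex.mul_re, Complex.mul_im, Complex.conj_re, Complex.conj_im]
  ring

theorem x28452_ne {w b : ℂ} (hb : ‖b‖ < 1) (hw : ‖w‖ ≤ 1) : 1 - conj b * w ≠ 0 := by
  intro h
  have h1 : ‖conj b * w‖ < 1 := by
    rw [norm_mul, RCLike.norm_conj]
    calc ‖b‖ * ‖w‖ ≤ ‖b‖ * 1 := mul_le_mul_of_nonneg_left hw (norm_nonneg b)
      _ < 1 := by rw [mul_one]; exact hb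
  have h2 : conj b * w = 1 := by
    have := sub_eq_zero.mp h
    exact this.symm
  rw [h2] at h1
  simp at h1

theorem x28452_mob {b : ℂ} (hb : ‖b‖ < 1) {f : ℂ → ℂ} (hf : f ∈ HI)
    (hf1 : ∀ z ∈ Metric.ball (0:ℂ) 1, ‖f z‖ ≤ 1) :
    ∃ m ∈ HI, (∀ z ∈ Metric.ball (0:ℂ) 1, ‖m z‖ ≤ 1) ∧
      ∀ φ : (ℂ → ℂ) → ℂ, IsChar φ → φ m * (1 - conj b * φ f) = φ f - b := by
  have hm1 : ∀ z ∈ Metric.ball (0:ℂ) 1, ‖(f z - b) / (1 - conj b * f z)‖ ≤ 1 := by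
    intro z hz
    rw [norm_div]
    have hne := x28452_ne hb (hf1 z hz)
    have hpos : 0 < ‖1 - conj b * f z‖ := norm_pos_iff.mpr hne
    rw [div_le_one hpos]
    apply le_of_sq_le_sq _ (norm_nonneg _)
    rw [x28452_id]
    have h1 : 0 ≤ 1 - ‖b‖ ^ 2 := by nlinarith [norm_nonneg b]
    have h2 : 0 ≤ 1 - ‖f z‖ ^ 2 := by nlinarith [norm_nonneg (f z), hf1 z hz]
    have := mul_nonneg h1 h2
    linarith
  have hm : (fun z => (f z - b) / (1 - conj b * f z)) ∈ HI := by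
    refine ⟨?_, 1, hm1⟩
    apply DifferentiableOn.div
    · exact hf.1.sub_const b
    · exact (hf.1.const_mul (conj b)).const_sub 1
    · intro z hz
      exact x28452_ne hb (hf1 z hz)
  refine ⟨_, hm, hm1, ?_⟩
  intro φ hφ
  obtain ⟨h1, h2, h3, h4⟩ := hφ
  have hA : (1 : ℂ → ℂ) + (-conj b) • f ∈ HI := x28452_add x28452_one (x28452_smul _ hf)
  have hB : f + (-b) • (1 : ℂ → ℂ) ∈ HI := x28452_add hf (x28452_smul _ x28452_one)
  have e1 : φ ((fun z => (f z - b) / (1 - conj b * f z)) * ((1 : ℂ → ℂ) + (-conj b) • f)) =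
      φ (f + (-b) • (1 : ℂ → ℂ)) := by
    apply (h2 _ (x28452_mul hm hA) _ hB).2.2
    intro z hz
    have hne := x28452_ne hb (hf1 z hz)
    simp only [Pi.mul_apply, Pi.add_apply, Pi.smul_apply, Pi.one_apply, smul_eq_mul]
    rw [show (1 : ℂ) + -conj b * f z = 1 - conj b * f z by ring, div_mul_cancel₀ _ hne]
    ring
  rw [(h2 _ hm _ hA).2.1, (h2 _ x28452_one _ (x28452_smul _ hf)).1,
    (h2 _ hf _ (x28452_smul _ x28452_one)).1, h3 _ _ hf, h3 _ _ x28452_one, h1] at e1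
  rw [← sub_eq_zero] at e1 ⊢
  rw [← e1]
  ring



theorem gl_rho {φ ψ : (ℂ → ℂ) → ℂ} (hφ : IsChar φ) (hψ : IsChar ψ) (h : Gl φ ψ) :
    ∃ r : ℝ, 0 ≤ r ∧ r < 1 ∧ ∀ g ∈ HI, (∀ z ∈ Metric.ball (0:ℂ) 1, ‖g z‖ ≤ 1) →
      φ g = 0 → ‖ψ g‖ ≤ r := by
  obtain ⟨c, hc2, hc⟩ := h
  obtain ⟨a, ha0, ha1, hca⟩ : ∃ a : ℝ, 0 ≤ a ∧ a < 1 ∧ c ≤ 2 * a := by
    refine ⟨max (c / 2) 0, le_max_right _ _, max_lt (by linarith) one_pos, ?_⟩
    have := le_max_left (c / 2) 0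
    linarith
  have hr1 : 2 * a / (1 + a ^ 2) < 1 := by
    rw [div_lt_one (by positivity)]
    nlinarith [sq_nonneg (1 - a), mul_pos (sub_pos.mpr ha1) (sub_pos.mpr ha1)]
  refine ⟨2 * a / (1 + a ^ 2), by positivity, hr1, ?_⟩
  intro g hg hg1 hφg
  by_cases ht : ψ g = 0
  · rw [ht, norm_zero]; positivity
  have htp : 0 < ‖ψ g‖ := norm_pos_iff.mpr ht
  set t : ℝ := ‖ψ g‖ with htdef
  have ht1 : t ≤ 1 := char_le hψ hg hg1
  set u : ℂ := conj (ψ g) / (t : ℂ) with hu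
  have hun : ‖u‖ = 1 := by
    rw [hu, norm_div, RCLike.norm_conj, Complex.norm_real, Real.norm_eq_abs, abs_of_pos htp]
    exact div_self htp.ne'
  have hug : u * ψ g = (t : ℂ) := by
    rw [hu, div_mul_eq_mul_div, mul_comm (conj (ψ g)), Complex.mul_conj,
      Complex.normSq_eq_norm_sq, ← htdef]
    have : (t : ℂ) ≠ 0 := by exact_mod_cast htp.ne'
    push_cast
    field_simp
  have hg' : u • g ∈ HI := x28452_smul u hg
  have hg1' : ∀ z ∈ Metric.ball (0:ℂ) 1, ‖(u • g) z‖ ≤ 1 := by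
    intro z hz
    simp only [Pi.smul_apply, smul_eq_mul, norm_mul, hun, one_mul]
    exact hg1 z hz
  have hab : ‖(a : ℂ)‖ < 1 := by
    rw [Complex.norm_real, Real.norm_eq_abs, abs_of_nonneg ha0]; exact ha1
  obtain ⟨m, hm, hm1, hmφ⟩ := x28452_mob hab hg' hg1'
  have e1 := hmφ φ hφ
  have e2 := hmφ ψ hψ
  rw [hφ.2.2.1 u g hg, hφg] at e1
  rw [hψ.2.2.1 u g hg, hug, Complex.conj_ofReal] at e2
  have e1' : φ m = -(a : ℂ) := by simpa using e1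
  have hat : 0 < 1 - a * t := by nlinarith
  have hatc : (1 : ℂ) - (a : ℂ) * (t : ℂ) ≠ 0 := by
    have : ((1 - a * t : ℝ) : ℂ) ≠ 0 := by exact_mod_cast hat.ne'
    simpa using this
  have e2' : ψ m = (((t - a) / (1 - a * t) : ℝ) : ℂ) := by
    push_cast
    rw [eq_div_iff hatc]
    exact e2
  have h3 := hc m hm hm1
  rw [e1', e2'] at h3
  have h4 : (t - a) / (1 - a * t) + a ≤ 2 * a := by
    refine le_trans ?_ (h3.trans hca)
    have : -(a : ℂ) - (((t - a) / (1 - a * t) : ℝ) : ℂ) =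
        ((-((t - a) / (1 - a * t) + a) : ℝ) : ℂ) := by
      push_cast; ring
    rw [this, Complex.norm_real, Real.norm_eq_abs, abs_neg]
    exact le_abs_self _
  have h5 : (t - a) / (1 - a * t) ≤ a := by linarith
  rw [div_le_iff₀ hat] at h5
  rw [le_div_iff₀ (by positivity)]
  nlinarith

theorem char_sp {φ ψ : (ℂ → ℂ) → ℂ} (hφ : IsChar φ) (hψ : IsChar ψ) {r : ℝ} (h0 : 0 ≤ r)
    (h1 : r < 1) (hr : ∀ g ∈ HI, (∀ z ∈ Metric.ball (0:ℂ) 1, ‖g z‖ ≤ 1) → φ g = 0 → ‖ψ g‖ ≤ r)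
    {f : ℂ → ℂ} (hf : f ∈ HI) (hf1 : ∀ z ∈ Metric.ball (0:ℂ) 1, ‖f z‖ ≤ 1) :
    ‖ψ f‖ - r ≤ ‖φ f‖ * (1 - r * ‖ψ f‖) := by
  have hP1 : ‖φ f‖ ≤ 1 := char_le hφ hf hf1
  have hQ1 : ‖ψ f‖ ≤ 1 := char_le hψ hf hf1
  have hP0 := norm_nonneg (φ f)
  have hQ0 := norm_nonneg (ψ f)
  rcases hP1.eq_or_lt with hP | hP
  · rw [hP]; nlinarith
  · obtain ⟨m, hm, hm1, hmφ⟩ := x28452_mob hP hf hf1
    have e1 := hmφ φ hφ
    have e2 := hmφ ψ hψ
    have hne := x28452_ne hP (le_of_lt hP)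
    have hm0 : φ m = 0 := by
      rw [sub_self] at e1
      exact (mul_eq_zero.mp e1).resolve_right hne
    have h3 := hr m hm hm1 hm0
    have h4 : ‖ψ f - φ f‖ ≤ r * ‖1 - conj (φ f) * ψ f‖ := by
      rw [← e2, norm_mul]
      exact mul_le_mul_of_nonneg_right h3 (norm_nonneg _)
    have h5 := x28452_id (ψ f) (φ f)
    have h6 : ‖ψ f - φ f‖ ^ 2 ≤ r ^ 2 * ‖1 - conj (φ f) * ψ f‖ ^ 2 := by
      rw [← mul_pow]
      exact pow_le_pow_left₀ (norm_nonneg _) h4 2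
    have h7 : (‖ψ f‖ - ‖φ f‖) ^ 2 ≤ ‖ψ f - φ f‖ ^ 2 := by
      rw [sq_le_sq, abs_of_nonneg (norm_nonneg (ψ f - φ f))]
      exact abs_norm_sub_norm_le _ _
    have h8 : (‖ψ f‖ - ‖φ f‖) ^ 2 ≤ (r * (1 - ‖φ f‖ * ‖ψ f‖)) ^ 2 := by
      rw [h5] at h6
      have h9 : 0 ≤ 1 - r ^ 2 := by nlinarith
      nlinarith [mul_le_mul_of_nonneg_right h7 h9]
    have h10 : 0 ≤ r * (1 - ‖φ f‖ * ‖ψ f‖) := by
      apply mul_nonneg h0
      nlinarith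
    have h11 := abs_le_of_sq_le_sq h8 h10
    have h12 := (abs_le.mp h11).2
    nlinarith

end Pool.Agent.Helper503.Gp
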