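import Pool.Agent.Helper503.Gp.Defs
import Pool.Agent.Helper503.Gp.Char1
import Pool.Agent.Helper503.Gp.Cay
import Pool.Agent.Helper503.Gp.Lib
import Pool.Agent.Helper503.Gp.BF1

set_option autoImplicit false

open Metric Set Filter Topology Complex
open scoped ComplexConjugate

namespace Pool.Agent.Helper503.Gp



lemma blaOn_fin {ι : Type} {w : ι → ℂ} {F : Set ι} (hF : F.Finite) (hw : ∀ i ∈ F, 0 < (w i).im) :
    BlaOn w F := by
  haveI := hF.fintype
  exact ⟨hw, (hasSum_fintype _).summable⟩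

lemma bf_single {ι : Type} (w : ι → ℂ) (i : ι) : BF w {i} = bfac (cay (w i)) := by
  funext z
  unfold BF
  rw [tprod_fintype, Fintype.prod_unique]
  rfl

lemma hi_sub (a : ℂ) : (fun z : ℂ => z - a) ∈ HI := by
  refine ⟨by fun_prop, 1 + ‖a‖, fun z hz => ?_⟩
  rw [mem_ball_zero_iff] at hz
  exact (norm_sub_le _ _).trans (by linarith)

lemma hi_one_sub (a : ℂ) : (fun z : ℂ => 1 - a * z) ∈ HI := by
  refine ⟨by fun_prop, 1 + ‖a‖, fun z hz => ?_⟩
  rw [mem_ball_zero_iff] at hz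
  refine (norm_sub_le _ _).trans ?_
  rw [norm_one, norm_mul]
  have := mul_le_of_le_one_right (norm_nonneg a) hz.le
  linarith

lemma bfac_ne {φ : (ℂ → ℂ) → ℂ} (hφ : IsChar φ)
    (hne : ∀ a ∈ Metric.ball (0:ℂ) 1, φ (fun z => z - a) ≠ 0) {a : ℂ} (ha : a ∈ Metric.ball (0:ℂ) 1)
    (hb : bfac a ∈ HI) : φ (bfac a) ≠ 0 := by
  obtain ⟨-, h2, h3, -⟩ := hφ
  by_cases h0 : a = 0
  · have e : bfac a = fun z => z - 0 := by
      funext z
      unfold bfac
      rw [if_pos h0, sub_zero]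
    rw [e]
    exact hne 0 (by simp)
  · intro hcon
    have ha' : ‖a‖ < 1 := by simpa using ha
    have e1 := (h2 _ (hi_one_sub (conj a)) _ hb).2.1
    have hm1 : ((fun z : ℂ => 1 - conj a * z) * bfac a) ∈ HI := by
      obtain ⟨d1, C1, hC1⟩ := hi_one_sub (conj a)
      obtain ⟨d2, C2, hC2⟩ := hb
      refine ⟨d1.mul d2, C1 * C2, fun z hz => ?_⟩
      rw [Pi.mul_apply, norm_mul]
      exact mul_le_mul (hC1 z hz) (hC2 z hz) (norm_nonneg _) ((norm_nonneg _).trans (hC1 z hz))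
    have hm2 : ((-(((‖a‖ : ℝ) : ℂ) / a)) • (fun z : ℂ => z - a)) ∈ HI := by
      obtain ⟨d1, C1, hC1⟩ := hi_sub a
      refine ⟨d1.const_smul _, ‖(-(((‖a‖ : ℝ) : ℂ) / a))‖ * C1, fun z hz => ?_⟩
      rw [Pi.smul_apply, norm_smul]
      exact mul_le_mul_of_nonneg_left (hC1 z hz) (norm_nonneg _)
    have e2 : φ ((fun z : ℂ => 1 - conj a * z) * bfac a) =
        φ ((-(((‖a‖ : ℝ) : ℂ) / a)) • (fun z : ℂ => z - a)) := by
      refine (h2 _ hm1 _ hm2).2.2 ?_
      intro z hz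
      have hz' : ‖z‖ < 1 := by simpa using hz
      have hden : 1 - conj a * z ≠ 0 := by
        intro h
        have h4 : conj a * z = 1 := by linear_combination -h
        have h5 : ‖conj a * z‖ < 1 := by
          rw [norm_mul, RCLike.norm_conj]
          calc ‖a‖ * ‖z‖ ≤ 1 * ‖z‖ := mul_le_mul_of_nonneg_right ha'.le (norm_nonneg _)
            _ < 1 := by rw [one_mul]; exact hz'
        rw [h4, norm_one] at h5
        exact lt_irrefl _ h5
      simp only [Pi.mul_apply, Pi.smul_apply, smul_eq_mul]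
      unfold bfac
      rw [if_neg h0]
      field_simp
      ring
    rw [e1, hcon, mul_zero, h3 _ _ (hi_sub a)] at e2
    have h6 : (((‖a‖ : ℝ) : ℂ)) ≠ 0 := by
      rw [ne_eq, Complex.ofReal_eq_zero]
      exact norm_ne_zero_iff.2 h0
    rcases mul_eq_zero.1 e2.symm with h7 | h7
    · exact (div_ne_zero h6 h0) (neg_eq_zero.1 h7)
    · exact hne a ha h7

theorem BF_finite_ne {φ : (ℂ → ℂ) → ℂ} (hφ : IsChar φ)
    (hne : ∀ a ∈ Metric.ball (0:ℂ) 1, φ (fun z => z - a) ≠ 0) {ι : Type} {w : ι → ℂ} {F : Set ι}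
    (hF : F.Finite) (hw : ∀ i ∈ F, 0 < (w i).im) : φ (BF w F) ≠ 0 := by
  induction F, hF using Set.Finite.induction_on with
  | empty =>
    have e : BF w ∅ = 1 := by
      funext z
      unfold BF
      rw [tprod_empty]
      rfl
    rw [e, hφ.1]
    exact one_ne_zero
  | @insert i F hi hF ih =>
    have hwF : ∀ j ∈ F, 0 < (w j).im := fun j hj => hw j (Set.mem_insert_of_mem _ hj)
    have hwi : ∀ j ∈ ({i} : Set ι), 0 < (w j).im := by
      intro j hj
      rw [Set.mem_singleton_iff] at hj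
      rw [hj]
      exact hw i (Set.mem_insert _ _)
    have b1 := blaOn_fin (Set.finite_singleton i) hwi
    have b2 := blaOn_fin hF hwF
    have b3 := blaOn_fin (hF.insert i) hw
    have hm1 := BF_mem b1
    have hm2 := BF_mem b2
    have hm3 := BF_mem b3
    have hm4 : BF w {i} * BF w F ∈ HI := by
      obtain ⟨d1, C1, hC1⟩ := hm1
      obtain ⟨d2, C2, hC2⟩ := hm2
      refine ⟨d1.mul d2, C1 * C2, fun z hz => ?_⟩
      rw [Pi.mul_apply, norm_mul]
      exact mul_le_mul (hC1 z hz) (hC2 z hz) (norm_nonneg _) ((norm_nonneg _).trans (hC1 z hz))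
    have e1 : φ (BF w (insert i F)) = φ (BF w {i} * BF w F) := by
      refine (hφ.2.1 _ hm3 _ hm4).2.2 ?_
      intro z hz
      rw [Set.insert_eq, BF_union b1 b2 (Set.disjoint_singleton_left.2 hi) hz]
      rfl
    rw [e1, (hφ.2.1 _ hm1 _ hm2).2.1]
    refine mul_ne_zero ?_ (ih hwF)
    rw [bf_single] at hm1 ⊢
    exact bfac_ne hφ hne (cay_mem (hwi i rfl)) hm1

end Pool.Agent.Helper503.Gp
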