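import Pool.Agent.Helper503.Gp.Defs

set_option autoImplicit false

open Metric Set Filter Topology Complex
open scoped ComplexConjugate

namespace Pool.Agent.Helper503.Gp

theorem inj_bound_aux {α : Type} [DecidableEq α] (S T : Finset α) (Q : α → ℝ) (M : ℝ) (hM : 0 ≤ M)
    (hQ : ∀ r, 0 ≤ Q r) (hQM : ∀ r ∈ S, Q r ≤ M) (g : α → α) (hg : Function.Injective g)
    (h : ∀ r ∈ S, g r ∈ T → Q r ≤ Q (g r))
    (h1 : ∀ r1 ∈ S, ∀ r2 ∈ S, g r1 ∉ T → g r2 ∉ T → r1 = r2) :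
    ∑ r ∈ S, Q r ≤ ∑ r ∈ T, Q r + M := by
  rw [← Finset.sum_filter_add_sum_filter_not S (fun r => g r ∈ T)]
  have e1 : ∑ r ∈ S.filter (fun r => g r ∈ T), Q r ≤ ∑ r ∈ T, Q r := by
    calc ∑ r ∈ S.filter (fun r => g r ∈ T), Q r
        ≤ ∑ r ∈ S.filter (fun r => g r ∈ T), Q (g r) :=
          Finset.sum_le_sum (fun r hr => h r (Finset.mem_filter.1 hr).1 (Finset.mem_filter.1 hr).2)
      _ = ∑ r ∈ (S.filter (fun r => g r ∈ T)).image g, Q r :=
          (Finset.sum_image (fun a _ b _ hab => hg hab)).symm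
      _ ≤ ∑ r ∈ T, Q r := Finset.sum_le_sum_of_subset_of_nonneg
          (by
            intro a ha
            obtain ⟨r, hr, rfl⟩ := Finset.mem_image.1 ha
            exact (Finset.mem_filter.1 hr).2) (fun r _ _ => hQ r)
  have e2 : ∑ r ∈ S.filter (fun r => ¬ g r ∈ T), Q r ≤ M := by
    calc ∑ r ∈ S.filter (fun r => ¬ g r ∈ T), Q r
        ≤ ((S.filter (fun r => ¬ g r ∈ T)).card : ℕ) • M :=
          Finset.sum_le_card_nsmul _ _ _ (fun r hr => hQM r (Finset.mem_filter.1 hr).1)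
      _ ≤ 1 • M := by
          apply nsmul_le_nsmul_left hM
          rw [Finset.card_le_one]
          intro a ha b hb
          exact h1 a (Finset.mem_filter.1 ha).1 b (Finset.mem_filter.1 hb).1
            (Finset.mem_filter.1 ha).2 (Finset.mem_filter.1 hb).2
      _ = M := one_nsmul M
  linarith

theorem gap_aux (K : ℤ) (hK : 0 < K) (c r s : ℤ) (hr : r % K = c) (hs : s % K = c) (h : r < s) :
    r + K ≤ s := by
  have h1 : K ∣ s - r := by
    apply Int.dvd_of_emod_eq_zero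
    rw [Int.sub_emod, hr, hs]; simp
  have := Int.le_of_dvd (by linarith) h1
  linarith

theorem colZ_aux (N : ℕ) (K : ℤ) (hK : 0 < K) (X : ℤ → ℝ)
    (hX : ∀ r s : ℤ, 0 ≤ r → r ≤ s → s < N → X r ≤ X s) (q : ℝ → ℝ) (x0 M : ℝ) (hM : 0 ≤ M)
    (hq : ∀ t, 0 ≤ q t) (h1 : MonotoneOn q (Set.Iic x0)) (h2 : AntitoneOn q (Set.Ici x0))
    (hqM : ∀ r : ℤ, 0 ≤ r → r < N → q (X r) ≤ M) (c c' : ℤ) (hc : 0 ≤ c ∧ c < K)
    (hc' : 0 ≤ c' ∧ c' < K) :
    ∑ r ∈ (Finset.Ico (0:ℤ) N).filter (fun r => r % K = c), q (X r) ≤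
      ∑ r ∈ (Finset.Ico (0:ℤ) N).filter (fun r => r % K = c'), q (X r) + 2 * M := by
  by_cases hcc : c = c'
  · subst hcc; linarith
  obtain ⟨d, hd0, hdK, hd⟩ : ∃ d : ℤ, 0 < d ∧ d < K ∧ ∀ r : ℤ, r % K = c → (r + d) % K = c' := by
    have key : ∀ r : ℤ, r % K = c → (r + (c' - c)) % K = c' := by
      intro r hr
      have : r + (c' - c) = c' + K * (r / K) := by
        have := Int.emod_add_mul_ediv r K
        rw [hr] at this
        linarith
      rw [this, Int.add_mul_emod_self_left]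
      exact Int.emod_eq_of_lt hc'.1 hc'.2
    rcases lt_or_gt_of_ne hcc with h | h
    · exact ⟨c' - c, by linarith, by linarith, key⟩
    · refine ⟨c' - c + K, by linarith, by linarith, ?_⟩
      intro r hr
      rw [← add_assoc, Int.add_emod_right]
      exact key r hr
  have hd' : ∀ r : ℤ, r % K = c → (r + (d - K)) % K = c' := by
    intro r hr
    have := hd r hr
    have e : r + (d - K) = (r + d) + K * (-1) := by ring
    rw [e, Int.add_mul_emod_self_left]; exact this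
  have eL := inj_bound_aux
    (((Finset.Ico (0:ℤ) N).filter (fun r => r % K = c)).filter (fun r => X r ≤ x0))
    (((Finset.Ico (0:ℤ) N).filter (fun r => r % K = c')).filter (fun r => X r ≤ x0))
    (fun r => q (X r)) M hM (fun r => hq _)
    (by
      intro r hr
      simp only [Finset.mem_filter, Finset.mem_Ico] at hr
      exact hqM r hr.1.1.1 hr.1.1.2)
    (fun r => r + d) (fun a b hab => by simpa using hab)
    (by
      intro r hr hr'
      simp only [Finset.mem_filter, Finset.mem_Ico] at hr hr'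
      exact h1 hr.2 hr'.2 (hX _ _ hr.1.1.1 (by linarith) hr'.1.1.2))
    (by
      have key : ∀ r1 r2 : ℤ, (0 ≤ r1 ∧ r1 % K = c) → ((r2 < N ∧ r2 % K = c) ∧ X r2 ≤ x0) →
          r1 < r2 → (((0 ≤ r1 + d ∧ r1 + d < N) ∧ (r1 + d) % K = c') ∧ X (r1 + d) ≤ x0) := by
        intro r1 r2 a1 a2 h
        have := gap_aux K hK c r1 r2 a1.2 a2.1.2 h
        refine ⟨⟨⟨by linarith, by linarith⟩, hd r1 a1.2⟩, ?_⟩
        exact le_trans (hX _ _ (by linarith) (by linarith) a2.1.1) a2.2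
      intro r1 hr1 r2 hr2 hn1 hn2
      simp only [Finset.mem_filter, Finset.mem_Ico] at hr1 hr2 hn1 hn2
      rcases lt_trichotomy r1 r2 with h | h | h
      · exact absurd (key r1 r2 ⟨hr1.1.1.1, hr1.1.2⟩ ⟨⟨hr2.1.1.2, hr2.1.2⟩, hr2.2⟩ h) hn1
      · exact h
      · exact absurd (key r2 r1 ⟨hr2.1.1.1, hr2.1.2⟩ ⟨⟨hr1.1.1.2, hr1.1.2⟩, hr1.2⟩ h) hn2)
  have eR := inj_bound_aux
    (((Finset.Ico (0:ℤ) N).filter (fun r => r % K = c)).filter (fun r => ¬ X r ≤ x0))
    (((Finset.Ico (0:ℤ) N).filter (fun r => r % K = c')).filter (fun r => ¬ X r ≤ x0))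
    (fun r => q (X r)) M hM (fun r => hq _)
    (by
      intro r hr
      simp only [Finset.mem_filter, Finset.mem_Ico] at hr
      exact hqM r hr.1.1.1 hr.1.1.2)
    (fun r => r + (d - K)) (fun a b hab => by simpa using hab)
    (by
      intro r hr hr'
      simp only [Finset.mem_filter, Finset.mem_Ico] at hr hr'
      exact h2 (le_of_lt (not_le.1 hr'.2)) (le_of_lt (not_le.1 hr.2))
        (hX _ _ hr'.1.1.1 (by linarith) hr.1.1.2))
    (by
      have key : ∀ r1 r2 : ℤ, (r1 < N ∧ r1 % K = c) → ((0 ≤ r2 ∧ r2 % K = c) ∧ ¬ X r2 ≤ x0) →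
          r2 < r1 → (((0 ≤ r1 + (d - K) ∧ r1 + (d - K) < N) ∧ (r1 + (d - K)) % K = c') ∧
            ¬ X (r1 + (d - K)) ≤ x0) := by
        intro r1 r2 a1 a2 h
        have := gap_aux K hK c r2 r1 a2.1.2 a1.2 h
        refine ⟨⟨⟨by linarith, by linarith⟩, hd' r1 a1.2⟩, ?_⟩
        intro hh
        exact a2.2 (le_trans (hX _ _ a2.1.1 (by linarith) (by linarith)) hh)
      intro r1 hr1 r2 hr2 hn1 hn2
      simp only [Finset.mem_filter, Finset.mem_Ico] at hr1 hr2 hn1 hn2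
      rcases lt_trichotomy r1 r2 with h | h | h
      · exact absurd (key r2 r1 ⟨hr2.1.1.2, hr2.1.2⟩ ⟨⟨hr1.1.1.1, hr1.1.2⟩, hr1.2⟩ h) hn2
      · exact h
      · exact absurd (key r1 r2 ⟨hr1.1.1.2, hr1.1.2⟩ ⟨⟨hr2.1.1.1, hr2.1.2⟩, hr2.2⟩ h) hn1)
  have s1 := Finset.sum_filter_add_sum_filter_not
    ((Finset.Ico (0:ℤ) N).filter (fun r => r % K = c)) (fun r => X r ≤ x0) (fun r => q (X r))
  have s2 := Finset.sum_filter_add_sum_filter_not
    ((Finset.Ico (0:ℤ) N).filter (fun r => r % K = c')) (fun r => X r ≤ x0) (fun r => q (X r))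
  linarith


theorem colouring {ι : Type} (G : Finset ι) (x : ι → ℝ) (K : ℕ) (hK : 0 < K) :
    ∃ κ : ι → Fin K, ∀ (q : ℝ → ℝ) (x0 M : ℝ), 0 ≤ M → (∀ t, 0 ≤ q t) →
      MonotoneOn q (Set.Iic x0) → AntitoneOn q (Set.Ici x0) → (∀ j ∈ G, q (x j) ≤ M) →
      ∀ c c' : Fin K, ∑ j ∈ G.filter (fun j => κ j = c), q (x j) ≤
        ∑ j ∈ G.filter (fun j => κ j = c'), q (x j) + 2 * M := by
  classical
  set N := G.card with hN
  let e : G ≃ Fin N := G.equivFin
  let f : Fin N → ℝ := fun i => x (e.symm i).1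
  let σ := Tuple.sort f
  have hσ : Monotone (f ∘ σ) := Tuple.monotone_sort f
  let rk : G ≃ Fin N := e.trans σ.symm
  have hmono : ∀ a b : Fin N, a ≤ b → x (rk.symm a).1 ≤ x (rk.symm b).1 := by
    intro a b hab
    exact hσ hab
  let X : ℤ → ℝ := fun r => if h : 0 ≤ r ∧ r < N then x (rk.symm ⟨r.toNat, by omega⟩).1 else 0
  have hXr : ∀ j : G, X ((rk j : ℕ) : ℤ) = x j.1 := by
    intro j
    have h : (0:ℤ) ≤ ((rk j : ℕ) : ℤ) ∧ ((rk j : ℕ) : ℤ) < N := ⟨by positivity, by exact_mod_cast (rk j).2⟩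
    simp only [X]
    rw [dif_pos h]
    have : (⟨(((rk j : ℕ) : ℤ)).toNat, by omega⟩ : Fin N) = rk j := by
      apply Fin.ext; simp
    rw [this]; simp
  have hXm : ∀ r s : ℤ, 0 ≤ r → r ≤ s → s < N → X r ≤ X s := by
    intro r s h0 hrs hs
    simp only [X]
    rw [dif_pos (show 0 ≤ r ∧ r < (N:ℤ) from ⟨h0, by linarith⟩),
      dif_pos (show 0 ≤ s ∧ s < (N:ℤ) from ⟨by linarith, hs⟩)]
    apply hmono
    show r.toNat ≤ s.toNat
    omega
  let κ : ι → Fin K := fun j => if h : j ∈ G then ⟨(rk ⟨j, h⟩ : ℕ) % K, Nat.mod_lt _ hK⟩ else ⟨0, hK⟩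
  refine ⟨κ, ?_⟩
  intro q x0 M hM hq h1 h2 hqM c c'
  have tr : ∀ c : Fin K, ∑ j ∈ G.filter (fun j => κ j = c), q (x j) =
      ∑ r ∈ (Finset.Ico (0:ℤ) N).filter (fun r => r % (K:ℤ) = ((c : ℕ) : ℤ)), q (X r) := by
    intro c
    refine Finset.sum_bij (fun j hj => (((rk ⟨j, (Finset.mem_filter.1 hj).1⟩ : Fin N) : ℕ) : ℤ)) ?_ ?_ ?_ ?_
    · intro j hj
      have hjG := (Finset.mem_filter.1 hj).1
      have hjc := (Finset.mem_filter.1 hj).2
      simp only [κ] at hjc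
      rw [dif_pos hjG] at hjc
      rw [Finset.mem_filter, Finset.mem_Ico]
      refine ⟨⟨by positivity, by exact_mod_cast (rk ⟨j, hjG⟩).2⟩, ?_⟩
      have := congrArg Fin.val hjc
      simp only at this
      exact_mod_cast this
    · intro j hj j' hj' h
      have : rk ⟨j, (Finset.mem_filter.1 hj).1⟩ = rk ⟨j', (Finset.mem_filter.1 hj').1⟩ := by
        apply Fin.ext
        exact_mod_cast h
      have := rk.injective this
      simpa using this
    · intro r hr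
      rw [Finset.mem_filter, Finset.mem_Ico] at hr
      have hlt : r.toNat < N := by omega
      refine ⟨(rk.symm ⟨r.toNat, hlt⟩).1, ?_, ?_⟩
      · rw [Finset.mem_filter]
        refine ⟨(rk.symm ⟨r.toNat, hlt⟩).2, ?_⟩
        simp only [κ]
        rw [dif_pos (rk.symm ⟨r.toNat, hlt⟩).2]
        apply Fin.ext
        simp only [Subtype.coe_eta, Equiv.apply_symm_apply]
        have h3 : (r.toNat : ℤ) = r := by omega
        have := hr.2
        rw [← h3] at this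
        exact_mod_cast this
      · simp only [Subtype.coe_eta, Equiv.apply_symm_apply]
        omega
    · intro j hj
      rw [hXr ⟨j, (Finset.mem_filter.1 hj).1⟩]
  rw [tr c, tr c']
  refine colZ_aux N K (by exact_mod_cast hK) X hXm q x0 M hM hq h1 h2 ?_ _ _
    ⟨by positivity, by exact_mod_cast c.2⟩ ⟨by positivity, by exact_mod_cast c'.2⟩
  intro r h0 hr
  simp only [X]
  rw [dif_pos (show 0 ≤ r ∧ r < (N:ℤ) from ⟨h0, hr⟩)]
  exact hqM _ (rk.symm _).2

end Pool.Agent.Helper503.Gp
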