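import Pool.Agent.Helper503.Gp.Defs

set_option autoImplicit false

open Metric Set Filter Topology Complex
open scoped ComplexConjugate

namespace Pool.Agent.Helper503.Gp

theorem cn_ep (n : ℕ) (p : ℕ × ℕ) : (ep n p).re = (p.2 : ℝ) / 2 ^ (n + p.1) ∧
    (ep n p).im = 1 / 2 ^ (n + p.1) := by
  have e : ep n p = (((p.2 : ℝ) / 2 ^ (n + p.1) : ℝ) : ℂ) + ((1 / 2 ^ (n + p.1) : ℝ) : ℂ) * I := by
    unfold ep
    push_cast
    ring
  rw [e]
  constructor
  · simp only [add_re, mul_re, ofReal_re, ofReal_im, I_re, I_im]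
    ring
  · simp only [add_im, mul_im, ofReal_re, ofReal_im, I_re, I_im]
    ring

theorem cn_bounds (s : ℝ) (hs : 0 < s) (n : ℕ) (w : ℂ) (hw : 0 < w.im) (p : ℕ × ℕ)
    (h : s < PH w (ep n p)) :
    s * w.im / 4 < 1 / 2 ^ (n + p.1) ∧ (1:ℝ) / 2 ^ (n + p.1) < 4 * w.im / s ∧
    |(p.2 : ℝ) - w.re * 2 ^ (n + p.1)| < 4 / s := by
  obtain ⟨h1, h2⟩ := cn_ep n p
  unfold PH at h
  rw [h1, h2] at h
  set q : ℝ := 2 ^ (n + p.1) with hq
  have hq0 : 0 < q := by positivity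
  obtain ⟨y, hy⟩ : ∃ y, y = 1 / q := ⟨_, rfl⟩
  have hy0 : 0 < y := by rw [hy]; positivity
  have hx : (p.2 : ℝ) / q = p.2 * y := by rw [hy]; ring
  rw [hx, ← hy] at h
  rw [← hy]
  set v := w.im with hv
  have hden : 0 < (w.re - p.2 * y) ^ 2 + (v + y) ^ 2 := by positivity
  rw [lt_div_iff₀ hden] at h
  have hsq := sq_nonneg (w.re - p.2 * y)
  have k1 := mul_nonneg hs.le hsq
  have k2 : 0 < s * (v * y) := by positivity
  have k3 : 0 < s * y ^ 2 := by positivity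
  have k4 : 0 < s * v ^ 2 := by positivity
  have k5 : s * ((w.re - p.2 * y) ^ 2 + (v + y) ^ 2) =
      s * (w.re - p.2 * y) ^ 2 + (s * v ^ 2 + 2 * (s * (v * y)) + s * y ^ 2) := by ring
  rw [k5] at h
  have a1 : s * v < 4 * y := by
    have h3 : s * v * v < 4 * y * v := by nlinarith
    exact lt_of_mul_lt_mul_right h3 hw.le
  have a2 : s * y < 4 * v := by
    have h3 : s * y * y < 4 * v * y := by nlinarith
    exact lt_of_mul_lt_mul_right h3 hy0.le
  refine ⟨by linarith, ?_, ?_⟩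
  · rw [lt_div_iff₀ hs]; linarith
  · have h4 : s * (w.re - p.2 * y) ^ 2 < 4 * v * y := by
      linarith
    have h5 : (s * (w.re - p.2 * y)) ^ 2 < (4 * y) ^ 2 := by
      have h6 : s * (s * (w.re - p.2 * y) ^ 2) < s * (4 * v * y) := mul_lt_mul_of_pos_left h4 hs
      nlinarith
    have h7 := abs_lt_of_sq_lt_sq h5 (by positivity)
    have e1 : (p.2 : ℝ) - w.re * q = -((w.re - p.2 * y) * q) := by
      rw [hy]; field_simp; ring
    rw [e1, abs_neg, abs_mul, abs_of_pos hq0, lt_div_iff₀ hs]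
    rw [abs_mul, abs_of_pos hs] at h7
    have h8 : s * |w.re - p.2 * y| * q < 4 * y * q := mul_lt_mul_of_pos_right h7 hq0
    have h9 : y * q = 1 := by rw [hy]; field_simp
    nlinarith

theorem count_near (s : ℝ) (hs : 0 < s) : ∃ N : ℕ, ∀ (n : ℕ) (w : ℂ), 0 < w.im →
    ∀ F : Finset (ℕ × ℕ), (∀ p ∈ F, s < PH w (ep n p)) → F.card ≤ N := by
  classical
  set D := ⌈16 / s ^ 2⌉₊ with hD
  set K := ⌈8 / s⌉₊ with hK
  refine ⟨(D + 1) * (K + 1), fun n w hw F hF => ?_⟩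
  rcases F.eq_empty_or_nonempty with hE | hne
  · rw [hE, Finset.card_empty]; exact Nat.zero_le _
  obtain ⟨p0, hp0, hmin⟩ := Finset.exists_min_image F Prod.fst hne
  have hb0 := cn_bounds s hs n w hw p0 (hF p0 hp0)
  let f : ℕ × ℕ → ℕ × ℕ := fun p => (p.1 - p0.1,
    ((p.2 : ℤ) - ⌈w.re * 2 ^ (n + p.1) - 4 / s⌉).toNat)
  have hint : ∀ p ∈ F, ⌈w.re * 2 ^ (n + p.1) - 4 / s⌉ ≤ (p.2 : ℤ) ∧
      (((p.2 : ℤ) - ⌈w.re * 2 ^ (n + p.1) - 4 / s⌉ : ℤ) : ℝ) ≤ 8 / s := by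
    intro p hp
    have hb := (cn_bounds s hs n w hw p (hF p hp)).2.2
    rw [abs_lt] at hb
    constructor
    · rw [Int.ceil_le]
      push_cast
      linarith [hb.1]
    · have h1 := Int.le_ceil (w.re * 2 ^ (n + p.1) - 4 / s)
      push_cast
      have h2 : (8:ℝ) / s = 4 / s + 4 / s := by ring
      linarith [hb.2]
  have hmaps : ∀ p ∈ F, f p ∈ Finset.range (D + 1) ×ˢ Finset.range (K + 1) := by
    intro p hp
    rw [Finset.mem_product, Finset.mem_range, Finset.mem_range]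
    constructor
    · show p.1 - p0.1 < D + 1
      have hb := cn_bounds s hs n w hw p (hF p hp)
      have hle := hmin p hp
      obtain ⟨d, hd⟩ : ∃ d, p.1 = p0.1 + d := ⟨p.1 - p0.1, by omega⟩
      have h1 : (2:ℝ) ^ d * (s * w.im / 4) < 4 * w.im / s := by
        have e1 : (1:ℝ) / 2 ^ (n + p0.1) = 2 ^ d * (1 / 2 ^ (n + p.1)) := by
          rw [hd, ← add_assoc, pow_add 2 (n + p0.1) d]
          field_simp
        have h2 : (2:ℝ) ^ d * (s * w.im / 4) < 2 ^ d * (1 / 2 ^ (n + p.1)) :=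
          mul_lt_mul_of_pos_left hb.1 (by positivity)
        rw [← e1] at h2
        exact h2.trans hb0.2.1
      have h3 : (2:ℝ) ^ d < 16 / s ^ 2 := by
        rw [lt_div_iff₀ (by positivity)]
        rw [lt_div_iff₀ hs] at h1
        have h4 : (2:ℝ) ^ d * s ^ 2 * w.im < 16 * w.im := by nlinarith
        exact lt_of_mul_lt_mul_right h4 hw.le
      have h5 : (d:ℝ) < 2 ^ d := by exact_mod_cast Nat.lt_two_pow_self
      have h6 : (d:ℝ) < (D:ℝ) := (h5.trans h3).trans_le (Nat.le_ceil _)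
      have h7 : d < D := by exact_mod_cast h6
      omega
    · show ((p.2 : ℤ) - ⌈w.re * 2 ^ (n + p.1) - 4 / s⌉).toNat < K + 1
      obtain ⟨h1, h2⟩ := hint p hp
      have h3 : 0 ≤ (p.2 : ℤ) - ⌈w.re * 2 ^ (n + p.1) - 4 / s⌉ := by omega
      have h4 : ((((p.2 : ℤ) - ⌈w.re * 2 ^ (n + p.1) - 4 / s⌉).toNat : ℕ) : ℝ) ≤ (K : ℝ) := by
        have h5 : ((((p.2 : ℤ) - ⌈w.re * 2 ^ (n + p.1) - 4 / s⌉).toNat : ℤ) : ℝ) =
            (((p.2 : ℤ) - ⌈w.re * 2 ^ (n + p.1) - 4 / s⌉ : ℤ) : ℝ) := by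
          rw [Int.toNat_of_nonneg h3]
        have h6 : ((((p.2 : ℤ) - ⌈w.re * 2 ^ (n + p.1) - 4 / s⌉).toNat : ℕ) : ℝ) =
            ((((p.2 : ℤ) - ⌈w.re * 2 ^ (n + p.1) - 4 / s⌉).toNat : ℤ) : ℝ) := by
          push_cast; rfl
        rw [h6, h5]
        exact h2.trans (Nat.le_ceil _)
      have h7 : ((p.2 : ℤ) - ⌈w.re * 2 ^ (n + p.1) - 4 / s⌉).toNat ≤ K := by exact_mod_cast h4
      omega
  have hinj : Set.InjOn f F := by
    intro p hp p' hp' heq
    have e1 : p.1 - p0.1 = p'.1 - p0.1 := congrArg Prod.fst heq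
    have e2 : ((p.2 : ℤ) - ⌈w.re * 2 ^ (n + p.1) - 4 / s⌉).toNat =
        ((p'.2 : ℤ) - ⌈w.re * 2 ^ (n + p'.1) - 4 / s⌉).toNat := congrArg Prod.snd heq
    have l1 := hmin p hp
    have l2 := hmin p' hp'
    have e3 : p.1 = p'.1 := by omega
    have m1 := (hint p hp).1
    have m2 := (hint p' hp').1
    rw [e3] at e2 m1
    have e4 : p.2 = p'.2 := by omega
    exact Prod.ext e3 e4
  have hcard := Finset.card_le_card_of_injOn f hmaps hinj
  rw [Finset.card_product, Finset.card_range, Finset.card_range] at hcard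
  exact hcard

end Pool.Agent.Helper503.Gp
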