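import Mathlib

set_option autoImplicit false

open Metric Set Filter Topology Complex
open scoped ComplexConjugate

namespace Pool.Agent.Helper503.Gp

/-- bounded analytic functions on the disc -/
def HI : Set (ℂ → ℂ) :=
  {f | DifferentiableOn ℂ f (Metric.ball (0:ℂ) 1) ∧
    ∃ C : ℝ, ∀ z ∈ Metric.ball (0:ℂ) 1, ‖f z‖ ≤ C}

/-- characters of the algebra -/
def IsChar (φ : (ℂ → ℂ) → ℂ) : Prop :=
  φ 1 = 1 ∧
    (∀ f ∈ HI, ∀ g ∈ HI, φ (f + g) = φ f + φ g ∧ φ (f * g) = φ f * φ g ∧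
      (Set.EqOn f g (Metric.ball (0:ℂ) 1) → φ f = φ g)) ∧
    (∀ c : ℂ, ∀ f ∈ HI, φ (c • f) = c * φ f) ∧
    (∀ f, f ∉ HI → φ f = 0)

/-- the Gleason relation -/
def Gl (φ ψ : (ℂ → ℂ) → ℂ) : Prop :=
  ∃ c : ℝ, c < 2 ∧ ∀ f ∈ HI, (∀ z ∈ Metric.ball (0:ℂ) 1, ‖f z‖ ≤ 1) → ‖φ f - ψ f‖ ≤ c

/-- The Blaschke factor with zero `a`. -/
noncomputable def bfac (a z : ℂ) : ℂ :=
  if a = 0 then z else ((‖a‖ : ℝ) : ℂ) / a * ((a - z) / (1 - conj a * z))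

/-- Cayley map from the upper half plane to the disc -/
noncomputable def cay (w : ℂ) : ℂ := (w - I) / (w + I)

/-- `1 - ρ²` in the upper half plane -/
noncomputable def PH (a b : ℂ) : ℝ :=
  4 * a.im * b.im / ((a.re - b.re) ^ 2 + (a.im + b.im) ^ 2)

/-- Blaschke condition on the index set `A` -/
def BlaOn {ι : Type} (w : ι → ℂ) (A : Set ι) : Prop :=
  (∀ i ∈ A, 0 < (w i).im) ∧ Summable fun i : A => PH (w i) I

/-- Blaschke product over the index set `A` -/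
noncomputable def BF {ι : Type} (w : ι → ℂ) (A : Set ι) (z : ℂ) : ℂ :=
  ∏' i : A, bfac (cay (w i)) z

noncomputable def mu {ι : Type} (w : ι → ℂ) (A : Set ι) (e : ℂ) : ℝ := ∑' i : A, PH (w i) e

/-- the point `(k + i) / 2 ^ (n + l)`, `p = (l, k)` -/
noncomputable def ep (n : ℕ) (p : ℕ × ℕ) : ℂ := ((p.2 : ℂ) + I) / 2 ^ (n + p.1)

noncomputable def top (n : ℕ) : ℂ := I / 2 ^ n

def En (n : ℕ) : Finset (ℕ × ℕ) :=
  ((Finset.range (n + 1)) ×ˢ (Finset.range (2 ^ n + 1))).filter (fun p => p.2 ≤ 2 ^ p.1)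

noncomputable def epq (q : ℕ × (ℕ × ℕ)) : ℂ := ep q.1 q.2

open Classical in
noncomputable def mass (n : ℕ) (X : Set (ℕ × (ℕ × ℕ))) : ℝ :=
  ∑ p ∈ (En n).filter (fun p => (n, p) ∈ X), PH (top n) (ep n p)

def Small (X : Set (ℕ × (ℕ × ℕ))) : Prop :=
  Tendsto (fun n : ℕ => mass n X / ((n : ℝ) + 1)) atTop (𝓝 0)


end Pool.Agent.Helper503.Gp
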