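import Pool.Agent.Helper503.Gp.Defs

set_option autoImplicit false

open Metric Set Filter Topology Complex
open scoped ComplexConjugate

namespace Pool.Agent.Helper503.Gp

theorem ep_re_eq (n : ℕ) (p : ℕ × ℕ) : (ep n p).re = (p.2 : ℝ) / 2 ^ (n + p.1) := by
  have h : ep n p = ((p.2 : ℂ) + I) / (((2 : ℝ) ^ (n + p.1) : ℝ) : ℂ) := by
    unfold ep
    push_cast
    rfl
  rw [h, Complex.div_ofReal_re]
  simp

theorem ep_im_eq (n : ℕ) (p : ℕ × ℕ) : (ep n p).im = 1 / 2 ^ (n + p.1) := by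
  have h : ep n p = ((p.2 : ℂ) + I) / (((2 : ℝ) ^ (n + p.1) : ℝ) : ℂ) := by
    unfold ep
    push_cast
    rfl
  rw [h, Complex.div_ofReal_im]
  simp

theorem top_re_eq (n : ℕ) : (top n).re = 0 := by
  have h : top n = I / (((2 : ℝ) ^ n : ℝ) : ℂ) := by
    unfold top
    push_cast
    rfl
  rw [h, Complex.div_ofReal_re]
  simp

theorem top_im_eq (n : ℕ) : (top n).im = 1 / 2 ^ n := by
  have h : top n = I / (((2 : ℝ) ^ n : ℝ) : ℂ) := by
    unfold top
    push_cast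
    rfl
  rw [h, Complex.div_ofReal_im]
  simp

theorem PH_top_ep (n : ℕ) (l k : ℕ) : PH (top n) (ep n (l, k)) =
    4 * 2 ^ l / ((k : ℝ) ^ 2 + (2 ^ l + 1) ^ 2) := by
  unfold PH
  rw [ep_re_eq, ep_im_eq, top_re_eq, top_im_eq]
  dsimp only
  have h1 : (0 : ℝ) < 2 ^ n := by positivity
  have h2 : (0 : ℝ) < 2 ^ l := by positivity
  rw [pow_add]
  obtain ⟨x, hx⟩ : ∃ x : ℝ, x = 2 ^ n := ⟨_, rfl⟩
  obtain ⟨y, hy⟩ : ∃ y : ℝ, y = 2 ^ l := ⟨_, rfl⟩
  rw [← hx, ← hy]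
  rw [← hx] at h1
  rw [← hy] at h2
  have h3 : 0 < (k : ℝ) ^ 2 + (y + 1) ^ 2 := by positivity
  have h4 : (0 - (k : ℝ) / (x * y)) ^ 2 + (1 / x + 1 / (x * y)) ^ 2 =
      ((k : ℝ) ^ 2 + (y + 1) ^ 2) / (x * y) ^ 2 := by
    field_simp
    ring
  rw [h4]
  field_simp

theorem PH_top_ep_lower (n : ℕ) (l k : ℕ) (hk : k ≤ 2 ^ l) :
    (4 / 5 : ℝ) / 2 ^ l ≤ PH (top n) (ep n (l, k)) := by
  rw [PH_top_ep]
  have h2 : (1 : ℝ) ≤ 2 ^ l := one_le_pow₀ (by norm_num)
  have hkr : (k : ℝ) ≤ 2 ^ l := by exact_mod_cast hk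
  obtain ⟨y, hy⟩ : ∃ y : ℝ, y = 2 ^ l := ⟨_, rfl⟩
  rw [← hy] at h2 hkr ⊢
  have hk0 : (0 : ℝ) ≤ k := Nat.cast_nonneg k
  rw [div_le_div_iff₀ (by linarith) (by positivity)]
  nlinarith [mul_le_mul hkr hkr hk0 (by linarith), mul_self_nonneg (y - 1)]

theorem PH_top_ep_nonneg (n : ℕ) (p : ℕ × ℕ) : 0 ≤ PH (top n) (ep n p) := by
  obtain ⟨l, k⟩ := p
  rw [PH_top_ep]
  positivity

theorem PH_ep_I_nonneg (n : ℕ) (p : ℕ × ℕ) : 0 ≤ PH (ep n p) I := by
  unfold PH
  rw [ep_im_eq]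
  have : I.im = 1 := Complex.I_im
  rw [this]
  positivity

theorem PH_ep_I_le (n : ℕ) (p : ℕ × ℕ) : PH (ep n p) I ≤ 4 / 2 ^ (n + p.1) := by
  unfold PH
  rw [ep_im_eq, Complex.I_im, Complex.I_re]
  have h0 : (0 : ℝ) < 1 / 2 ^ (n + p.1) := by positivity
  obtain ⟨x, hx⟩ : ∃ x : ℝ, x = 1 / 2 ^ (n + p.1) := ⟨_, rfl⟩
  have h4 : (4 : ℝ) / 2 ^ (n + p.1) = 4 * x := by rw [hx]; ring
  rw [h4, ← hx]
  rw [← hx] at h0
  have h5 : 0 ≤ ((ep n p).re - 0) ^ 2 := sq_nonneg _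
  have h6 : 1 ≤ ((ep n p).re - 0) ^ 2 + (x + 1) ^ 2 := by nlinarith
  rw [div_le_iff₀ (by linarith)]
  nlinarith

theorem sum_En_le (n : ℕ) : ∑ p ∈ En n, PH (ep n p) I ≤ 8 * ((n : ℝ) + 1) / 2 ^ n := by
  calc ∑ p ∈ En n, PH (ep n p) I ≤ ∑ p ∈ En n, (4 : ℝ) / 2 ^ (n + p.1) :=
        Finset.sum_le_sum (fun p _ => PH_ep_I_le n p)
    _ = ∑ l ∈ Finset.range (n + 1), ∑ k ∈ Finset.range (2 ^ n + 1),
          (if k ≤ 2 ^ l then (4 : ℝ) / 2 ^ (n + l) else 0) := by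
        unfold En
        rw [Finset.sum_filter, Finset.sum_product]
    _ ≤ ∑ l ∈ Finset.range (n + 1), (8 : ℝ) / 2 ^ n := by
        refine Finset.sum_le_sum (fun l _ => ?_)
        rw [← Finset.sum_filter, Finset.sum_const, nsmul_eq_mul]
        have h1 : ((Finset.range (2 ^ n + 1)).filter (fun k => k ≤ 2 ^ l)).card ≤ 2 ^ l + 1 := by
          calc ((Finset.range (2 ^ n + 1)).filter (fun k => k ≤ 2 ^ l)).card
              ≤ (Finset.range (2 ^ l + 1)).card := by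
                refine Finset.card_le_card ?_
                intro k hk
                rw [Finset.mem_filter] at hk
                rw [Finset.mem_range]
                omega
            _ = 2 ^ l + 1 := Finset.card_range _
        have h2 : (((Finset.range (2 ^ n + 1)).filter (fun k => k ≤ 2 ^ l)).card : ℝ) ≤ 2 ^ l + 1 := by
          exact_mod_cast h1
        have h3 : (1 : ℝ) ≤ 2 ^ l := one_le_pow₀ (by norm_num)
        have h4 : (0 : ℝ) < 4 / 2 ^ (n + l) := by positivity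
        calc _ ≤ ((2 : ℝ) ^ l + 1) * (4 / 2 ^ (n + l)) := mul_le_mul_of_nonneg_right h2 h4.le
          _ ≤ (2 * (2 : ℝ) ^ l) * (4 / 2 ^ (n + l)) := mul_le_mul_of_nonneg_right (by linarith) h4.le
          _ = 8 / 2 ^ n := by
            rw [pow_add]
            field_simp
            norm_num
    _ = 8 * ((n : ℝ) + 1) / 2 ^ n := by
        rw [Finset.sum_const, Finset.card_range, nsmul_eq_mul]
        push_cast
        ring


theorem ep_im (n : ℕ) (p : ℕ × ℕ) : 0 < (ep n p).im := by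
  rw [ep_im_eq]
  positivity

theorem mass_lower (n : ℕ) : (4 / 5 : ℝ) * ((n : ℝ) + 1) ≤ mass n Set.univ := by
  classical
  unfold mass
  have h0 : (En n).filter (fun p => (n, p) ∈ (Set.univ : Set (ℕ × (ℕ × ℕ)))) = En n :=
    Finset.filter_true_of_mem (fun _ _ => Set.mem_univ _)
  have h0' : ∑ p ∈ (En n).filter (fun p => (n, p) ∈ (Set.univ : Set (ℕ × (ℕ × ℕ)))),
      PH (top n) (ep n p) = ∑ p ∈ En n, PH (top n) (ep n p) :=
    Finset.sum_congr h0 (fun _ _ => rfl)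
  have h1 : ∑ p ∈ En n, PH (top n) (ep n p) = ∑ l ∈ Finset.range (n + 1),
      ∑ k ∈ Finset.range (2 ^ n + 1), (if k ≤ 2 ^ l then PH (top n) (ep n (l, k)) else 0) := by
    unfold En
    rw [Finset.sum_filter, Finset.sum_product]
  have h2 : (4 / 5 : ℝ) * ((n : ℝ) + 1) = ∑ l ∈ Finset.range (n + 1), (4 / 5 : ℝ) := by
    rw [Finset.sum_const, Finset.card_range, nsmul_eq_mul]
    push_cast
    ring
  have h3 : (4 / 5 : ℝ) * ((n : ℝ) + 1) ≤ ∑ p ∈ En n, PH (top n) (ep n p) := by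
    rw [h1, h2]
    refine Finset.sum_le_sum (fun l hl => ?_)
    have hln : l ≤ n := by
      rw [Finset.mem_range] at hl
      omega
    have hpow : 2 ^ l ≤ 2 ^ n := Nat.pow_le_pow_right (by norm_num) hln
    calc (4 / 5 : ℝ) = ∑ k ∈ Finset.range (2 ^ l), (4 / 5 : ℝ) / 2 ^ l := by
          rw [Finset.sum_const, Finset.card_range, nsmul_eq_mul]
          push_cast
          field_simp
      _ ≤ ∑ k ∈ Finset.range (2 ^ l), (if k ≤ 2 ^ l then PH (top n) (ep n (l, k)) else 0) := by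
          refine Finset.sum_le_sum (fun k hk => ?_)
          have hk' : k ≤ 2 ^ l := (Finset.mem_range.1 hk).le
          rw [if_pos hk']
          exact PH_top_ep_lower n l k hk'
      _ ≤ ∑ k ∈ Finset.range (2 ^ n + 1), (if k ≤ 2 ^ l then PH (top n) (ep n (l, k)) else 0) := by
          refine Finset.sum_le_sum_of_subset_of_nonneg ?_ ?_
          · intro k hk
            rw [Finset.mem_range] at hk ⊢
            omega
          · intro k _ _
            split_ifs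
            · exact PH_top_ep_nonneg _ _
            · exact le_refl _
  refine h3.trans (le_of_eq ?_)
  convert h0'.symm

theorem bla_E : BlaOn epq {q | q.2 ∈ En q.1} := by
  classical
  refine ⟨fun i _ => by unfold epq; rw [ep_im_eq]; positivity, ?_⟩
  have hs : Summable (Set.indicator {q : ℕ × (ℕ × ℕ) | q.2 ∈ En q.1} (fun q => PH (epq q) I)) := by
    have hnn : 0 ≤ (Set.indicator {q : ℕ × (ℕ × ℕ) | q.2 ∈ En q.1} (fun q => PH (epq q) I)) := by
      intro q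
      refine Set.indicator_nonneg ?_ q
      intro q _
      exact PH_ep_I_nonneg _ _
    rw [summable_prod_of_nonneg hnn]
    have hz : ∀ n : ℕ, ∀ p ∉ En n,
        Set.indicator {q : ℕ × (ℕ × ℕ) | q.2 ∈ En q.1} (fun q => PH (epq q) I) (n, p) = 0 := by
      intro n p hp
      have hq : (n, p) ∉ {q : ℕ × (ℕ × ℕ) | q.2 ∈ En q.1} := hp
      exact Set.indicator_of_notMem hq _
    have hv : ∀ n : ℕ, ∀ p ∈ En n,
        Set.indicator {q : ℕ × (ℕ × ℕ) | q.2 ∈ En q.1} (fun q => PH (epq q) I) (n, p) =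
          PH (ep n p) I := by
      intro n p hp
      exact Set.indicator_of_mem (show (n, p) ∈ {q : ℕ × (ℕ × ℕ) | q.2 ∈ En q.1} from hp) _
    refine ⟨fun n => summable_of_ne_finset_zero (s := En n) (hz n), ?_⟩
    have hsum : Summable (fun n : ℕ => 8 * ((n : ℝ) + 1) / 2 ^ n) := by
      have h1 : Summable (fun n : ℕ => (n : ℝ) ^ 1 * (1 / 2 : ℝ) ^ n) :=
        summable_pow_mul_geometric_of_norm_lt_one 1 (by norm_num)
      have h2 : Summable (fun n : ℕ => (1 / 2 : ℝ) ^ n) :=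
        summable_geometric_of_lt_one (by norm_num) (by norm_num)
      have h3 := (h1.add h2).mul_left 8
      refine h3.congr ?_
      intro n
      rw [one_div, inv_pow]
      ring
    refine Summable.of_nonneg_of_le (fun n => tsum_nonneg (fun p => hnn (n, p))) (fun n => ?_) hsum
    rw [tsum_eq_sum (s := En n) (hz n), Finset.sum_congr rfl (hv n)]
    exact sum_En_le n
  exact (summable_subtype_iff_indicator).2 hs

theorem ep_bound (n : ℕ) (p : ℕ × ℕ) (hp : p ∈ En n) : ‖ep n p‖ ≤ 2 / 2 ^ n ∧ (ep n p).im ≤ 1 := by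
  have hp2 : p.2 ≤ 2 ^ p.1 := (Finset.mem_filter.1 hp).2
  constructor
  · have h : ep n p = ((p.2 : ℂ) + I) / (((2 : ℝ) ^ (n + p.1) : ℝ) : ℂ) := by
      unfold ep
      push_cast
      rfl
    have h1 : (0 : ℝ) < 2 ^ (n + p.1) := by positivity
    rw [h, norm_div, Complex.norm_real, Real.norm_eq_abs, abs_of_pos h1]
    have h2 : ‖(p.2 : ℂ) + I‖ ≤ 2 * 2 ^ p.1 := by
      calc ‖(p.2 : ℂ) + I‖ ≤ ‖(p.2 : ℂ)‖ + ‖I‖ := norm_add_le _ _
        _ = (p.2 : ℝ) + 1 := by rw [Complex.norm_natCast, Complex.norm_I]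
        _ ≤ 2 * 2 ^ p.1 := by
          have h3 : (p.2 : ℝ) ≤ 2 ^ p.1 := by exact_mod_cast hp2
          have h4 : (1 : ℝ) ≤ 2 ^ p.1 := one_le_pow₀ (by norm_num)
          linarith
    calc ‖(p.2 : ℂ) + I‖ / 2 ^ (n + p.1) ≤ 2 * 2 ^ p.1 / 2 ^ (n + p.1) :=
          div_le_div_of_nonneg_right h2 h1.le
      _ = 2 / 2 ^ n := by
          rw [pow_add]
          field_simp
  · rw [ep_im_eq]
    rw [div_le_one (by positivity)]
    exact one_le_pow₀ (by norm_num)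

end Pool.Agent.Helper503.Gp
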