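import Pool.Agent.Helper503.Gp.Defs
import Pool.Agent.Helper503.Gp.Latt
import Pool.Agent.Helper503.Gp.BF1
import Pool.Agent.Helper503.Gp.Lib
import Pool.Agent.Helper503.Gp.Cay
import Pool.Agent.Helper503.Gp.Harn

set_option autoImplicit false

open Metric Set Filter Topology Complex
open scoped ComplexConjugate

namespace Pool.Agent.Helper503.Gp



theorem exists_m_top_im (n : ℕ) : 0 < (top n).im := by
  unfold top
  have h : (I / 2 ^ n : ℂ) = ((1 / 2 ^ n : ℝ) : ℂ) * I := by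
    push_cast
    ring
  rw [h, Complex.mul_im, Complex.ofReal_re, Complex.ofReal_im, Complex.I_im, Complex.I_re]
  have : (0:ℝ) < 1 / 2 ^ n := by positivity
  linarith

theorem exists_m_nn (n : ℕ) (p : ℕ × ℕ) : 0 ≤ PH (top n) (ep n p) :=
  (PH_pos (exists_m_top_im n) (ep_im n p)).le

theorem exists_m_mass_nonneg (n : ℕ) (X : Set (ℕ × (ℕ × ℕ))) : 0 ≤ mass n X := by
  unfold mass
  exact Finset.sum_nonneg fun p _ => exists_m_nn n p

open Classical in
theorem exists_m_mass_mono (n : ℕ) {X Y : Set (ℕ × (ℕ × ℕ))} (h : X ⊆ Y) : mass n X ≤ mass n Y := by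
  unfold mass
  apply Finset.sum_le_sum_of_subset_of_nonneg
  · intro p hp
    rw [Finset.mem_filter] at hp ⊢
    exact ⟨hp.1, h hp.2⟩
  · intro p _ _
    exact exists_m_nn n p

open Classical in
theorem exists_m_mass_union (n : ℕ) (X Y : Set (ℕ × (ℕ × ℕ))) : mass n (X ∪ Y) ≤ mass n X + mass n Y := by
  unfold mass
  rw [Finset.sum_filter, Finset.sum_filter, Finset.sum_filter, ← Finset.sum_add_distrib]
  apply Finset.sum_le_sum
  intro p _
  have h := exists_m_nn n p
  by_cases h1 : (n, p) ∈ X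
  · by_cases h2 : (n, p) ∈ Y
    · rw [if_pos (show (n, p) ∈ X ∪ Y from Or.inl h1), if_pos h1, if_pos h2]; linarith
    · rw [if_pos (show (n, p) ∈ X ∪ Y from Or.inl h1), if_pos h1, if_neg h2]; linarith
  · by_cases h2 : (n, p) ∈ Y
    · rw [if_pos (show (n, p) ∈ X ∪ Y from Or.inr h2), if_neg h1, if_pos h2]; linarith
    · rw [if_neg (show ¬ (n, p) ∈ X ∪ Y from fun hc => hc.elim h1 h2), if_neg h1, if_neg h2]; linarith

theorem exists_m_small_mono {X Y : Set (ℕ × (ℕ × ℕ))} (h : X ⊆ Y) (hY : Small Y) : Small X := by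
  unfold Small at *
  refine squeeze_zero (fun n => ?_) (fun n => ?_) hY
  · exact div_nonneg (exists_m_mass_nonneg n X) (by positivity)
  · exact div_le_div_of_nonneg_right (exists_m_mass_mono n h) (by positivity)

theorem exists_m_small_union {X Y : Set (ℕ × (ℕ × ℕ))} (hX : Small X) (hY : Small Y) : Small (X ∪ Y) := by
  unfold Small at *
  have h := hX.add hY
  rw [add_zero] at h
  refine squeeze_zero (fun n => ?_) (fun n => ?_) h
  · exact div_nonneg (exists_m_mass_nonneg n _) (by positivity)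
  · rw [← add_div]
    exact div_le_div_of_nonneg_right (exists_m_mass_union n X Y) (by positivity)

open Classical in
theorem exists_m_small_eventually {X : Set (ℕ × (ℕ × ℕ))} (h : ∀ᶠ n in atTop, ∀ p ∈ En n, (n, p) ∉ X) :
    Small X := by
  unfold Small
  have h1 : (fun n : ℕ => mass n X / ((n : ℝ) + 1)) =ᶠ[atTop] fun _ => 0 := by
    filter_upwards [h] with n hn
    have h2 : mass n X = 0 := by
      unfold mass
      apply Finset.sum_eq_zero
      intro p hp
      rw [Finset.mem_filter] at hp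
      exact absurd hp.2 (hn p hp.1)
    rw [h2, zero_div]
  exact (tendsto_congr' h1).mpr tendsto_const_nhds

theorem exists_m_not_small : ¬ Small Set.univ := by
  intro h
  unfold Small at h
  have h1 := h.eventually (gt_mem_nhds (show (0:ℝ) < 4 / 5 by norm_num))
  obtain ⟨n, hn⟩ := h1.exists
  have h2 := mass_lower n
  have h3 : (0:ℝ) < (n : ℝ) + 1 := by positivity
  rw [div_lt_iff₀ h3] at hn
  linarith

/-- the filter of the sets with small complement -/
def exists_m_F : Filter (ℕ × (ℕ × ℕ)) where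
  sets := {Y | Small Yᶜ}
  univ_sets := by
    show Small _
    apply exists_m_small_eventually
    filter_upwards with n p _
    simp
  sets_of_superset := by
    intro X Y hX hXY
    exact exists_m_small_mono (Set.compl_subset_compl.mpr hXY) hX
  inter_sets := by
    intro X Y hX hY
    show Small _
    rw [Set.compl_inter]
    exact exists_m_small_union hX hY

instance exists_m_neBot : exists_m_F.NeBot := by
  rw [Filter.neBot_iff]
  intro h
  have h1 : (∅ : Set (ℕ × (ℕ × ℕ))) ∈ exists_m_F := by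
    rw [h]; trivial
  have h2 : Small (∅ : Set (ℕ × (ℕ × ℕ)))ᶜ := h1
  rw [Set.compl_empty] at h2
  exact exists_m_not_small h2

/-- the ultrafilter -/
noncomputable def exists_m_V : Ultrafilter (ℕ × (ℕ × ℕ)) := Ultrafilter.of exists_m_F

theorem exists_m_mem {Y : Set (ℕ × (ℕ × ℕ))} (h : Small Yᶜ) : ∀ᶠ q in (exists_m_V : Filter (ℕ × (ℕ × ℕ))), q ∈ Y :=
  Ultrafilter.of_le exists_m_F h

theorem exists_m_E : ∀ᶠ q in (exists_m_V : Filter (ℕ × (ℕ × ℕ))), q.2 ∈ En q.1 := by
  refine exists_m_mem (Y := {q | q.2 ∈ En q.1}) ?_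
  apply exists_m_small_eventually
  filter_upwards with n p hp hc
  exact hc hp

theorem exists_m_ball (q : ℕ × (ℕ × ℕ)) : cay (epq q) ∈ Metric.ball (0:ℂ) 1 :=
  cay_mem (ep_im q.1 q.2)

theorem exists_m_lim {f : ℂ → ℂ} (hf : f ∈ HI) :
    ∃ a, Tendsto (fun q => f (cay (epq q))) (exists_m_V : Filter (ℕ × (ℕ × ℕ))) (𝓝 a) := by
  obtain ⟨_, C, hC⟩ := hf
  obtain ⟨a, _, ha⟩ := (isCompact_closedBall (0:ℂ) C).ultrafilter_le_nhds
    (exists_m_V.map (fun q => f (cay (epq q)))) (by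
      rw [Filter.le_principal_iff, Ultrafilter.coe_map, Filter.mem_map]
      apply Filter.univ_mem'
      intro q
      rw [Set.mem_preimage, mem_closedBall_zero_iff]
      exact hC _ (exists_m_ball q))
  exact ⟨a, ha⟩

open Classical in
/-- the character -/
noncomputable def exists_m_m (f : ℂ → ℂ) : ℂ :=
  if h : f ∈ HI then (exists_m_lim h).choose else 0

theorem exists_m_spec {f : ℂ → ℂ} (hf : f ∈ HI) :
    Tendsto (fun q => f (cay (epq q))) (exists_m_V : Filter (ℕ × (ℕ × ℕ))) (𝓝 (exists_m_m f)) := by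
  unfold exists_m_m
  rw [dif_pos hf]
  exact (exists_m_lim hf).choose_spec

theorem exists_m_uniq {f : ℂ → ℂ} (hf : f ∈ HI) {a : ℂ}
    (h : Tendsto (fun q => f (cay (epq q))) (exists_m_V : Filter (ℕ × (ℕ × ℕ))) (𝓝 a)) :
    exists_m_m f = a :=
  tendsto_nhds_unique (exists_m_spec hf) h

theorem exists_m_one : (1 : ℂ → ℂ) ∈ HI :=
  ⟨differentiableOn_const (1:ℂ), 1, fun z _ => by simp⟩

theorem exists_m_add {f g : ℂ → ℂ} (hf : f ∈ HI) (hg : g ∈ HI) : f + g ∈ HI := by
  obtain ⟨h1, C, hC⟩ := hf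
  obtain ⟨h2, D, hD⟩ := hg
  exact ⟨h1.add h2, C + D, fun z hz => (norm_add_le _ _).trans (add_le_add (hC z hz) (hD z hz))⟩

theorem exists_m_mul {f g : ℂ → ℂ} (hf : f ∈ HI) (hg : g ∈ HI) : f * g ∈ HI := by
  obtain ⟨h1, C, hC⟩ := hf
  obtain ⟨h2, D, hD⟩ := hg
  refine ⟨h1.mul h2, C * D, fun z hz => ?_⟩
  rw [Pi.mul_apply, norm_mul]
  exact mul_le_mul (hC z hz) (hD z hz) (norm_nonneg _) ((norm_nonneg _).trans (hC z hz))

theorem exists_m_smul {f : ℂ → ℂ} (c : ℂ) (hf : f ∈ HI) : c • f ∈ HI := by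
  obtain ⟨h1, C, hC⟩ := hf
  refine ⟨h1.const_smul c, ‖c‖ * C, fun z hz => ?_⟩
  rw [Pi.smul_apply, smul_eq_mul, norm_mul]
  exact mul_le_mul_of_nonneg_left (hC z hz) (norm_nonneg _)

theorem exists_m_id : (fun z => z : ℂ → ℂ) ∈ HI := by
  refine ⟨differentiableOn_id, 1, fun z hz => ?_⟩
  rw [mem_ball_zero_iff] at hz
  exact hz.le

theorem exists_m_epq : Tendsto epq (exists_m_V : Filter (ℕ × (ℕ × ℕ))) (𝓝 0) := by
  rw [Metric.tendsto_nhds]
  intro ε hε
  refine exists_m_mem (Y := {q | dist (epq q) 0 < ε}) ?_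
  apply exists_m_small_eventually
  have h1 : Tendsto (fun n : ℕ => (2:ℝ) / 2 ^ n) atTop (𝓝 0) := by
    have h2 := (tendsto_pow_atTop_nhds_zero_of_lt_one (r := (1/2 : ℝ)) (by norm_num) (by norm_num)).const_mul 2
    rw [mul_zero] at h2
    refine h2.congr fun n => ?_
    rw [one_div, inv_pow]
    rfl
  filter_upwards [h1.eventually (gt_mem_nhds hε)] with n hn p hp hc
  apply hc
  show dist (ep n p) 0 < ε
  rw [dist_zero_right]
  exact lt_of_le_of_lt (ep_bound n p hp).1 hn

theorem exists_m_cay : Tendsto (fun q => cay (epq q)) (exists_m_V : Filter (ℕ × (ℕ × ℕ))) (𝓝 (-1)) := by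
  have h1 : ContinuousAt cay 0 := by
    unfold cay
    apply ContinuousAt.div (by fun_prop) (by fun_prop)
    simp
  have h2 : cay 0 = -1 := by
    unfold cay
    rw [zero_sub, zero_add, neg_div, div_self Complex.I_ne_zero]
  rw [← h2]
  exact h1.tendsto.comp exists_m_epq

theorem exists_m : ∃ m : (ℂ → ℂ) → ℂ, IsChar m ∧
    (∀ z ∈ Metric.ball (0:ℂ) 1, ∃ f ∈ HI, m f ≠ f z) ∧
    m (BF epq {q | q.2 ∈ En q.1}) = 0 ∧
    ∀ f ∈ HI, Small {q | q.2 ∈ En q.1 ∧ ‖f (cay (epq q))‖ < 1 / 3} → m f ≠ 0 := by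
  refine ⟨exists_m_m, ⟨?_, ?_, ?_, ?_⟩, ?_, ?_, ?_⟩
  · apply exists_m_uniq exists_m_one
    simp only [Pi.one_apply]
    exact tendsto_const_nhds
  · intro f hf g hg
    refine ⟨?_, ?_, ?_⟩
    · exact exists_m_uniq (exists_m_add hf hg) ((exists_m_spec hf).add (exists_m_spec hg))
    · exact exists_m_uniq (exists_m_mul hf hg) ((exists_m_spec hf).mul (exists_m_spec hg))
    · intro hfg
      apply exists_m_uniq hf
      refine (exists_m_spec hg).congr fun q => ?_
      exact (hfg (exists_m_ball q)).symm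
  · intro c f hf
    exact exists_m_uniq (exists_m_smul c hf) ((exists_m_spec hf).const_mul c)
  · intro f hf
    unfold exists_m_m
    rw [dif_neg hf]
  · intro z hz
    refine ⟨fun z => z, exists_m_id, ?_⟩
    rw [exists_m_uniq exists_m_id exists_m_cay]
    intro h
    rw [mem_ball_zero_iff] at hz
    have h2 : z = -1 := h.symm
    rw [h2] at hz
    simp at hz
  · apply exists_m_uniq (BF_mem bla_E)
    refine (tendsto_congr' ?_).mpr (tendsto_const_nhds (x := (0:ℂ)))
    filter_upwards [exists_m_E] with q hq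
    exact BF_zero bla_E (i := q) hq
  · intro f hf hs h0
    have h1 := exists_m_spec hf
    rw [h0] at h1
    have h2 : ∀ᶠ q in (exists_m_V : Filter (ℕ × (ℕ × ℕ))), q ∈ {q : ℕ × (ℕ × ℕ) | q.2 ∈ En q.1 ∧ ‖f (cay (epq q))‖ < 1 / 3}ᶜ := by
      apply exists_m_mem
      rw [compl_compl]
      exact hs
    have h3 : ∀ᶠ q in (exists_m_V : Filter (ℕ × (ℕ × ℕ))), ‖f (cay (epq q))‖ < 1 / 3 := by
      have h4 := h1.norm
      rw [norm_zero] at h4
      exact h4.eventually (gt_mem_nhds (by norm_num))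
    obtain ⟨q, hq1, hq2, hq3⟩ := (exists_m_E.and (h2.and h3)).exists
    exact hq2 ⟨hq1, hq3⟩

end Pool.Agent.Helper503.Gp
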