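import Pool.Agent.Helper503.Gp.Defs

set_option autoImplicit false

open Metric Set Filter Topology Complex
open scoped ComplexConjugate

namespace Pool.Agent.Helper503.Gp

/-! TARGET -/

theorem norming {B : ℂ → ℂ} (hB : B ∈ HI) (hB1 : ∀ z ∈ Metric.ball (0:ℂ) 1, ‖B z‖ ≤ 1)
    (hiso : ∀ f ∈ HI, ∀ K : ℝ, (∀ z ∈ Metric.ball (0:ℂ) 1, ‖f z * B z‖ ≤ K) →
      ∀ z ∈ Metric.ball (0:ℂ) 1, ‖f z‖ ≤ K)
    {f : ℂ → ℂ} (hf : f ∈ HI) {z : ℂ} (hz : z ∈ Metric.ball (0:ℂ) 1) (ε : ℝ) (hε : 0 < ε) :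
    ∃ z' ∈ Metric.ball (0:ℂ) 1, 1 / 2 ≤ ‖B z'‖ ∧ ‖f z‖ < ‖f z'‖ + ε := by
  by_contra hcon
  push Not at hcon
  have hne : (Metric.ball (0:ℂ) 1).Nonempty := ⟨z, hz⟩
  by_cases hal : ‖f z‖ - ε < 0
  · have h1 : (1 : ℂ → ℂ) ∈ HI := by
      refine ⟨differentiableOn_const (1:ℂ), 1, fun w _ => ?_⟩
      simp
    have h2 := hiso 1 h1 (1/2) (by
      intro w hw
      by_contra h3
      have h4 : 1 / 2 ≤ ‖B w‖ := by
        have : ‖(1 : ℂ → ℂ) w * B w‖ = ‖B w‖ := by simp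
        rw [this] at h3
        linarith [not_le.mp h3]
      have := hcon w hw h4
      linarith [norm_nonneg (f w)]) z hz
    simp at h2
    norm_num at h2
  · have hal' : 0 ≤ ‖f z‖ - ε := not_lt.mp hal
    obtain ⟨C, hC⟩ := hf.2
    have hbdd : BddAbove ((fun w => ‖f w‖) '' Metric.ball (0:ℂ) 1) := by
      refine ⟨C, ?_⟩
      rintro _ ⟨w, hw, rfl⟩
      exact hC w hw
    set M := sSup ((fun w => ‖f w‖) '' Metric.ball (0:ℂ) 1) with hM
    have hle : ∀ w ∈ Metric.ball (0:ℂ) 1, ‖f w‖ ≤ M := fun w hw => le_csSup hbdd ⟨w, hw, rfl⟩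
    have hMpos : ‖f z‖ ≤ M := hle z hz
    have key := hiso f hf (max (‖f z‖ - ε) (M / 2)) (by
      intro w hw
      rw [norm_mul]
      by_cases h5 : 1 / 2 ≤ ‖B w‖
      · have h6 := hcon w hw h5
        have h7 : ‖f w‖ * ‖B w‖ ≤ ‖f w‖ * 1 := by
          gcongr
          exact hB1 w hw
        exact le_max_of_le_left (by linarith)
      · have h6 : ‖B w‖ ≤ 1 / 2 := (not_le.mp h5).le
        have h7 : ‖f w‖ * ‖B w‖ ≤ M * (1 / 2) := by
          gcongr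
          · exact (norm_nonneg _).trans (hle w hw)
          · exact hle w hw
        exact le_max_of_le_right (by linarith))
    have hMle : M ≤ max (‖f z‖ - ε) (M / 2) := by
      apply csSup_le (hne.image _)
      rintro _ ⟨w, hw, rfl⟩
      exact key w hw
    rcases le_max_iff.mp hMle with h8 | h8
    · linarith
    · linarith

end Pool.Agent.Helper503.Gp
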