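import Pool.Agent.Helper503.Gp.Defs

set_option autoImplicit false

open Metric Set Filter Topology Complex
open scoped ComplexConjugate

namespace Pool.Agent.Helper503.Gp

/-! TARGET -/

theorem exists_root {g : ℂ → ℂ} (hg : g ∈ HI) (hg1 : ∀ z ∈ Metric.ball (0:ℂ) 1, ‖g z‖ ≤ 1)
    (hg0 : ∀ z ∈ Metric.ball (0:ℂ) 1, g z ≠ 0) (n : ℕ) (hn : 0 < n) :
    ∃ h ∈ HI, (∀ z ∈ Metric.ball (0:ℂ) 1, ‖h z‖ ≤ 1) ∧
      ∀ z ∈ Metric.ball (0:ℂ) 1, h z ^ n = g z := by
  
  obtain ⟨hgd, C, hC⟩ := hg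
  have hn' : (n : ℂ) ≠ 0 := by exact_mod_cast hn.ne'
  have hlogd : DifferentiableOn ℂ (fun z => deriv g z / g z) (Metric.ball (0:ℂ) 1) :=
    (hgd.deriv isOpen_ball).div hgd hg0
  obtain ⟨F, hF⟩ := hlogd.isExactOn_ball
  have h0 : (0:ℂ) ∈ Metric.ball (0:ℂ) 1 := mem_ball_self one_pos
  obtain ⟨c, hc⟩ : ∃ c : ℂ, Complex.exp c = g 0 := ⟨Complex.log (g 0), Complex.exp_log (hg0 0 h0)⟩
  let L : ℂ → ℂ := fun z => F z - F 0 + c
  have hL : ∀ z ∈ Metric.ball (0:ℂ) 1, HasDerivAt L (deriv g z / g z) z := fun z hz =>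
    ((hF z hz).sub_const (F 0)).add_const c
  have hgD : ∀ z ∈ Metric.ball (0:ℂ) 1, HasDerivAt g (deriv g z) z := fun z hz =>
    ((hgd z hz).differentiableAt (isOpen_ball.mem_nhds hz)).hasDerivAt
  -- `g exp(-L)` is constant
  have hconst : ∀ z ∈ Metric.ball (0:ℂ) 1, g z * Complex.exp (-L z) = 1 := by
    have hd : ∀ z ∈ Metric.ball (0:ℂ) 1,
        HasDerivWithinAt (fun z => g z * Complex.exp (-L z)) 0 (Metric.ball (0:ℂ) 1) z := by
      intro z hz
      have h1 := (hgD z hz).mul ((hL z hz).neg.cexp)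
      have h2 : deriv g z * Complex.exp (-L z) + g z * (Complex.exp (-L z) * -(deriv g z / g z)) = 0 := by
        have := hg0 z hz
        field_simp
        ring
      have h3 : HasDerivAt (fun z => g z * Complex.exp (-L z)) 0 z := by
        rw [← h2]
        exact h1
      exact h3.hasDerivWithinAt
    intro z hz
    have h1 : (fun z => g z * Complex.exp (-L z)) z = (fun z => g z * Complex.exp (-L z)) 0 := by
      have h2 := Convex.norm_image_sub_le_of_norm_hasDerivWithin_le (C := 0) hd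
        (fun x _ => by simp) (convex_ball (0:ℂ) 1) h0 hz
      rw [zero_mul] at h2
      exact sub_eq_zero.1 (norm_le_zero_iff.1 h2)
    have h2 : L 0 = c := by simp [L]
    have h3 : g z * Complex.exp (-L z) = g 0 * Complex.exp (-L 0) := h1
    rw [h3, h2, ← hc, ← Complex.exp_add]
    simp
  have hexpL : ∀ z ∈ Metric.ball (0:ℂ) 1, Complex.exp (L z) = g z := by
    intro z hz
    have h1 := hconst z hz
    rw [Complex.exp_neg] at h1
    have h2 := Complex.exp_ne_zero (L z)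
    field_simp at h1
    exact h1.symm
  let h : ℂ → ℂ := fun z => Complex.exp (L z / n)
  have hpow : ∀ z ∈ Metric.ball (0:ℂ) 1, h z ^ n = g z := by
    intro z hz
    show Complex.exp (L z / n) ^ n = g z
    rw [← Complex.exp_nat_mul, mul_div_cancel₀ _ hn']
    exact hexpL z hz
  have hle : ∀ z ∈ Metric.ball (0:ℂ) 1, ‖h z‖ ≤ 1 := by
    intro z hz
    have h1 : ‖h z‖ ^ n ≤ 1 := by
      rw [← norm_pow, hpow z hz]
      exact hg1 z hz
    exact (pow_le_one_iff_of_nonneg (norm_nonneg _) hn.ne').1 h1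
  have hdiff : DifferentiableOn ℂ h (Metric.ball (0:ℂ) 1) := by
    intro z hz
    exact (((hL z hz).div_const (n : ℂ)).cexp).differentiableAt.differentiableWithinAt
  exact ⟨h, ⟨hdiff, 1, hle⟩, hle, hpow⟩

end Pool.Agent.Helper503.Gp
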