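import Pool.Agent.Helper503.Gp.Defs
import Pool.Agent.Helper503.Gp.Char1
import Pool.Agent.Helper503.Gp.Char2
import Pool.Agent.Helper503.Gp.Lib
import Pool.Agent.Helper503.Gp.Root
import Pool.Agent.Helper503.Gp.BF1

set_option autoImplicit false

open Metric Set Filter Topology Complex
open scoped ComplexConjugate

namespace Pool.Agent.Helper503.Gp



theorem ne_add {f g : ℂ → ℂ} (hf : f ∈ HI) (hg : g ∈ HI) : f + g ∈ HI := by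
  obtain ⟨df, C, hC⟩ := hf
  obtain ⟨dg, D, hD⟩ := hg
  exact ⟨df.add dg, C + D, fun z hz => (norm_add_le _ _).trans (add_le_add (hC z hz) (hD z hz))⟩

theorem ne_smul (c : ℂ) {f : ℂ → ℂ} (hf : f ∈ HI) : c • f ∈ HI := by
  obtain ⟨df, C, hC⟩ := hf
  refine ⟨df.const_smul c, ‖c‖ * C, fun z hz => ?_⟩
  rw [Pi.smul_apply, norm_smul]
  exact mul_le_mul_of_nonneg_left (hC z hz) (norm_nonneg c)

theorem ne_mul {f g : ℂ → ℂ} (hf : f ∈ HI) (hg : g ∈ HI) : f * g ∈ HI := by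
  obtain ⟨df, C, hC⟩ := hf
  obtain ⟨dg, D, hD⟩ := hg
  refine ⟨df.mul dg, C * D, fun z hz => ?_⟩
  rw [Pi.mul_apply, norm_mul]
  exact mul_le_mul (hC z hz) (hD z hz) (norm_nonneg _) ((norm_nonneg _).trans (hC z hz))

theorem ne_one : (1 : ℂ → ℂ) ∈ HI :=
  ⟨differentiableOn_const 1, 1, fun z _ => by simp⟩

theorem ne_zero : (0 : ℂ → ℂ) ∈ HI := by
  have h := ne_smul 0 ne_one
  rwa [zero_smul] at h

theorem ne_czero {φ : (ℂ → ℂ) → ℂ} (hφ : IsChar φ) : φ 0 = 0 := by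
  have h := hφ.2.2.1 0 1 ne_one
  rwa [zero_smul, zero_mul] at h

theorem ne_pow {φ : (ℂ → ℂ) → ℂ} (hφ : IsChar φ) {h : ℂ → ℂ} (hh : h ∈ HI) (n : ℕ) :
    h ^ n ∈ HI ∧ φ (h ^ n) = φ h ^ n := by
  induction n with
  | zero => exact ⟨by rw [pow_zero]; exact ne_one, by rw [pow_zero, pow_zero]; exact hφ.1⟩
  | succ n ih =>
    refine ⟨by rw [pow_succ]; exact ne_mul ih.1 hh, ?_⟩
    rw [pow_succ, pow_succ, (hφ.2.1 _ ih.1 _ hh).2.1, ih.2]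

theorem ne_bla {ι : Type} {w : ι → ℂ} (h : BlaOn w Set.univ) (A : Set ι) : BlaOn w A := by
  refine ⟨fun i _ => h.1 i (Set.mem_univ i), ?_⟩
  exact h.2.comp_injective (i := fun i : A => (⟨i, Set.mem_univ _⟩ : (Set.univ : Set ι)))
    (fun a b hab => Subtype.ext (congrArg (fun x : (Set.univ : Set ι) => (x : ι)) hab))

theorem near_ext {φ ψ : (ℂ → ℂ) → ℂ} (hφ : IsChar φ) (hψ : IsChar ψ) (hgl : Gl φ ψ)
    (hne : ψ ≠ φ) (ε : ℝ) (hε : 0 < ε) :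
    ∃ (ι : Type) (w : ι → ℂ), BlaOn w Set.univ ∧ φ (BF w Set.univ) = 0 ∧
      ∀ A : Set ι, φ (BF w A) = 0 → 1 - ε ≤ ‖φ (BF w Aᶜ)‖ := by
  obtain ⟨r, hr0, hr1, hr⟩ := gl_rho hφ hψ hgl
  -- a function separating the characters
  obtain ⟨f0, hf0, hf0n⟩ : ∃ f ∈ HI, ψ f ≠ φ f := by
    by_contra hcon
    push Not at hcon
    apply hne
    funext f
    by_cases hf : f ∈ HI
    · exact hcon f hf
    · rw [hψ.2.2.2 f hf, hφ.2.2.2 f hf]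
  have hf1 : f0 + (-(φ f0)) • (1 : ℂ → ℂ) ∈ HI := ne_add hf0 (ne_smul _ ne_one)
  have hφ1 : φ (f0 + (-(φ f0)) • (1 : ℂ → ℂ)) = 0 := by
    rw [(hφ.2.1 _ hf0 _ (ne_smul _ ne_one)).1, hφ.2.2.1 _ _ ne_one, hφ.1]
    ring
  have hψ1 : ψ (f0 + (-(φ f0)) • (1 : ℂ → ℂ)) ≠ 0 := by
    rw [(hψ.2.1 _ hf0 _ (ne_smul _ ne_one)).1, hψ.2.2.1 _ _ ne_one, hψ.1]
    intro h
    apply hf0n
    linear_combination h
  set f1 := f0 + (-(φ f0)) • (1 : ℂ → ℂ) with hf1d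
  obtain ⟨C, hC⟩ := hf1.2
  have hC0 : 0 ≤ C := (norm_nonneg _).trans (hC 0 (by simp))
  set c : ℂ := (((C + 1)⁻¹ : ℝ) : ℂ) with hc
  have hc0 : c ≠ 0 := by
    rw [hc]
    exact_mod_cast (inv_pos.2 (by linarith : (0:ℝ) < C + 1)).ne'
  have hcn : ‖c‖ = (C + 1)⁻¹ := by
    rw [hc, Complex.norm_real, Real.norm_eq_abs, abs_of_pos (inv_pos.2 (by linarith))]
  let S : Set ℝ := {x | ∃ f ∈ HI, (∀ z ∈ Metric.ball (0:ℂ) 1, ‖f z‖ ≤ 1) ∧ φ f = 0 ∧ x = ‖ψ f‖}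
  have hSb : BddAbove S := by
    refine ⟨r, ?_⟩
    rintro x ⟨f, hf, hf1, hf2, rfl⟩
    exact hr f hf hf1 hf2
  have hmem : ‖ψ (c • f1)‖ ∈ S := by
    refine ⟨c • f1, ne_smul c hf1, fun z hz => ?_, ?_, rfl⟩
    · rw [Pi.smul_apply, norm_smul, hcn]
      have h1 := hC z hz
      have h2 : (0:ℝ) < C + 1 := by linarith
      calc (C + 1)⁻¹ * ‖f1 z‖ ≤ (C + 1)⁻¹ * (C + 1) :=
            mul_le_mul_of_nonneg_left (by linarith) (inv_pos.2 h2).le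
        _ = 1 := inv_mul_cancel₀ h2.ne'
    · rw [hφ.2.2.1 _ _ hf1, hφ1, mul_zero]
  have hpos : 0 < ‖ψ (c • f1)‖ := by
    rw [hψ.2.2.1 _ _ hf1]
    exact norm_pos_iff.2 (mul_ne_zero hc0 hψ1)
  set ρ := sSup S with hρ
  have hρ0 : 0 < ρ := lt_of_lt_of_le hpos (le_csSup hSb hmem)
  -- choice of eta
  set η : ℝ := min (ε * (1 - r) / 2) (1 / 2) with hη
  have hη0 : 0 < η := lt_min (by have := sub_pos.2 hr1; positivity) (by norm_num)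
  have hη1 : η ≤ 1 / 2 := min_le_right _ _
  have hη2 : η ≤ ε * (1 - r) / 2 := min_le_left _ _
  obtain ⟨x, ⟨f, hf, hfb, hφf, rfl⟩, hx⟩ := exists_lt_of_lt_csSup ⟨_, hmem⟩
    (show ρ * (1 - η) < sSup S by nlinarith)
  have hψf : 0 < ‖ψ f‖ := lt_of_le_of_lt (mul_nonneg hρ0.le (by linarith)) hx
  have hfne : ∃ z ∈ Metric.ball (0:ℂ) 1, f z ≠ 0 := by
    by_contra hcon
    push Not at hcon
    have h1 : ψ f = ψ 0 := (hψ.2.1 f hf 0 ne_zero).2.2 (fun z hz => hcon z hz)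
    rw [ne_czero hψ] at h1
    rw [h1, norm_zero] at hψf
    exact lt_irrefl _ hψf
  obtain ⟨ι, w, g, hw, hg, hg1, hg0, hfg⟩ := factor_HI hf hfb hfne
  have hBm : ∀ A : Set ι, BF w A ∈ HI := fun A => BF_mem (ne_bla hw A)
  have hBl : ∀ (A : Set ι), ∀ z ∈ Metric.ball (0:ℂ) 1, ‖BF w A z‖ ≤ 1 := fun A => BF_le (ne_bla hw A)
  have hmulφ : φ f = φ (BF w Set.univ) * φ g := by
    rw [← (hφ.2.1 _ (hBm _) _ hg).2.1]
    exact (hφ.2.1 _ hf _ (ne_mul (hBm _) hg)).2.2 (fun z hz => hfg z hz)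
  have hmulψ : ψ f = ψ (BF w Set.univ) * ψ g := by
    rw [← (hψ.2.1 _ (hBm _) _ hg).2.1]
    exact (hψ.2.1 _ hf _ (ne_mul (hBm _) hg)).2.2 (fun z hz => hfg z hz)
  have hψg : ψ g ≠ 0 := by
    intro h
    rw [hmulψ, h, mul_zero, norm_zero] at hψf
    exact lt_irrefl _ hψf
  have hφg : φ g ≠ 0 := by
    intro h
    apply hψg
    have hb : ∀ n : ℕ, ‖ψ g‖ ≤ r ^ (n + 1) := by
      intro n
      obtain ⟨k, hk, hk1, hkg⟩ := exists_root hg hg1 hg0 (n + 1) (Nat.succ_pos n)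
      have e1 : φ k ^ (n + 1) = φ g := by
        rw [← (ne_pow hφ hk (n + 1)).2]
        exact (hφ.2.1 _ (ne_pow hφ hk (n + 1)).1 _ hg).2.2 (fun z hz => hkg z hz)
      have e2 : ψ k ^ (n + 1) = ψ g := by
        rw [← (ne_pow hψ hk (n + 1)).2]
        exact (hψ.2.1 _ (ne_pow hψ hk (n + 1)).1 _ hg).2.2 (fun z hz => hkg z hz)
      have e3 : φ k = 0 := by
        rw [h] at e1
        exact pow_eq_zero_iff (Nat.succ_ne_zero n) |>.1 e1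
      rw [← e2, norm_pow]
      exact pow_le_pow_left₀ (norm_nonneg _) (hr k hk hk1 e3) _
    have hlim : Tendsto (fun n : ℕ => r ^ (n + 1)) atTop (𝓝 0) :=
      (tendsto_pow_atTop_nhds_zero_of_lt_one hr0 hr1).comp (tendsto_add_atTop_nat 1)
    have h0 : ‖ψ g‖ ≤ 0 := ge_of_tendsto' hlim hb
    exact norm_le_zero_iff.1 h0
  have hφB : φ (BF w Set.univ) = 0 := by
    rw [hmulφ] at hφf
    exact (mul_eq_zero.1 hφf).resolve_right hφg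
  refine ⟨ι, w, hw, hφB, fun A hA => ?_⟩
  have hψB : ‖ψ f‖ ≤ ‖ψ (BF w Set.univ)‖ := by
    rw [hmulψ, norm_mul]
    exact mul_le_of_le_one_right (norm_nonneg _) (char_le hψ hg hg1)
  have hψA : ‖ψ (BF w A)‖ ≤ ρ := le_csSup hSb ⟨BF w A, hBm A, hBl A, hA, rfl⟩
  have hsplit : ψ (BF w Set.univ) = ψ (BF w A) * ψ (BF w Aᶜ) := by
    rw [← (hψ.2.1 _ (hBm A) _ (hBm Aᶜ)).2.1]
    refine (hψ.2.1 _ (hBm _) _ (ne_mul (hBm A) (hBm Aᶜ))).2.2 (fun z hz => ?_)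
    have h1 := BF_union (ne_bla hw A) (ne_bla hw Aᶜ) disjoint_compl_right hz
    rw [Set.union_compl_self] at h1
    exact h1
  have hq : 1 - η < ‖ψ (BF w Aᶜ)‖ := by
    have h1 : ρ * (1 - η) < ρ * ‖ψ (BF w Aᶜ)‖ := by
      calc ρ * (1 - η) < ‖ψ f‖ := hx
        _ ≤ ‖ψ (BF w Set.univ)‖ := hψB
        _ = ‖ψ (BF w A)‖ * ‖ψ (BF w Aᶜ)‖ := by rw [hsplit, norm_mul]
        _ ≤ ρ * ‖ψ (BF w Aᶜ)‖ := mul_le_mul_of_nonneg_right hψA (norm_nonneg _)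
    exact lt_of_mul_lt_mul_left h1 hρ0.le
  have hq1 : ‖ψ (BF w Aᶜ)‖ ≤ 1 := char_le hψ (hBm Aᶜ) (hBl Aᶜ)
  have hsp := char_sp hφ hψ hr0 hr1 hr (hBm Aᶜ) (hBl Aᶜ)
  set q : ℝ := ‖ψ (BF w Aᶜ)‖ with hqd
  set y : ℝ := ‖φ (BF w Aᶜ)‖ with hyd
  have hd : 0 < 1 - r * q := by nlinarith
  have hkey : (1 - ε) * (1 - r * q) ≤ y * (1 - r * q) := by
    have h1 : (1 - q) * (1 + r) ≤ ε * (1 - r) := by nlinarith
    have h2 : ε * (1 - r) ≤ ε * (1 - r * q) := by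
      apply mul_le_mul_of_nonneg_left _ hε.le
      nlinarith
    nlinarith
  exact le_of_mul_le_mul_right hkey hd

end Pool.Agent.Helper503.Gp
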