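import Pool.Agent.Helper503.Gp.Defs

set_option autoImplicit false

open Metric Set Filter Topology Complex
open scoped ComplexConjugate

namespace Pool.Agent.Helper503.Gp

theorem sp_PH_nonneg {a b : ℂ} (ha : 0 < a.im) (hb : 0 < b.im) : 0 ≤ PH a b := by
  unfold PH
  positivity

theorem sp_geom (S : Finset ℤ) (m : ℤ) : ∑ n ∈ S, (3 / 4 : ℝ) ^ ((n - m).natAbs) ≤ 8 := by
  have hT : ∀ T : Finset ℕ, ∑ k ∈ T, (3 / 4 : ℝ) ^ k ≤ 4 := by
    intro T
    have h1 := (summable_geometric_of_lt_one (r := (3 / 4 : ℝ)) (by norm_num)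
      (by norm_num)).sum_le_tsum T (fun i _ => by positivity)
    rw [tsum_geometric_of_lt_one (by norm_num) (by norm_num)] at h1
    have h2 : (1 - 3 / 4 : ℝ)⁻¹ = 4 := by norm_num
    rw [h2] at h1
    exact h1
  have h1 : ∑ n ∈ S.filter (fun n => m ≤ n), (3 / 4 : ℝ) ^ ((n - m).natAbs) ≤ 4 := by
    rw [← Finset.sum_image (s := S.filter (fun n => m ≤ n)) (g := fun n => (n - m).natAbs)
      (f := fun k => (3 / 4 : ℝ) ^ k)]
    · exact hT _
    · intro a ha b hb hab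
      have h3 := (Finset.mem_filter.1 (Finset.mem_coe.1 ha)).2
      have h4 := (Finset.mem_filter.1 (Finset.mem_coe.1 hb)).2
      have h5 : (a - m).natAbs = (b - m).natAbs := hab
      omega
  have h2 : ∑ n ∈ S.filter (fun n => ¬ m ≤ n), (3 / 4 : ℝ) ^ ((n - m).natAbs) ≤ 4 := by
    rw [← Finset.sum_image (s := S.filter (fun n => ¬ m ≤ n)) (g := fun n => (n - m).natAbs)
      (f := fun k => (3 / 4 : ℝ) ^ k)]
    · exact hT _
    · intro a ha b hb hab
      have h3 := (Finset.mem_filter.1 (Finset.mem_coe.1 ha)).2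
      have h4 := (Finset.mem_filter.1 (Finset.mem_coe.1 hb)).2
      have h5 : (a - m).natAbs = (b - m).natAbs := hab
      omega
  rw [← Finset.sum_filter_add_sum_filter_not S (fun n => m ≤ n)]
  linarith

theorem sp_q {Y y ye d : ℝ} (hY : 0 < Y) (hy : Y / 2 ≤ y) (hy2 : y ≤ Y) (hye : 0 < ye) :
    2 * (Y * ye / (d ^ 2 + (Y + ye) ^ 2)) ≤ 4 * y * ye / (d ^ 2 + (y + ye) ^ 2) ∧
    4 * y * ye / (d ^ 2 + (y + ye) ^ 2) ≤ 16 * (Y * ye / (d ^ 2 + (Y + ye) ^ 2)) := by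
  have hy0 : 0 < y := by linarith
  constructor
  · have e1 : 2 * (Y * ye / (d ^ 2 + (Y + ye) ^ 2)) = 2 * Y * ye / (d ^ 2 + (Y + ye) ^ 2) := by
      ring
    rw [e1]
    refine div_le_div₀ (by positivity) ?_ (by positivity) ?_
    · exact mul_le_mul_of_nonneg_right (by linarith) hye.le
    · have h1 : (y + ye) ^ 2 ≤ (Y + ye) ^ 2 := pow_le_pow_left₀ (by positivity) (by linarith) 2
      linarith
  · have e1 : 16 * (Y * ye / (d ^ 2 + (Y + ye) ^ 2)) =
        4 * Y * ye / ((d ^ 2 + (Y + ye) ^ 2) / 4) := by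
      have h0 : d ^ 2 + (Y + ye) ^ 2 ≠ 0 := by positivity
      field_simp
      ring
    rw [e1]
    refine div_le_div₀ (by positivity) ?_ (by positivity) ?_
    · exact mul_le_mul_of_nonneg_right (by linarith) hye.le
    · have h1 : ((Y + ye) / 2) ^ 2 ≤ (y + ye) ^ 2 :=
        pow_le_pow_left₀ (by positivity) (by linarith) 2
      have h2 : ((Y + ye) / 2) ^ 2 = (Y + ye) ^ 2 / 4 := by ring
      have h3 := sq_nonneg d
      linarith

theorem sp_min {s Y ye : ℝ} (hs : 0 < s) (hY : 0 < Y) (hye : 0 < ye) (k : ℕ)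
    (h : ye * 2 ^ k ≤ Y ∨ Y * 2 ^ k ≤ 2 * ye) :
    min (s / 2) (Y * ye / (Y + ye) ^ 2) ≤ Real.sqrt s * (3 / 4) ^ k := by
  have h2k : (0 : ℝ) < 2 ^ k := by positivity
  have hk : (1 / 2 : ℝ) ^ k = 1 / 2 ^ k := by rw [one_div, inv_pow, one_div]
  have ht : Y * ye / (Y + ye) ^ 2 ≤ 2 * (1 / 2) ^ k := by
    rw [hk, div_le_iff₀ (by positivity), mul_one_div, div_mul_eq_mul_div, le_div_iff₀ h2k]
    rcases h with h | h
    · have h1 : Y * (ye * 2 ^ k) ≤ Y * Y := mul_le_mul_of_nonneg_left h hY.le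
      nlinarith [mul_pos hY hye, sq_nonneg ye, sq_nonneg Y]
    · have h1 : ye * (Y * 2 ^ k) ≤ ye * (2 * ye) := mul_le_mul_of_nonneg_left h hye.le
      nlinarith [mul_pos hY hye, sq_nonneg ye, sq_nonneg Y]
  have hM0 : 0 ≤ min (s / 2) (Y * ye / (Y + ye) ^ 2) :=
    le_min (by positivity) (by positivity)
  have h1 : (min (s / 2) (Y * ye / (Y + ye) ^ 2)) ^ 2 ≤ (Real.sqrt s * (3 / 4) ^ k) ^ 2 := by
    have e1 : (Real.sqrt s * (3 / 4) ^ k) ^ 2 = s * (9 / 16) ^ k := by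
      rw [mul_pow, Real.sq_sqrt hs.le, ← pow_mul, mul_comm k 2, pow_mul]
      norm_num
    rw [e1]
    calc (min (s / 2) (Y * ye / (Y + ye) ^ 2)) ^ 2
        = min (s / 2) (Y * ye / (Y + ye) ^ 2) * min (s / 2) (Y * ye / (Y + ye) ^ 2) := by ring
      _ ≤ (s / 2) * (2 * (1 / 2) ^ k) :=
          mul_le_mul (min_le_left _ _) ((min_le_right _ _).trans ht) hM0 (by positivity)
      _ = s * (1 / 2) ^ k := by ring
      _ ≤ s * (9 / 16) ^ k := by
          refine mul_le_mul_of_nonneg_left ?_ hs.le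
          exact pow_le_pow_left₀ (by norm_num) (by norm_num) k
  exact (pow_le_pow_iff_left₀ hM0 (by positivity) two_ne_zero).1 h1

theorem sp_k {ye : ℝ} (hye : 0 < ye) (m n : ℤ) (h1 : (2 : ℝ) ^ m < ye)
    (h2 : ye ≤ (2 : ℝ) ^ (m + 1)) :
    ye * 2 ^ ((n - m).natAbs) ≤ (2 : ℝ) ^ (n + 1) ∨
      (2 : ℝ) ^ (n + 1) * 2 ^ ((n - m).natAbs) ≤ 2 * ye := by
  rcases le_total m n with h | h
  · left
    have e1 : (2 : ℝ) ^ (n + 1) = (2 : ℝ) ^ (m + 1) * 2 ^ ((n - m).natAbs) := by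
      rw [← zpow_natCast, ← zpow_add₀ two_ne_zero]
      congr 1
      omega
    rw [e1]
    exact mul_le_mul_of_nonneg_right h2 (by positivity)
  · right
    have e1 : (2 : ℝ) ^ (n + 1) * 2 ^ ((n - m).natAbs) = 2 * (2 : ℝ) ^ m := by
      rw [← zpow_natCast, ← zpow_add₀ two_ne_zero, ← zpow_one_add₀ two_ne_zero]
      congr 1
      omega
    rw [e1]
    linarith

/-- hcol is the finite colouring lemma (proved elsewhere). -/
theorem split_of_colouring
    (hcol : ∀ {ι : Type} (G : Finset ι) (x : ι → ℝ) (K : ℕ), 0 < K →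
      ∃ κ : ι → Fin K, ∀ (q : ℝ → ℝ) (x0 M : ℝ), 0 ≤ M → (∀ t, 0 ≤ q t) →
        MonotoneOn q (Set.Iic x0) → AntitoneOn q (Set.Ici x0) → (∀ j ∈ G, q (x j) ≤ M) →
        ∀ c c' : Fin K, ∑ j ∈ G.filter (fun j => κ j = c), q (x j) ≤
          ∑ j ∈ G.filter (fun j => κ j = c'), q (x j) + 2 * M)
    {ι : Type} (w : ι → ℂ) (A : Set ι) (hA : ∀ i ∈ A, 0 < (w i).im)
    (hfin : ∀ t : ℝ, 0 < t → {i | i ∈ A ∧ t ≤ (w i).im}.Finite)
    (hs : ∀ e : ℂ, 0 < e.im → Summable fun i : A => PH (w i) e) (K : ℕ) (hK : 0 < K) :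
    ∃ κ : ι → Fin K, ∀ e : ℂ, 0 < e.im → ∀ s : ℝ, 0 < s → s ≤ 1 →
      (∀ i ∈ A, PH (w i) e ≤ s) → ∀ c c' : Fin K,
        mu w (A ∩ κ ⁻¹' {c}) e ≤ 8 * mu w (A ∩ κ ⁻¹' {c'}) e + 1000 * Real.sqrt s := by
  classical
  have hγ : ∀ i, ∃ n : ℤ, i ∈ A → (2 : ℝ) ^ n < (w i).im ∧ (w i).im ≤ (2 : ℝ) ^ (n + 1) := by
    intro i
    by_cases hi : i ∈ A
    · obtain ⟨n, hn⟩ := exists_mem_Ioc_zpow (hA i hi) (one_lt_two (α := ℝ))
      exact ⟨n, fun _ => hn⟩
    · exact ⟨0, fun h => absurd h hi⟩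
  choose γ hγ using hγ
  have hGfin : ∀ n : ℤ, {i | i ∈ A ∧ γ i = n}.Finite := by
    intro n
    refine (hfin ((2 : ℝ) ^ n) (by positivity)).subset ?_
    rintro i ⟨hi, rfl⟩
    exact ⟨hi, (hγ i hi).1.le⟩
  obtain ⟨G, hG⟩ : ∃ G : ℤ → Finset ι, ∀ n i, i ∈ G n ↔ i ∈ A ∧ γ i = n :=
    ⟨fun n => (hGfin n).toFinset, fun n i => (hGfin n).mem_toFinset⟩
  choose κ0 hκ0 using fun n : ℤ => hcol (G n) (fun i => (w i).re) K hK
  refine ⟨fun i => κ0 (γ i) i, fun e he s hs0 hs1 hsm c c' => ?_⟩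
  obtain ⟨κ, hκ⟩ : ∃ κ : ι → Fin K, κ = fun i => κ0 (γ i) i := ⟨_, rfl⟩
  rw [← hκ]
  obtain ⟨f, hf⟩ : ∃ f : ι → ℝ, f = fun i => PH (w i) e := ⟨_, rfl⟩
  have hgen : ∀ n : ℤ, ∑ j ∈ (G n).filter (fun j => κ j = c), f j ≤
      8 * ∑ j ∈ (G n).filter (fun j => κ j = c'), f j +
        32 * min (s / 2) ((2 : ℝ) ^ (n + 1) * e.im / ((2 : ℝ) ^ (n + 1) + e.im) ^ 2) := by
    intro n
    have hfilt : ∀ c : Fin K, (G n).filter (fun j => κ j = c) =
        (G n).filter (fun j => κ0 n j = c) := by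
      intro c
      refine Finset.filter_congr fun j hj => ?_
      have h1 := ((hG n j).1 hj).2
      rw [hκ]
      change κ0 (γ j) j = c ↔ κ0 n j = c
      rw [h1]
    have hY : (0 : ℝ) < (2 : ℝ) ^ (n + 1) := by positivity
    have hYn : (2 : ℝ) ^ (n + 1) / 2 = (2 : ℝ) ^ n := by
      rw [zpow_add_one₀ two_ne_zero, mul_div_cancel_right₀ _ two_ne_zero]
    have hj : ∀ j ∈ G n, 2 * ((2 : ℝ) ^ (n + 1) * e.im /
        (((w j).re - e.re) ^ 2 + ((2 : ℝ) ^ (n + 1) + e.im) ^ 2)) ≤ f j ∧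
        f j ≤ 16 * ((2 : ℝ) ^ (n + 1) * e.im /
          (((w j).re - e.re) ^ 2 + ((2 : ℝ) ^ (n + 1) + e.im) ^ 2)) := by
      intro j hj
      obtain ⟨hjA, hjn⟩ := (hG n j).1 hj
      have h1 := hγ j hjA
      rw [hjn] at h1
      have h2 := sp_q (d := (w j).re - e.re) hY (by rw [hYn]; exact h1.1.le) h1.2 he
      rw [hf]
      exact h2
    have hcl := hκ0 n (fun t => (2 : ℝ) ^ (n + 1) * e.im /
        ((t - e.re) ^ 2 + ((2 : ℝ) ^ (n + 1) + e.im) ^ 2)) e.re
      (min (s / 2) ((2 : ℝ) ^ (n + 1) * e.im / ((2 : ℝ) ^ (n + 1) + e.im) ^ 2))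
      (le_min (by positivity) (by positivity)) (fun t => by positivity)
      (by
        intro a ha b hb hab
        have ha' : a ≤ e.re := ha
        have hb' : b ≤ e.re := hb
        refine div_le_div_of_nonneg_left (by positivity) (by positivity) ?_
        have h1 : (b - e.re) ^ 2 ≤ (a - e.re) ^ 2 := by nlinarith
        linarith)
      (by
        intro a ha b hb hab
        have ha' : e.re ≤ a := ha
        have hb' : e.re ≤ b := hb
        refine div_le_div_of_nonneg_left (by positivity) (by positivity) ?_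
        have h1 : (a - e.re) ^ 2 ≤ (b - e.re) ^ 2 := by nlinarith
        linarith)
      (by
        intro j hjG
        refine le_min ?_ ?_
        · have h1 := (hj j hjG).1
          have h2 := hsm j ((hG n j).1 hjG).1
          have h3 : f j ≤ s := by rw [hf]; exact h2
          change (2 : ℝ) ^ (n + 1) * e.im /
            (((w j).re - e.re) ^ 2 + ((2 : ℝ) ^ (n + 1) + e.im) ^ 2) ≤ s / 2
          linarith
        · refine div_le_div_of_nonneg_left (by positivity) (by positivity) ?_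
          have h1 := sq_nonneg ((w j).re - e.re)
          linarith) c c'
    rw [hfilt c, hfilt c']
    have h1 : ∑ j ∈ (G n).filter (fun j => κ0 n j = c), f j ≤
        16 * ∑ j ∈ (G n).filter (fun j => κ0 n j = c), ((2 : ℝ) ^ (n + 1) * e.im /
          (((w j).re - e.re) ^ 2 + ((2 : ℝ) ^ (n + 1) + e.im) ^ 2)) := by
      rw [Finset.mul_sum]
      exact Finset.sum_le_sum fun j hj' => (hj j (Finset.mem_of_mem_filter j hj')).2
    have h2 : 2 * ∑ j ∈ (G n).filter (fun j => κ0 n j = c'), ((2 : ℝ) ^ (n + 1) * e.im /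
          (((w j).re - e.re) ^ 2 + ((2 : ℝ) ^ (n + 1) + e.im) ^ 2)) ≤
        ∑ j ∈ (G n).filter (fun j => κ0 n j = c'), f j := by
      rw [Finset.mul_sum]
      exact Finset.sum_le_sum fun j hj' => (hj j (Finset.mem_of_mem_filter j hj')).1
    have h3 : ∑ j ∈ (G n).filter (fun j => κ0 n j = c), ((2 : ℝ) ^ (n + 1) * e.im /
          (((w j).re - e.re) ^ 2 + ((2 : ℝ) ^ (n + 1) + e.im) ^ 2)) ≤
        ∑ j ∈ (G n).filter (fun j => κ0 n j = c'), ((2 : ℝ) ^ (n + 1) * e.im /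
          (((w j).re - e.re) ^ 2 + ((2 : ℝ) ^ (n + 1) + e.im) ^ 2)) +
        2 * min (s / 2) ((2 : ℝ) ^ (n + 1) * e.im / ((2 : ℝ) ^ (n + 1) + e.im) ^ 2) := hcl
    linarith
  have hf0 : ∀ i ∈ A, 0 ≤ f i := by
    intro i hi
    rw [hf]
    exact sp_PH_nonneg (hA i hi) he
  have hB : ∀ c : Fin K, mu w (A ∩ κ ⁻¹' {c}) e = ∑' i, (A ∩ κ ⁻¹' {c}).indicator f i := by
    intro c
    rw [← tsum_subtype, hf]
    rfl
  have hsumA : Summable (A.indicator f) := by
    refine summable_subtype_iff_indicator.1 ?_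
    rw [hf]
    exact hs e he
  have hsumB : ∀ c : Fin K, Summable ((A ∩ κ ⁻¹' {c}).indicator f) := by
    intro c
    have h := hsumA.indicator (κ ⁻¹' {c})
    rwa [Set.indicator_indicator, Set.inter_comm] at h
  rw [hB c, hB c']
  obtain ⟨m, hm1, hm2⟩ := exists_mem_Ioc_zpow he (one_lt_two (α := ℝ))
  refine (hsumB c).tsum_le_of_sum_le fun F => ?_
  calc ∑ i ∈ F, (A ∩ κ ⁻¹' {c}).indicator f i
      = ∑ n ∈ F.image γ, ∑ i ∈ F.filter (fun i => γ i = n),
          (A ∩ κ ⁻¹' {c}).indicator f i :=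
        (Finset.sum_fiberwise_of_maps_to (fun i hi => Finset.mem_image_of_mem γ hi) _).symm
    _ ≤ ∑ n ∈ F.image γ, ∑ j ∈ (G n).filter (fun j => κ j = c), f j := by
        refine Finset.sum_le_sum fun n _ => ?_
        have h1 : ∑ i ∈ F.filter (fun i => γ i = n), (A ∩ κ ⁻¹' {c}).indicator f i =
            ∑ i ∈ (F.filter (fun i => γ i = n)).filter (fun i => i ∈ A ∩ κ ⁻¹' {c}), f i := by
          rw [Finset.sum_filter (fun i => i ∈ A ∩ κ ⁻¹' {c})]
          exact Finset.sum_congr rfl fun i _ => Set.indicator_apply _ _ _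
        rw [h1]
        refine Finset.sum_le_sum_of_subset_of_nonneg ?_ ?_
        · intro i hi
          obtain ⟨h2, h3, h4⟩ := Finset.mem_filter.1 hi
          exact Finset.mem_filter.2 ⟨(hG n i).2 ⟨h3, (Finset.mem_filter.1 h2).2⟩, h4⟩
        · intro i hi _
          exact hf0 i ((hG n i).1 (Finset.mem_filter.1 hi).1).1
    _ ≤ ∑ n ∈ F.image γ, (8 * ∑ j ∈ (G n).filter (fun j => κ j = c'), f j +
        32 * min (s / 2) ((2 : ℝ) ^ (n + 1) * e.im / ((2 : ℝ) ^ (n + 1) + e.im) ^ 2)) :=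
        Finset.sum_le_sum fun n _ => hgen n
    _ = 8 * ∑ n ∈ F.image γ, ∑ j ∈ (G n).filter (fun j => κ j = c'), f j +
        32 * ∑ n ∈ F.image γ,
          min (s / 2) ((2 : ℝ) ^ (n + 1) * e.im / ((2 : ℝ) ^ (n + 1) + e.im) ^ 2) := by
        rw [Finset.sum_add_distrib, ← Finset.mul_sum, ← Finset.mul_sum]
    _ ≤ 8 * ∑' i, (A ∩ κ ⁻¹' {c'}).indicator f i + 1000 * Real.sqrt s := by
        have h1 : ∑ n ∈ F.image γ, ∑ j ∈ (G n).filter (fun j => κ j = c'), f j ≤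
            ∑' i, (A ∩ κ ⁻¹' {c'}).indicator f i := by
          rw [← Finset.sum_biUnion]
          · have h2 : ∑ j ∈ (F.image γ).biUnion (fun n => (G n).filter (fun j => κ j = c')), f j =
                ∑ j ∈ (F.image γ).biUnion (fun n => (G n).filter (fun j => κ j = c')),
                  (A ∩ κ ⁻¹' {c'}).indicator f j := by
              refine Finset.sum_congr rfl fun j hj => ?_
              obtain ⟨n, _, hn⟩ := Finset.mem_biUnion.1 hj
              obtain ⟨h3, h4⟩ := Finset.mem_filter.1 hn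
              rw [Set.indicator_of_mem]
              exact ⟨((hG n j).1 h3).1, h4⟩
            rw [h2]
            exact (hsumB c').sum_le_tsum _ fun i _ =>
              Set.indicator_nonneg (fun i hi => hf0 i hi.1) i
          · intro n _ n' _ hnn
            refine Finset.disjoint_left.2 fun j hj hj' => hnn ?_
            have h3 := ((hG n j).1 (Finset.mem_filter.1 hj).1).2
            have h4 := ((hG n' j).1 (Finset.mem_filter.1 hj').1).2
            exact h3.symm.trans h4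
        have h2 : ∑ n ∈ F.image γ,
            min (s / 2) ((2 : ℝ) ^ (n + 1) * e.im / ((2 : ℝ) ^ (n + 1) + e.im) ^ 2) ≤
            8 * Real.sqrt s := by
          calc _ ≤ ∑ n ∈ F.image γ, Real.sqrt s * (3 / 4) ^ ((n - m).natAbs) :=
                Finset.sum_le_sum fun n _ =>
                  sp_min hs0 (by positivity) he _ (sp_k he m n hm1 hm2)
            _ = Real.sqrt s * ∑ n ∈ F.image γ, (3 / 4) ^ ((n - m).natAbs) := by
                rw [← Finset.mul_sum]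
            _ ≤ Real.sqrt s * 8 :=
                mul_le_mul_of_nonneg_left (sp_geom _ m) (Real.sqrt_nonneg _)
            _ = 8 * Real.sqrt s := mul_comm _ _
        have h3 := Real.sqrt_nonneg s
        linarith

end Pool.Agent.Helper503.Gp
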