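import Pool.Agent.Helper503.Gp.Defs
import Pool.Agent.Helper503.Gp.Colour
import Pool.Agent.Helper503.Gp.Split0

set_option autoImplicit false

open Metric Set Filter Topology Complex
open scoped ComplexConjugate

namespace Pool.Agent.Helper503.Gp

theorem split {ι : Type} (w : ι → ℂ) (A : Set ι) (hA : ∀ i ∈ A, 0 < (w i).im)
    (hfin : ∀ t : ℝ, 0 < t → {i | i ∈ A ∧ t ≤ (w i).im}.Finite)
    (hs : ∀ e : ℂ, 0 < e.im → Summable fun i : A => PH (w i) e) (K : ℕ) (hK : 0 < K) :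
    ∃ κ : ι → Fin K, ∀ e : ℂ, 0 < e.im → ∀ s : ℝ, 0 < s → s ≤ 1 →
      (∀ i ∈ A, PH (w i) e ≤ s) → ∀ c c' : Fin K,
        mu w (A ∩ κ ⁻¹' {c}) e ≤ 8 * mu w (A ∩ κ ⁻¹' {c'}) e + 1000 * Real.sqrt s :=
  split_of_colouring (fun {_} G x K hK => colouring G x K hK) w A hA hfin hs K hK

end Pool.Agent.Helper503.Gp
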