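import Pool.Agent.Helper503.Gp.Defs

set_option autoImplicit false

open Metric Set Filter Topology Complex
open scoped ComplexConjugate

namespace Pool.Agent.Helper503.Gp

theorem gp9_PH_le (w e : ℂ) (hw : 0 < w.im) (he : 0 < e.im) (he1 : e.im ≤ 1) (he2 : ‖e‖ ≤ 2)
    (hr : 4 ≤ ‖w‖) : PH w e ≤ 10 * PH w I := by
  have h1 : ‖e‖ ^ 2 = e.re ^ 2 + e.im ^ 2 := by
    rw [← Complex.normSq_eq_norm_sq, Complex.normSq_apply]; ring
  have h2 : ‖w‖ ^ 2 = w.re ^ 2 + w.im ^ 2 := by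
    rw [← Complex.normSq_eq_norm_sq, Complex.normSq_apply]; ring
  have h3 : e.re ^ 2 + e.im ^ 2 ≤ 4 := by
    rw [← h1]; nlinarith [norm_nonneg e]
  have h4 : 16 ≤ w.re ^ 2 + w.im ^ 2 := by
    rw [← h2]; nlinarith [norm_nonneg w]
  unfold PH
  rw [Complex.I_re, Complex.I_im]
  set a := w.re
  set y := w.im
  set b := e.re
  set c := e.im
  have hD1 : 0 < (a - b) ^ 2 + (y + c) ^ 2 := by positivity
  have hD2 : 0 < (a - 0) ^ 2 + (y + 1) ^ 2 := by positivity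
  have h5 : (a ^ 2 + y ^ 2) / 4 ≤ (a - b) ^ 2 + (y + c) ^ 2 := by
    nlinarith [sq_nonneg (a - 2 * b), mul_pos hw he, sq_nonneg c]
  have h6 : (a - 0) ^ 2 + (y + 1) ^ 2 ≤ 25 / 16 * (a ^ 2 + y ^ 2) := by
    nlinarith [sq_nonneg (y - 4), sq_nonneg a]
  have h7 : c * ((a - 0) ^ 2 + (y + 1) ^ 2) ≤ 10 * ((a - b) ^ 2 + (y + c) ^ 2) := by
    nlinarith
  rw [← mul_div_assoc, div_le_div_iff₀ hD1 hD2]
  nlinarith

theorem gp9_PH_nonneg (w e : ℂ) (hw : 0 < w.im) (he : 0 < e.im) : 0 ≤ PH w e := by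
  unfold PH
  positivity

theorem far_tail {ι : Type} (w : ι → ℂ) (A : Set ι) (h : BlaOn w A) (ε : ℝ) (hε : 0 < ε) :
    ∃ R : ℝ, ∀ e : ℂ, 0 < e.im → e.im ≤ 1 → ‖e‖ ≤ 2 →
      mu w (A ∩ {i | R ≤ ‖w i‖}) e ≤ ε := by
  have hs : Summable (A.indicator fun i => PH (w i) I) := summable_subtype_iff_indicator.1 h.2
  set g := A.indicator fun i => PH (w i) I with hg
  have hg0 : ∀ i, 0 ≤ g i := by
    intro i
    exact Set.indicator_nonneg (fun i hi => gp9_PH_nonneg _ _ (h.1 i hi) (by simp)) i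
  have hlim := tendsto_tsum_compl_atTop_zero g
  have hev := hlim.eventually_lt_const (u := ε / 10) (by positivity)
  obtain ⟨F, hF⟩ := hev.exists
  refine ⟨5 + ∑ i ∈ F, ‖w i‖, fun e he he1 he2 => ?_⟩
  have hS : ∀ i ∈ A ∩ {i | 5 + ∑ i ∈ F, ‖w i‖ ≤ ‖w i‖}, i ∉ F ∧ i ∈ A ∧ 4 ≤ ‖w i‖ := by
    rintro i ⟨hiA, hi⟩
    have hi' : 5 + ∑ i ∈ F, ‖w i‖ ≤ ‖w i‖ := hi
    have h0 : 0 ≤ ∑ i ∈ F, ‖w i‖ := Finset.sum_nonneg fun _ _ => norm_nonneg _
    refine ⟨fun hiF => ?_, hiA, by linarith⟩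
    have h1 : ‖w i‖ ≤ ∑ i ∈ F, ‖w i‖ :=
      Finset.single_le_sum (f := fun i => ‖w i‖) (fun _ _ => norm_nonneg _) hiF
    linarith
  set S := A ∩ {i | 5 + ∑ i ∈ F, ‖w i‖ ≤ ‖w i‖} with hSd
  have hle : ∀ i, S.indicator (fun i => PH (w i) e) i ≤ 10 * ({x | x ∉ F} : Set ι).indicator g i := by
    intro i
    by_cases hi : i ∈ S
    · obtain ⟨h1, h2, h3⟩ := hS i hi
      rw [Set.indicator_of_mem hi, Set.indicator_of_mem (show i ∈ ({x | x ∉ F} : Set ι) from h1),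
        hg, Set.indicator_of_mem h2]
      exact gp9_PH_le _ _ (h.1 i h2) he he1 he2 h3
    · rw [Set.indicator_of_notMem hi]
      exact mul_nonneg (by norm_num) (Set.indicator_nonneg (fun i _ => hg0 i) i)
  have hnn : ∀ i, 0 ≤ S.indicator (fun i => PH (w i) e) i := by
    intro i
    exact Set.indicator_nonneg (fun i hi => gp9_PH_nonneg _ _ (h.1 i (hS i hi).2.1) he) i
  have hs2 : Summable fun i => 10 * ({x | x ∉ F} : Set ι).indicator g i :=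
    (hs.indicator _).mul_left 10
  have hs3 : Summable (S.indicator (fun i => PH (w i) e)) := Summable.of_nonneg_of_le hnn hle hs2
  unfold mu
  rw [tsum_subtype S (fun i => PH (w i) e)]
  refine (hs3.tsum_le_tsum hle hs2).trans ?_
  rw [tsum_mul_left, ← tsum_subtype ({x | x ∉ F} : Set ι) g]
  have hF' : ∑' (a : ↑({x | x ∉ F} : Set ι)), g ↑a < ε / 10 := hF
  linarith

theorem bounded_fin {ι : Type} (w : ι → ℂ) (A : Set ι) (h : BlaOn w A) (R : ℝ) (t : ℝ)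
    (ht : 0 < t) : {i | i ∈ A ∩ {i | ‖w i‖ < R} ∧ t ≤ (w i).im}.Finite := by
  have hs : Summable (A.indicator fun i => PH (w i) I) := summable_subtype_iff_indicator.1 h.2
  have hδ : 0 < 4 * t / (|R| + 1) ^ 2 := by positivity
  have hev := hs.tendsto_cofinite_zero.eventually_lt_const (u := 4 * t / (|R| + 1) ^ 2) hδ
  rw [Filter.eventually_cofinite] at hev
  refine hev.subset ?_
  rintro i ⟨⟨hiA, hiR⟩, hit⟩
  have hiR' : ‖w i‖ < R := hiR
  show ¬ _ < _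
  rw [Set.indicator_of_mem hiA, not_lt]
  have hR : R ≤ |R| := le_abs_self R
  have h2 : ‖w i‖ ^ 2 = (w i).re ^ 2 + (w i).im ^ 2 := by
    rw [← Complex.normSq_eq_norm_sq, Complex.normSq_apply]; ring
  have h3 : (w i).im ≤ ‖w i‖ := Complex.im_le_norm _
  have h4 := norm_nonneg (w i)
  have hy : 0 < (w i).im := lt_of_lt_of_le ht hit
  unfold PH
  rw [Complex.I_re, Complex.I_im]
  have hD2 : 0 < ((w i).re - 0) ^ 2 + ((w i).im + 1) ^ 2 := by positivity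
  have h5 : ((w i).re - 0) ^ 2 + ((w i).im + 1) ^ 2 ≤ (|R| + 1) ^ 2 := by
    nlinarith
  rw [mul_one]
  exact div_le_div₀ (by positivity) (by linarith) hD2 h5

end Pool.Agent.Helper503.Gp
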