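import Pool.Agent.Helper503.Gp.Defs
import Pool.Agent.Helper503.Gp.Lib
import Pool.Agent.Helper503.Gp.Char1
import Pool.Agent.Helper503.Gp.BF2
import Pool.Agent.Helper503.Gp.Harn
import Pool.Agent.Helper503.Gp.Cay

set_option autoImplicit false

open Metric Set Filter Topology Complex
open scoped ComplexConjugate

namespace Pool.Agent.Helper503.Gp



theorem thick_HI_mul {f g : ℂ → ℂ} (hf : f ∈ HI) (hg : g ∈ HI) : f * g ∈ HI := by
  obtain ⟨h1, C, hC⟩ := hf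
  obtain ⟨h2, C', hC'⟩ := hg
  refine ⟨h1.mul h2, C * C', ?_⟩
  intro z hz
  have h3 : ‖(f * g) z‖ = ‖f z‖ * ‖g z‖ := norm_mul _ _
  rw [h3]
  exact mul_le_mul (hC z hz) (hC' z hz) (norm_nonneg _) ((norm_nonneg _).trans (hC z hz))

theorem thick_HI_add {f g : ℂ → ℂ} (hf : f ∈ HI) (hg : g ∈ HI) : f + g ∈ HI := by
  obtain ⟨h1, C, hC⟩ := hf
  obtain ⟨h2, C', hC'⟩ := hg
  refine ⟨h1.add h2, C + C', ?_⟩
  intro z hz
  exact (norm_add_le _ _).trans (add_le_add (hC z hz) (hC' z hz))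

theorem thick_HI_smul {f : ℂ → ℂ} (c : ℂ) (hf : f ∈ HI) : c • f ∈ HI := by
  obtain ⟨h1, C, hC⟩ := hf
  refine ⟨h1.const_smul c, ‖c‖ * C, ?_⟩
  intro z hz
  have h3 : ‖(c • f) z‖ = ‖c‖ * ‖f z‖ := norm_mul _ _
  rw [h3]
  exact mul_le_mul_of_nonneg_left (hC z hz) (norm_nonneg _)

theorem thick_HI_one : (1 : ℂ → ℂ) ∈ HI :=
  ⟨differentiableOn_const 1, 1, fun z _ => by simp⟩

theorem thick_HI_pow {f : ℂ → ℂ} (hf : f ∈ HI) (n : ℕ) : f ^ n ∈ HI := by
  induction n with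
  | zero => rw [pow_zero]; exact thick_HI_one
  | succ n ih => rw [pow_succ]; exact thick_HI_mul ih hf

theorem thick_char_pow {φ : (ℂ → ℂ) → ℂ} (hφ : IsChar φ) {f : ℂ → ℂ} (hf : f ∈ HI) (n : ℕ) :
    φ (f ^ n) = φ f ^ n := by
  induction n with
  | zero => rw [pow_zero, pow_zero]; exact hφ.1
  | succ n ih =>
    rw [pow_succ, (hφ.2.1 _ (thick_HI_pow hf n) f hf).2.1, ih, pow_succ]

theorem thick_mono {ι : Type} {w : ι → ℂ} {A B : Set ι} (h : BlaOn w B) (hAB : A ⊆ B) :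
    BlaOn w A := by
  refine ⟨fun i hi => h.1 i (hAB hi), ?_⟩
  exact h.2.comp_injective (i := Set.inclusion hAB) (Set.inclusion_injective hAB)

theorem thick_mu_mono {ι : Type} {w : ι → ℂ} {A B : Set ι} (h : BlaOn w B) (hAB : A ⊆ B) {e : ℂ}
    (he : 0 < e.im) : mu w A e ≤ mu w B e := by
  classical
  have hsB := summable_PH h he
  have hsA := summable_PH (thick_mono h hAB) he
  unfold mu
  rw [tsum_subtype A (fun i => PH (w i) e), tsum_subtype B (fun i => PH (w i) e)]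
  apply Summable.tsum_le_tsum
  · intro i
    by_cases hi : i ∈ A
    · rw [Set.indicator_of_mem hi, Set.indicator_of_mem (hAB hi)]
    · rw [Set.indicator_of_notMem hi]
      apply Set.indicator_nonneg
      intro j hj
      exact (PH_pos (h.1 j hj) he).le
  · exact summable_subtype_iff_indicator.1 hsA
  · exact summable_subtype_iff_indicator.1 hsB

theorem thick_half {ι : Type} {w : ι → ℂ} {A : Set ι} (h : BlaOn w A) {e : ℂ} (he : 0 < e.im)
    (i : ι) (hi : i ∈ A) (hC : 648 * mu w A e < mu w A (w i)) : PH (w i) e ≤ 1 / 2 := by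
  by_contra hlt
  push Not at hlt
  have h1 : ∀ j : A, PH (w j) (w i) ≤ 648 * PH (w j) e := by
    intro j
    have h2 := harnack (x := w j) (a := w i) (b := e) (h.1 j j.2) (h.1 i hi) he (s := 1 / 2)
      (by norm_num) hlt.le
    norm_num at h2
    exact h2
  have h3 : mu w A (w i) ≤ 648 * mu w A e := by
    unfold mu
    rw [← tsum_mul_left]
    exact Summable.tsum_le_tsum h1 (summable_PH h (h.1 i hi)) ((summable_PH h he).mul_left _)
  linarith

theorem thick_low {ι : Type} (w : ι → ℂ) (D D' : Set ι) (h : BlaOn w (D ∪ D'))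
    (hd : Disjoint D D') (hm : ∀ e : ℂ, 0 < e.im → mu w D e ≤ 8 * mu w D' e + 1000)
    (z : ℂ) (hz : z ∈ Metric.ball (0 : ℂ) 1) :
    Real.exp (-2016) ≤ ‖BF w (D ∩ {i | 653833 < mu w (D ∪ D') (w i)}) z‖ ^ 2 +
      (1 - ‖BF w D' z‖ ^ 2) ^ 3 := by
  obtain ⟨e, he, rfl⟩ := cay_surj hz
  have hD : BlaOn w D := thick_mono h Set.subset_union_left
  have hD' : BlaOn w D' := thick_mono h Set.subset_union_right
  have hZ : BlaOn w (D ∩ {i | 653833 < mu w (D ∪ D') (w i)}) := thick_mono hD Set.inter_subset_left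
  have hB' := BF_le hD' _ hz
  have hB0 : 0 ≤ ‖BF w D' (cay e)‖ := norm_nonneg _
  rcases le_or_gt 1 (mu w D' e) with h1 | h1
  · have h2 := BF_upper hD' he
    have h3 : Real.exp (- mu w D' e) ≤ Real.exp (-1) := Real.exp_le_exp.2 (by linarith)
    have h4 : Real.exp (-1) ≤ 1 / 2 := by
      rw [Real.exp_neg]
      have h5 := Real.add_one_le_exp (1 : ℝ)
      rw [inv_le_comm₀ (Real.exp_pos _) (by norm_num)]
      norm_num
      linarith
    have h6 : 1 / 2 ≤ 1 - ‖BF w D' (cay e)‖ ^ 2 := by linarith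
    have h7 : (1 / 2 : ℝ) ^ 3 ≤ (1 - ‖BF w D' (cay e)‖ ^ 2) ^ 3 :=
      pow_le_pow_left₀ (by norm_num) h6 3
    have h8 : Real.exp (-2016) ≤ 1 / 8 := by
      rw [Real.exp_neg]
      have h5 := Real.add_one_le_exp (2016 : ℝ)
      rw [inv_le_comm₀ (Real.exp_pos _) (by norm_num)]
      norm_num
      linarith
    have h9 : 0 ≤ ‖BF w (D ∩ {i | 653833 < mu w (D ∪ D') (w i)}) (cay e)‖ ^ 2 := by positivity
    have h10 : (1 / 2 : ℝ) ^ 3 = 1 / 8 := by norm_num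
    linarith
  · have h2 := hm e he
    have h3 : mu w (D ∪ D') e = mu w D e + mu w D' e :=
      Summable.tsum_union_disjoint (f := fun i => PH (w i) e) hd (summable_PH hD he)
        (summable_PH hD' he)
    have h4 : ∀ i ∈ D ∩ {i | 653833 < mu w (D ∪ D') (w i)}, PH (w i) e ≤ 1 / 2 := by
      rintro i ⟨hi, hi2⟩
      apply thick_half h he i (Or.inl hi)
      have hi3 : 653833 < mu w (D ∪ D') (w i) := hi2
      linarith
    have h5 := BF_lower hZ he h4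
    have h6 := thick_mu_mono hD (A := D ∩ {i | 653833 < mu w (D ∪ D') (w i)})
      Set.inter_subset_left he
    have h7 : Real.exp (-2016) ≤ Real.exp (-2 * mu w (D ∩ {i | 653833 < mu w (D ∪ D') (w i)}) e) :=
      Real.exp_le_exp.2 (by linarith)
    have h8 : 0 ≤ (1 - ‖BF w D' (cay e)‖ ^ 2) ^ 3 := by
      apply pow_nonneg
      have := pow_le_one₀ (n := 2) hB0 hB'
      linarith
    linarith

theorem thick_ne : ∃ C2 : ℝ, 0 < C2 ∧ ∃ ε : ℝ, 0 < ε ∧ ε < 1 ∧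
    ∀ (φ : (ℂ → ℂ) → ℂ), IsChar φ → ∀ (ι : Type) (w : ι → ℂ) (D D' : Set ι), BlaOn w (D ∪ D') →
      Disjoint D D' → (∀ e : ℂ, 0 < e.im → mu w D e ≤ 8 * mu w D' e + 1000) →
      1 - ε ≤ ‖φ (BF w D')‖ →
      φ (BF w (D ∩ {i | C2 < mu w (D ∪ D') (w i)})) ≠ 0 := by
  obtain ⟨c, hc⟩ : ∃ c : ℝ, c = Real.exp (-2016) := ⟨_, rfl⟩
  have hc0 : 0 < c := by rw [hc]; exact Real.exp_pos _
  have hc1 : c ≤ 1 := by
    rw [hc, Real.exp_le_one_iff]
    norm_num
  obtain ⟨m, hm⟩ := exists_nat_ge (2856 * (c⁻¹) ^ 3)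
  have hm2 : 1428 * (c⁻¹) ^ 3 / ((m : ℝ) + 1) ≤ 1 / 2 := by
    rw [div_le_iff₀ (by positivity)]
    linarith
  have hN : (0 : ℝ) < ((2 * m + 1 : ℕ) : ℝ) := by positivity
  have hN1 : (1 : ℝ) ≤ ((2 * m + 1 : ℕ) : ℝ) := by
    push_cast
    have : (0 : ℝ) ≤ m := Nat.cast_nonneg m
    linarith
  obtain ⟨ε, hε⟩ : ∃ ε : ℝ, ε = 1 / (4 * ((2 * m + 1 : ℕ) : ℝ)) := ⟨_, rfl⟩
  have hε0 : 0 < ε := by rw [hε]; positivity
  have hε1 : ε ≤ 1 / 4 := by
    rw [hε]
    apply div_le_div_of_nonneg_left (by norm_num) (by norm_num)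
    linarith
  have hεN : ((2 * m + 1 : ℕ) : ℝ) * ε = 1 / 4 := by
    rw [hε]
    field_simp
  refine ⟨653833, by norm_num, ε, hε0, by linarith, ?_⟩
  intro φ hφ ι w D D' hBl hd hmu hge hzero
  have hD : BlaOn w D := thick_mono hBl Set.subset_union_left
  have hD' : BlaOn w D' := thick_mono hBl Set.subset_union_right
  have hZ : BlaOn w (D ∩ {i | 653833 < mu w (D ∪ D') (w i)}) := thick_mono hD Set.inter_subset_left
  obtain ⟨g, hg, hge2⟩ := wolff_est hZ hD' hc0 hc1 (fun z hz => by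
    rw [hc]; exact thick_low w D D' hBl hd hmu z hz) m
  have hBZ := BF_mem hZ
  have hBD := BF_mem hD'
  have hBp := thick_HI_pow hBD (2 * m + 1)
  have hprod := thick_HI_mul hBZ hg
  have hneg := thick_HI_smul (-1 : ℂ) hprod
  have hf := thick_HI_add hBp hneg
  have hval : φ (BF w D' ^ (2 * m + 1) +
      (-1 : ℂ) • (BF w (D ∩ {i | 653833 < mu w (D ∪ D') (w i)}) * g)) = φ (BF w D') ^ (2 * m + 1) := by
    rw [(hφ.2.1 _ hBp _ hneg).1, hφ.2.2.1 _ _ hprod, (hφ.2.1 _ hBZ _ hg).2.1, hzero, zero_mul,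
      mul_zero, add_zero, thick_char_pow hφ hBD]
  have hle := char_le hφ hf (C := 1 / 2) (by
    intro z hz
    refine le_trans (le_of_eq ?_) ((hge2 z hz).trans hm2)
    congr 1
    show BF w D' z ^ (2 * m + 1) +
      (-1 : ℂ) * (BF w (D ∩ {i | 653833 < mu w (D ∪ D') (w i)}) z * g z) = _
    ring)
  rw [hval, norm_pow] at hle
  have h1 : (1 - ε) ^ (2 * m + 1) ≤ ‖φ (BF w D')‖ ^ (2 * m + 1) :=
    pow_le_pow_left₀ (by linarith) hge _
  have h2 := one_add_mul_le_pow (a := -ε) (by linarith) (2 * m + 1)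
  have h3 : 1 + ((2 * m + 1 : ℕ) : ℝ) * (-ε) = 3 / 4 := by
    rw [mul_neg, hεN]
    norm_num
  rw [h3] at h2
  have h4 : (1 + -ε) ^ (2 * m + 1) = (1 - ε) ^ (2 * m + 1) := by
    rw [← sub_eq_add_neg]
  rw [h4] at h2
  linarith

end Pool.Agent.Helper503.Gp
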