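import Pool.Agent.Helper503.Gp.Defs
import Pool.Agent.Helper503.Gp.Harn
import Pool.Agent.Helper503.Gp.Count
import Pool.Agent.Helper503.Gp.Latt

set_option autoImplicit false

open Metric Set Filter Topology Complex
open scoped ComplexConjugate

namespace Pool.Agent.Helper503.Gp



theorem mass_near (s : ℝ) (hs : 0 < s) : ∃ K : ℝ, 0 ≤ K ∧ ∀ (ι : Type) (w : ι → ℂ) (A : Set ι),
    BlaOn w A → ∀ (n : ℕ) (T : ℝ), mu w A (top n) ≤ T →
      mass n {q | ∃ i ∈ A, s < PH (w i) (epq q)} ≤ K * T := by
  classical
  obtain ⟨N, hN⟩ := count_near s hs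
  set H : ℝ := (4 / s) * (1 + 4 / s) ^ 2 with hH
  have hH0 : 0 ≤ H := by positivity
  refine ⟨N * H, by positivity, ?_⟩
  intro ι w A hB n T hT
  have htop : 0 < (top n).im := by
    have h1 : top n = ep n (0, 0) := by simp [top, ep]
    rw [h1]
    exact ep_im n (0, 0)
  have hmu0 : 0 ≤ mu w A (top n) :=
    tsum_nonneg fun i => (PH_pos (hB.1 i i.2) htop).le
  have hT0 : 0 ≤ T := hmu0.trans hT
  unfold mass
  set S : Finset (ℕ × ℕ) := (En n).filter
    (fun p => (n, p) ∈ {q : ℕ × (ℕ × ℕ) | ∃ i ∈ A, s < PH (w i) (epq q)}) with hS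
  have hSm : ∀ p ∈ S, ∃ i : A, s < PH (w i) (ep n p) := by
    intro p hp
    rw [hS, Finset.mem_filter] at hp
    obtain ⟨i, hi, h⟩ := hp.2
    exact ⟨⟨i, hi⟩, h⟩
  rcases isEmpty_or_nonempty A with hA | hA
  · have hSe : S = ∅ := by
      rw [Finset.eq_empty_iff_forall_notMem]
      intro p hp
      obtain ⟨i, -⟩ := hSm p hp
      exact hA.elim i
    rw [hSe, Finset.sum_empty]
    positivity
  · have hex : ∀ p : ℕ × ℕ, ∃ i : A, p ∈ S → s < PH (w i) (ep n p) := by
      intro p
      by_cases h : p ∈ S
      · obtain ⟨i, hi⟩ := hSm p h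
        exact ⟨i, fun _ => hi⟩
      · exact ⟨Classical.choice hA, fun h' => absurd h' h⟩
    choose g hg using hex
    have hsum : Summable fun i : A => PH (w i) (top n) := summable_PH hB htop
    calc ∑ p ∈ S, PH (top n) (ep n p)
        ≤ ∑ p ∈ S, H * PH (w (g p)) (top n) := by
          refine Finset.sum_le_sum fun p hp => ?_
          have h1 := hg p hp
          rw [PH_comm] at h1
          have h2 := harnack htop (ep_im n p) (hB.1 (g p) (g p).2) hs h1.le
          rw [PH_comm (w (g p)) (top n)]
          exact h2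
      _ = H * ∑ p ∈ S, PH (w (g p)) (top n) := by rw [Finset.mul_sum]
      _ = H * ∑ i ∈ S.image g, (S.filter (fun p => g p = i)).card • PH (w i) (top n) := by
          rw [Finset.sum_comp (fun i : A => PH (w i) (top n)) g]
      _ ≤ H * ∑ i ∈ S.image g, (N : ℝ) * PH (w i) (top n) := by
          refine mul_le_mul_of_nonneg_left ?_ hH0
          refine Finset.sum_le_sum fun i _ => ?_
          rw [nsmul_eq_mul]
          refine mul_le_mul_of_nonneg_right ?_ (PH_pos (hB.1 i i.2) htop).le
          have h3 := hN n (w i) (hB.1 i i.2) (S.filter (fun p => g p = i)) (by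
            intro p hp
            rw [Finset.mem_filter] at hp
            have := hg p hp.1
            rw [hp.2] at this
            exact this)
          exact_mod_cast h3
      _ = N * H * ∑ i ∈ S.image g, PH (w i) (top n) := by
          rw [← Finset.mul_sum]; ring
      _ ≤ N * H * mu w A (top n) := by
          refine mul_le_mul_of_nonneg_left ?_ (by positivity)
          exact hsum.sum_le_tsum _ (fun i _ => (PH_pos (hB.1 i i.2) htop).le)
      _ ≤ N * H * T := mul_le_mul_of_nonneg_left hT (by positivity)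

end Pool.Agent.Helper503.Gp
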