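import Pool.Agent.Helper503.Gp.Defs
import Pool.Agent.Helper503.Gp.Split
import Pool.Agent.Helper503.Gp.Carl
import Pool.Agent.Helper503.Gp.MassNear
import Pool.Agent.Helper503.Gp.Harn
import Pool.Agent.Helper503.Gp.Latt

set_option autoImplicit false

open Metric Set Filter Topology Complex
open scoped ComplexConjugate

namespace Pool.Agent.Helper503.Gp



theorem thin_small_top (n : ℕ) : 0 < (top n).im := by
  have h : top n = ((1 / 2 ^ n : ℝ) : ℂ) * I := by
    unfold top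
    push_cast
    ring
  rw [h, Complex.im_ofReal_mul, Complex.I_im, mul_one]
  positivity

theorem thin_small_mass (n : ℕ) {X Y : Set (ℕ × (ℕ × ℕ))} (h : X ⊆ Y) : mass n X ≤ mass n Y := by
  classical
  unfold mass
  refine Finset.sum_le_sum_of_subset_of_nonneg ?_ ?_
  · intro p hp
    rw [Finset.mem_filter] at hp ⊢
    exact ⟨hp.1, h hp.2⟩
  · intro p _ _
    exact (PH_pos (thin_small_top n) (ep_im n p)).le

theorem thin_small_bound {ι : Type} {w : ι → ℂ} {A : Set ι} (hA : BlaOn w A) {C2 : ℝ}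
    (hC : ∀ i ∈ A, mu w A (w i) ≤ C2) {e : ℂ} (he : 0 < e.im) :
    mu w A e ≤ 100 * max C2 0 := by
  classical
  unfold mu
  refine (summable_PH hA he).tsum_le_of_sum_le fun S => ?_
  have h1 : ∑ i ∈ S, PH (w i) e = ∑ j ∈ S.map (Function.Embedding.subtype (· ∈ A)), PH (w j) e := by
    rw [Finset.sum_map]
    rfl
  rw [h1]
  refine carleson_finset w _ ?_ (max C2 0) ?_ e he (le_max_right _ _)
  · intro i hi
    obtain ⟨j, -, rfl⟩ := Finset.mem_map.1 hi
    exact hA.1 _ j.2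
  · intro i hi
    obtain ⟨j, -, rfl⟩ := Finset.mem_map.1 hi
    rw [Finset.sum_map]
    have h2 : ∑ l ∈ S, PH (w l) (w j) ≤ mu w A (w j) := by
      unfold mu
      exact (summable_PH hA (hA.1 _ j.2)).sum_le_tsum S
        (fun l _ => (PH_pos (hA.1 _ l.2) (hA.1 _ j.2)).le)
    exact h2.trans ((hC _ j.2).trans (le_max_left _ _))

theorem thin_small_sum {ι : Type} {w : ι → ℂ} {A : Set ι} (hA : BlaOn w A) {K : ℕ}
    (κ : ι → Fin K) {e : ℂ} (he : 0 < e.im) :
    ∑ c : Fin K, mu w (A ∩ κ ⁻¹' {c}) e = mu w A e := by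
  classical
  unfold mu
  have hs : Summable (A.indicator fun i => PH (w i) e) := by
    have := summable_PH hA he
    rwa [← summable_subtype_iff_indicator]
  have h1 : ∀ S : Set ι, ∑' i : S, PH (w i) e = ∑' i, S.indicator (fun i => PH (w i) e) i :=
    fun S => tsum_subtype S (fun i => PH (w i) e)
  simp_rw [h1]
  have hsc : ∀ c : Fin K, Summable ((A ∩ κ ⁻¹' {c}).indicator fun i => PH (w i) e) := by
    intro c
    have := hs.indicator (κ ⁻¹' {c})
    rw [Set.indicator_indicator, Set.inter_comm] at this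
    exact this
  rw [← Summable.tsum_finsetSum (fun c _ => hsc c)]
  refine tsum_congr fun i => ?_
  by_cases hi : i ∈ A
  · rw [Finset.sum_eq_single (κ i)]
    · have hi2 : i ∈ A ∩ κ ⁻¹' {κ i} := Set.mem_inter hi rfl
      rw [Set.indicator_of_mem hi, Set.indicator_of_mem hi2]
    · intro c _ hc
      rw [Set.indicator_of_notMem]
      rintro ⟨-, h2⟩
      exact hc h2.symm
    · intro h
      exact absurd (Finset.mem_univ _) h
  · rw [Set.indicator_of_notMem hi]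
    refine Finset.sum_eq_zero fun c _ => Set.indicator_of_notMem ?_ _
    rintro ⟨h, -⟩
    exact hi h

theorem thin_small (C2 : ℝ) (ε : ℝ) (hε : 0 < ε) : ∃ K : ℕ, 0 < K ∧ ∃ L : ℝ, ∀ (ι : Type)
    (w : ι → ℂ) (A : Set ι), BlaOn w A → (∀ t : ℝ, 0 < t → {i | i ∈ A ∧ t ≤ (w i).im}.Finite) →
      (∀ i ∈ A, mu w A (w i) ≤ C2) →
      ∃ κ : ι → Fin K, ∀ c : Fin K, ∀ n : ℕ,
        mass n {q | ε < mu w (A ∩ κ ⁻¹' {c}) (epq q)} ≤ L := by
  set T : ℝ := 100 * max C2 0 with hT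
  have hT0 : 0 ≤ T := by
    have := le_max_right C2 0
    positivity
  set s : ℝ := min 1 ((ε / 2000) ^ 2) with hs
  have hs0 : 0 < s := lt_min one_pos (by positivity)
  have hs1 : s ≤ 1 := min_le_left _ _
  have hsq : Real.sqrt s ≤ ε / 2000 := by
    rw [Real.sqrt_le_left (by positivity)]
    exact min_le_right _ _
  obtain ⟨K0, hK0⟩ := exists_nat_gt (16 * T / ε)
  obtain ⟨Ks, hKs0, hKs⟩ := mass_near s hs0
  refine ⟨K0 + 1, Nat.succ_pos _, Ks * T, fun ι w A hA hfin hC => ?_⟩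
  obtain ⟨κ, hκ⟩ := split w A hA.1 hfin (fun e he => summable_PH hA he) (K0 + 1) (Nat.succ_pos _)
  refine ⟨κ, fun c n => ?_⟩
  refine (thin_small_mass n ?_).trans
    (hKs ι w A hA n T (thin_small_bound hA hC (thin_small_top n)))
  intro q hq
  by_contra hcon
  have hcon' : ∀ i ∈ A, PH (w i) (epq q) ≤ s := by
    intro i hi
    by_contra h
    exact hcon ⟨i, hi, not_le.1 h⟩
  have he : 0 < (epq q).im := ep_im q.1 q.2
  have h1 := hκ (epq q) he s hs0 hs1 hcon' c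
  have h2 : ∑ c' : Fin (K0 + 1), mu w (A ∩ κ ⁻¹' {c}) (epq q) ≤
      ∑ c' : Fin (K0 + 1), (8 * mu w (A ∩ κ ⁻¹' {c'}) (epq q) + 1000 * Real.sqrt s) :=
    Finset.sum_le_sum fun c' _ => h1 c'
  rw [Finset.sum_add_distrib, ← Finset.mul_sum, thin_small_sum hA κ he] at h2
  simp only [Finset.sum_const, Finset.card_univ, Fintype.card_fin, nsmul_eq_mul] at h2
  have h3 := thin_small_bound hA hC he
  rw [← hT] at h3
  have h4 : ε < mu w (A ∩ κ ⁻¹' {c}) (epq q) := hq
  have hK1 : (0 : ℝ) < ((K0 + 1 : ℕ) : ℝ) := by positivity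
  have h5 : 16 * T < ε * ((K0 + 1 : ℕ) : ℝ) := by
    rw [div_lt_iff₀ hε] at hK0
    push_cast
    nlinarith
  have h6 : ((K0 + 1 : ℕ) : ℝ) * ε < ((K0 + 1 : ℕ) : ℝ) * mu w (A ∩ κ ⁻¹' {c}) (epq q) :=
    mul_lt_mul_of_pos_left h4 hK1
  have h7 : ((K0 + 1 : ℕ) : ℝ) * (1000 * Real.sqrt s) ≤ ((K0 + 1 : ℕ) : ℝ) * (ε / 2) :=
    mul_le_mul_of_nonneg_left (by linarith) hK1.le
  linarith

end Pool.Agent.Helper503.Gp
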