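import Pool.Agent.Helper503.Gp.Defs
import Pool.Agent.Helper503.Gp.Thick
import Pool.Agent.Helper503.Gp.NearExt
import Pool.Agent.Helper503.Gp.Thin
import Pool.Agent.Helper503.Gp.Split
import Pool.Agent.Helper503.Gp.Tail
import Pool.Agent.Helper503.Gp.Lib
import Pool.Agent.Helper503.Gp.BF1
import Pool.Agent.Helper503.Gp.Char1
import Pool.Agent.Helper503.Gp.Latt
import Pool.Agent.Helper503.Gp.Harn

set_option autoImplicit false

open Metric Set Filter Topology Complex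
open scoped ComplexConjugate

namespace Pool.Agent.Helper503.Gp



theorem propK_sub {ι : Type} {w : ι → ℂ} (h : BlaOn w Set.univ) (A : Set ι) : BlaOn w A := by
  refine ⟨fun i _ => h.1 i (Set.mem_univ i), ?_⟩
  have h2 := h.2
  have h3 : Summable fun i : ι => PH (w i) I := by
    have := (Equiv.Set.univ ι).symm.summable_iff.mpr h2
    exact this
  exact h3.comp_injective (i := fun i : A => (i : ι)) Subtype.val_injective

theorem propK_mul {φ : (ℂ → ℂ) → ℂ} (hφ : IsChar φ) {ι : Type} {w : ι → ℂ}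
    (h : BlaOn w Set.univ) {A B : Set ι} (hd : Disjoint A B) :
    φ (BF w (A ∪ B)) = φ (BF w A) * φ (BF w B) := by
  have hA := BF_mem (propK_sub h A)
  have hB := BF_mem (propK_sub h B)
  have hAB := BF_mem (propK_sub h (A ∪ B))
  have hm : BF w A * BF w B ∈ HI := by
    obtain ⟨dA, CA, hCA⟩ := hA
    obtain ⟨dB, CB, hCB⟩ := hB
    refine ⟨dA.mul dB, 1 * 1, ?_⟩
    intro z hz
    rw [Pi.mul_apply, norm_mul]
    exact mul_le_mul (BF_le (propK_sub h A) z hz) (BF_le (propK_sub h B) z hz) (norm_nonneg _)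
      zero_le_one
  have e1 : φ (BF w (A ∪ B)) = φ (BF w A * BF w B) := by
    refine (hφ.2.1 _ hAB _ hm).2.2 ?_
    intro z hz
    exact BF_union (propK_sub h A) (propK_sub h B) hd hz
  rw [e1, (hφ.2.1 _ hA _ hB).2.1]

theorem propK_mono {ι : Type} {w : ι → ℂ} (h : BlaOn w Set.univ) {A B : Set ι} (hAB : A ⊆ B)
    {e : ℂ} (he : 0 < e.im) : mu w A e ≤ mu w B e := by
  have sA := summable_PH (propK_sub h A) he
  have sB := summable_PH (propK_sub h B) he
  have eA : mu w A e = ∑' i, A.indicator (fun i => PH (w i) e) i :=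
    tsum_subtype A (fun i => PH (w i) e)
  have eB : mu w B e = ∑' i, B.indicator (fun i => PH (w i) e) i :=
    tsum_subtype B (fun i => PH (w i) e)
  rw [eA, eB]
  refine Summable.tsum_le_tsum ?_ (summable_subtype_iff_indicator.mp sA)
    (summable_subtype_iff_indicator.mp sB)
  intro i
  exact Set.indicator_le_indicator_of_subset hAB
    (fun i => (PH_pos (h.1 i (Set.mem_univ i)) he).le) i

theorem propK_fin {φ : (ℂ → ℂ) → ℂ} (hφ : IsChar φ) {ι : Type} {w : ι → ℂ}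
    (h : BlaOn w Set.univ) (A : Set ι) {K : ℕ} (κ : ι → Fin K) (hA : φ (BF w A) = 0) :
    ∃ c : Fin K, φ (BF w (A ∩ κ ⁻¹' {c})) = 0 := by
  classical
  by_contra hcon
  push Not at hcon
  have key : ∀ s : Finset (Fin K), φ (BF w (A ∩ κ ⁻¹' (s : Set (Fin K)))) ≠ 0 := by
    intro s
    induction s using Finset.induction_on with
    | empty =>
      have e : BF w (A ∩ κ ⁻¹' ((∅ : Finset (Fin K)) : Set (Fin K))) = 1 := by
        have e0 : A ∩ κ ⁻¹' ((∅ : Finset (Fin K)) : Set (Fin K)) = ∅ := by simp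
        rw [e0]
        funext z
        exact tprod_empty
      rw [e, hφ.1]
      exact one_ne_zero
    | insert c s hc ih =>
      have e : A ∩ κ ⁻¹' ((insert c s : Finset (Fin K)) : Set (Fin K))
          = (A ∩ κ ⁻¹' {c}) ∪ (A ∩ κ ⁻¹' (s : Set (Fin K))) := by
        ext i
        simp only [Finset.coe_insert, Set.mem_inter_iff, Set.mem_preimage, Set.mem_insert_iff,
          Set.mem_union, Set.mem_singleton_iff]
        tauto
      rw [e, propK_mul hφ h ?_]
      · exact mul_ne_zero (hcon c) ih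
      · rw [Set.disjoint_left]
        rintro i ⟨_, h1⟩ ⟨_, h2⟩
        rw [Set.mem_preimage, Set.mem_singleton_iff] at h1
        rw [Set.mem_preimage, h1] at h2
        exact hc (Finset.mem_coe.mp h2)
  apply key Finset.univ
  have e : A ∩ κ ⁻¹' ((Finset.univ : Finset (Fin K)) : Set (Fin K)) = A := by simp
  rw [e, hA]

theorem propK {φ : (ℂ → ℂ) → ℂ} (hφ : IsChar φ)
    (hne : ∀ a ∈ Metric.ball (0:ℂ) 1, φ (fun z => z - a) ≠ 0)
    (hnt : ∃ ψ, IsChar ψ ∧ Gl φ ψ ∧ ψ ≠ φ) :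
    ∃ (ι : Type) (w : ι → ℂ), BlaOn w Set.univ ∧ ∀ ε : ℝ, 0 < ε →
      ∃ A : Set ι, φ (BF w A) = 0 ∧ ∃ L : ℝ, ∀ n : ℕ, mass n {q | ε < mu w A (epq q)} ≤ L := by
  classical
  obtain ⟨ψ, hψ, hgl, hψne⟩ := hnt
  obtain ⟨C2, hC2, ε0, hε0, hε1, hthick⟩ := thick_ne
  obtain ⟨ι, w, hB, hB0, hnear⟩ := near_ext hφ hψ hgl hψne ε0 hε0
  refine ⟨ι, w, hB, ?_⟩
  by_cases hcase : ∀ R : ℝ, φ (BF w (Set.univ ∩ {i | R ≤ ‖w i‖})) = 0
  · intro ε hε
    obtain ⟨R, hR⟩ := far_tail w Set.univ hB ε hε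
    refine ⟨Set.univ ∩ {i | R ≤ ‖w i‖}, hcase R, 0, ?_⟩
    intro n
    unfold mass
    refine le_of_eq (Finset.sum_eq_zero ?_)
    intro p hp
    exfalso
    rw [Finset.mem_filter] at hp
    obtain ⟨hp1, hp2⟩ := hp
    have h1 := ep_bound n p hp1
    have h2 : ‖ep n p‖ ≤ 2 := by
      refine h1.1.trans ?_
      have : (1 : ℝ) ≤ 2 ^ n := one_le_pow₀ (by norm_num)
      exact div_le_self (by norm_num) this
    have h3 := hR (ep n p) (ep_im n p) h1.2 h2
    have h4 : ε < mu w (Set.univ ∩ {i | R ≤ ‖w i‖}) (ep n p) := hp2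
    linarith
  · push Not at hcase
    obtain ⟨R, hR⟩ := hcase
    set A1 : Set ι := Set.univ ∩ {i | ‖w i‖ < R} with hA1
    have hA10 : φ (BF w A1) = 0 := by
      have e : (Set.univ : Set ι) = A1 ∪ (Set.univ ∩ {i | R ≤ ‖w i‖}) := by
        ext i
        simp only [hA1, Set.mem_univ, Set.mem_union, Set.mem_inter_iff, true_and, true_iff]
        exact lt_or_ge ‖w i‖ R
      have hd : Disjoint A1 (Set.univ ∩ {i | R ≤ ‖w i‖}) := by
        rw [Set.disjoint_left]
        rintro i ⟨_, h1⟩ ⟨_, h2⟩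
        exact absurd (show ‖w i‖ < R from h1) (not_lt.mpr h2)
      have h1 := hB0
      rw [e, propK_mul hφ hB hd] at h1
      exact (mul_eq_zero.mp h1).resolve_right hR
    have hfin1 : ∀ t : ℝ, 0 < t → {i | i ∈ A1 ∧ t ≤ (w i).im}.Finite := by
      intro t ht
      exact bounded_fin w Set.univ hB R t ht
    obtain ⟨κ, hκ⟩ := split w A1 (fun i _ => hB.1 i (Set.mem_univ i)) hfin1
      (fun e he => summable_PH (propK_sub hB A1) he) 2 (by norm_num)
    have hcmp : ∀ c c' : Fin 2, ∀ e : ℂ, 0 < e.im →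
        mu w (A1 ∩ κ ⁻¹' {c}) e ≤ 8 * mu w (A1 ∩ κ ⁻¹' {c'}) e + 1000 := by
      intro c c' e he
      have h1 := hκ e he 1 one_pos le_rfl (fun i _ => PH_le_one (hB.1 i (Set.mem_univ i)) he) c c'
      rw [Real.sqrt_one, mul_one] at h1
      exact h1
    obtain ⟨c, hc⟩ := propK_fin hφ hB A1 κ hA10
    obtain ⟨c', hcc⟩ : ∃ c' : Fin 2, c' ≠ c := exists_ne c
    set D : Set ι := A1 ∩ κ ⁻¹' {c} with hD
    set D' : Set ι := A1 ∩ κ ⁻¹' {c'} with hD'
    have hDD : Disjoint D D' := by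
      rw [Set.disjoint_left]
      rintro i ⟨_, h1⟩ ⟨_, h2⟩
      rw [Set.mem_preimage, Set.mem_singleton_iff] at h1 h2
      exact hcc (h2.symm.trans h1)
    have hD'1 : 1 - ε0 ≤ ‖φ (BF w D')‖ := by
      refine (hnear D hc).trans ?_
      have e : Dᶜ = D' ∪ (Dᶜ \ D') := by
        rw [Set.union_sdiff_cancel]
        intro i hi hi'
        exact Set.disjoint_left.mp hDD hi' hi
      rw [e, propK_mul hφ hB Set.disjoint_sdiff_right, norm_mul]
      have h1 : ‖φ (BF w (Dᶜ \ D'))‖ ≤ 1 :=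
        char_le hφ (BF_mem (propK_sub hB _)) (BF_le (propK_sub hB _))
      exact mul_le_of_le_one_right (norm_nonneg _) h1
    have hth := hthick φ hφ ι w D D' (propK_sub hB _) hDD (fun e he => hcmp c c' e he) hD'1
    set A2 : Set ι := D ∩ {i | mu w (D ∪ D') (w i) ≤ C2} with hA2
    have hA20 : φ (BF w A2) = 0 := by
      have e : D = A2 ∪ (D ∩ {i | C2 < mu w (D ∪ D') (w i)}) := by
        rw [hA2, ← Set.inter_union_distrib_left]
        symm
        rw [Set.inter_eq_left]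
        intro i _
        exact le_or_gt (mu w (D ∪ D') (w i)) C2
      have hd : Disjoint A2 (D ∩ {i | C2 < mu w (D ∪ D') (w i)}) := by
        rw [Set.disjoint_left]
        rintro i ⟨_, h1⟩ ⟨_, h2⟩
        exact absurd (show C2 < mu w (D ∪ D') (w i) from h2) (not_lt.mpr h1)
      have h1 := hc
      rw [e, propK_mul hφ hB hd] at h1
      exact (mul_eq_zero.mp h1).resolve_right hth
    have hA2D : A2 ⊆ D := Set.inter_subset_left
    have hmu : ∀ i ∈ A2, mu w A2 (w i) ≤ C2 := by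
      intro i hi
      exact (propK_mono hB (hA2D.trans Set.subset_union_left) (hB.1 i (Set.mem_univ i))).trans hi.2
    have hfin2 : ∀ t : ℝ, 0 < t → {i | i ∈ A2 ∧ t ≤ (w i).im}.Finite := by
      intro t ht
      refine (hfin1 t ht).subset ?_
      rintro i ⟨h1, h2⟩
      exact ⟨(hA2D h1).1, h2⟩
    intro ε hε
    obtain ⟨K, hK, L, hL⟩ := thin_small C2 ε hε
    obtain ⟨κ', hκ'⟩ := hL ι w A2 (propK_sub hB A2) hfin2 hmu
    obtain ⟨c2, hc2⟩ := propK_fin hφ hB A2 κ' hA20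
    exact ⟨A2 ∩ κ' ⁻¹' {c2}, hc2, L, fun n => hκ' c2 n⟩

end Pool.Agent.Helper503.Gp
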