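import Pool.Agent.Helper503.Gp.Defs
import Pool.Agent.Helper503.Gp.Harn
import Pool.Agent.Helper503.Gp.Latt

set_option autoImplicit false

open Metric Set Filter Topology Complex
open scoped ComplexConjugate

namespace Pool.Agent.Helper503.Gp



theorem ss_sum {ι : Type} {w : ι → ℂ} (hw : BlaOn w Set.univ) {e : ℂ} (he : 0 < e.im) :
    Summable (fun i => PH (w i) e) := by
  have h2 : Summable ((fun i => PH (w i) e) ∘ (Subtype.val : (Set.univ : Set ι).Elem → ι)) :=
    summable_PH hw he
  rw [summable_subtype_iff_indicator, Set.indicator_univ] at h2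
  exact h2

theorem ss_pos {ι : Type} {w : ι → ℂ} (hw : BlaOn w Set.univ) {e : ℂ} (he : 0 < e.im) (i : ι) :
    0 ≤ PH (w i) e := (PH_pos (hw.1 i trivial) he).le

theorem ss_mu {ι : Type} (w : ι → ℂ) (A : Set ι) (e : ℂ) :
    mu w A e = ∑' i, A.indicator (fun i => PH (w i) e) i :=
  tsum_subtype A (fun i => PH (w i) e)

theorem ss_mono {ι : Type} {w : ι → ℂ} (hw : BlaOn w Set.univ) {e : ℂ} (he : 0 < e.im)
    {A B : Set ι} (h : A ⊆ B) : mu w A e ≤ mu w B e := by
  rw [ss_mu, ss_mu]
  apply Summable.tsum_le_tsum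
  · intro i
    exact Set.indicator_le_indicator_of_subset h (fun i => ss_pos hw he i) i
  · exact (ss_sum hw he).indicator _
  · exact (ss_sum hw he).indicator _

theorem ss_tail {ι : Type} {w : ι → ℂ} (hw : BlaOn w Set.univ) {e : ℂ} (he : 0 < e.im)
    (A : Set ι) (ε : ℝ) (hε : 0 < ε) :
    ∀ᶠ F : Finset ι in atTop, mu w (A \ (F : Set ι)) e ≤ ε := by
  have h := tendsto_tsum_compl_atTop_zero (fun i => PH (w i) e)
  filter_upwards [h.eventually_le_const hε] with F hF
  have h2 : mu w {x | x ∉ F} e ≤ ε := hF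
  refine (ss_mono hw he ?_).trans h2
  intro x hx
  exact fun h3 => hx.2 (Finset.mem_coe.2 h3)

theorem ss_top (n : ℕ) : 0 < (top n).im := by
  have e : top n = ((1 / 2 ^ n : ℝ) : ℂ) * I := by
    unfold top
    push_cast
    ring
  rw [e, mul_im, ofReal_re, ofReal_im, I_re, I_im, mul_one, zero_mul, add_zero]
  positivity

theorem ss_massnn (n : ℕ) (X : Set (ℕ × (ℕ × ℕ))) : 0 ≤ mass n X := by
  unfold mass
  apply Finset.sum_nonneg
  intro p _
  exact (PH_pos (ss_top n) (ep_im n p)).le

theorem sparse_sel {ι : Type} (w : ι → ℂ) (hw : BlaOn w Set.univ) (A : ℕ → Set ι) (L : ℕ → ℝ)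
    (hL : ∀ k n : ℕ, mass n {q | (1 / 2 : ℝ) ^ (k + 1) < mu w (A k) (epq q)} ≤ L k) :
    ∃ F : ℕ → Set ι, (∀ k, (F k).Finite) ∧
      (Summable fun p : {p : ℕ × ι | p.2 ∈ A p.1 \ F p.1} => PH (w p.1.2) I) ∧
      Small {q | ¬ ∀ k, mu w (A k \ F k) (epq q) ≤ (1 / 2 : ℝ) ^ (k + 1)} := by
  classical
  have hL0 : ∀ k, 0 ≤ L k := fun k => (ss_massnn 0 _).trans (hL k 0)
  -- the cut-off
  let κ : ℕ → ℕ := fun n => Nat.findGreatest
    (fun k => ∑ j ∈ Finset.range k, L j ≤ Real.sqrt ((n : ℝ) + 1)) n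
  have hκ : ∀ n, ∑ j ∈ Finset.range (κ n), L j ≤ Real.sqrt ((n : ℝ) + 1) := by
    intro n
    have h := Nat.findGreatest_spec
      (P := fun k => ∑ j ∈ Finset.range k, L j ≤ Real.sqrt ((n : ℝ) + 1)) (m := 0) (n := n)
      (Nat.zero_le n) (by
        show ∑ j ∈ Finset.range 0, L j ≤ Real.sqrt ((n : ℝ) + 1)
        rw [Finset.range_zero, Finset.sum_empty]
        exact Real.sqrt_nonneg _)
    exact h
  have hM : ∀ j : ℕ, ∃ M : ℕ, ∀ n, M ≤ n → j < κ n := by
    intro j
    obtain ⟨M, hM⟩ := exists_nat_ge ((∑ i ∈ Finset.range (j + 1), L i) ^ 2)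
    refine ⟨max M (j + 1), fun n hn => ?_⟩
    have h1 : M ≤ n := (le_max_left _ _).trans hn
    have h2 : j + 1 ≤ n := (le_max_right _ _).trans hn
    have h3 : j + 1 ≤ κ n := by
      apply Nat.le_findGreatest h2
      apply Real.le_sqrt_of_sq_le
      have : (M : ℝ) ≤ n := by exact_mod_cast h1
      linarith
    omega
  choose M hM using hM
  -- the finite sets
  have hex : ∀ j : ℕ, ∃ F : Finset ι,
      (∀ n ∈ Finset.range (M j), ∀ p ∈ En n,
        mu w (A j \ (F : Set ι)) (ep n p) ≤ (1 / 2 : ℝ) ^ (j + 1)) ∧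
      mu w (A j \ (F : Set ι)) I ≤ (1 / 2 : ℝ) ^ j := by
    intro j
    have h1 : ∀ᶠ F : Finset ι in atTop, ∀ n ∈ Finset.range (M j), ∀ p ∈ En n,
        mu w (A j \ (F : Set ι)) (ep n p) ≤ (1 / 2 : ℝ) ^ (j + 1) := by
      rw [Filter.eventually_all_finset]
      intro n _
      rw [Filter.eventually_all_finset]
      intro p _
      exact ss_tail hw (ep_im n p) (A j) _ (by positivity)
    have h2 : ∀ᶠ F : Finset ι in atTop, mu w (A j \ (F : Set ι)) I ≤ (1 / 2 : ℝ) ^ j :=
      ss_tail hw (by simp) (A j) _ (by positivity)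
    exact (h1.and h2).exists
  choose F hF1 hF2 using hex
  refine ⟨fun k => (F k : Set ι), fun k => (F k).finite_toSet, ?_, ?_⟩
  · -- summability
    have hI : (0:ℝ) < (I : ℂ).im := by simp
    let f : ℕ × ι → ℝ := fun p => PH (w p.2) I
    let X : Set (ℕ × ι) := {p : ℕ × ι | p.2 ∈ A p.1 \ (F p.1 : Set ι)}
    have hgoal : Summable (f ∘ ((↑) : X → ℕ × ι)) := by
      rw [summable_subtype_iff_indicator]
      have hnn : 0 ≤ X.indicator f := by
        intro p
        exact Set.indicator_nonneg (fun p _ => ss_pos hw hI p.2) p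
      rw [summable_prod_of_nonneg hnn]
      have hfib : ∀ k, (fun y => X.indicator f (k, y)) =
          (A k \ (F k : Set ι)).indicator (fun i => PH (w i) I) := by
        intro k
        funext y
        by_cases h : y ∈ A k \ (F k : Set ι)
        · rw [Set.indicator_of_mem h]
          have h2 : (k, y) ∈ X := h
          rw [Set.indicator_of_mem h2]
        · rw [Set.indicator_of_notMem h]
          have h2 : (k, y) ∉ X := h
          rw [Set.indicator_of_notMem h2]
      constructor
      · intro k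
        rw [hfib k]
        exact (ss_sum hw hI).indicator _
      · apply Summable.of_nonneg_of_le (g := fun k => ∑' y, X.indicator f (k, y))
          (f := fun k : ℕ => (1 / 2 : ℝ) ^ k)
        · intro k
          exact tsum_nonneg (fun y => hnn (k, y))
        · intro k
          rw [hfib k, ← ss_mu]
          exact hF2 k
        · exact summable_geometric_of_lt_one (by norm_num) (by norm_num)
    exact hgoal
  · -- smallness
    set Bad : Set (ℕ × (ℕ × ℕ)) :=
      {q | ¬ ∀ k, mu w (A k \ (F k : Set ι)) (epq q) ≤ (1 / 2 : ℝ) ^ (k + 1)} with hBad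
    have hmass : ∀ n, mass n Bad ≤ Real.sqrt ((n : ℝ) + 1) := by
      intro n
      refine le_trans ?_ (hκ n)
      refine le_trans ?_ (Finset.sum_le_sum (fun j _ => hL j n))
      unfold mass
      simp only [Finset.sum_filter]
      rw [Finset.sum_comm]
      apply Finset.sum_le_sum
      intro p hp
      have hnn : 0 ≤ PH (top n) (ep n p) := by
        exact (PH_pos (ss_top n) (ep_im n p)).le
      have hnn2 : ∀ j ∈ Finset.range (κ n), 0 ≤
          (if (n, p) ∈ {q : ℕ × (ℕ × ℕ) | (1 / 2 : ℝ) ^ (j + 1) < mu w (A j) (epq q)} then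
            PH (top n) (ep n p) else 0) := by
        intro j _
        split_ifs
        · exact hnn
        · exact le_rfl
      by_cases hb : (n, p) ∈ Bad
      · rw [if_pos hb]
        have hb2 : ¬ ∀ k, mu w (A k \ (F k : Set ι)) (epq (n, p)) ≤ (1 / 2 : ℝ) ^ (k + 1) := hb
        push Not at hb2
        obtain ⟨j, hj⟩ := hb2
        have hjκ : j < κ n := by
          by_contra hcon
          have hnM : n < M j := by
            by_contra h2
            exact hcon (hM j n (not_lt.1 h2))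
          have h3 := hF1 j n (Finset.mem_range.2 hnM) p hp
          have h4 : (1 / 2 : ℝ) ^ (j + 1) < mu w (A j \ (F j : Set ι)) (ep n p) := hj
          linarith
        have h5 := Finset.single_le_sum hnn2 (Finset.mem_range.2 hjκ)
        have h6 : (n, p) ∈ {q : ℕ × (ℕ × ℕ) | (1 / 2 : ℝ) ^ (j + 1) < mu w (A j) (epq q)} := by
          show (1 / 2 : ℝ) ^ (j + 1) < mu w (A j) (epq (n, p))
          exact hj.trans_le (ss_mono hw (ep_im n p) Set.sdiff_subset)
        rw [if_pos h6] at h5
        exact h5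
      · rw [if_neg hb]
        exact Finset.sum_nonneg hnn2
    have hlim : Tendsto (fun n : ℕ => 1 / Real.sqrt ((n : ℝ) + 1)) atTop (𝓝 0) := by
      have h1 : Tendsto (fun n : ℕ => Real.sqrt ((n : ℝ) + 1)) atTop atTop :=
        Real.tendsto_sqrt_atTop.comp
          (tendsto_atTop_add_const_right _ 1 tendsto_natCast_atTop_atTop)
      have h2 := tendsto_inv_atTop_zero.comp h1
      refine h2.congr (fun n => ?_)
      simp
    refine tendsto_of_tendsto_of_tendsto_of_le_of_le tendsto_const_nhds hlim ?_ ?_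
    · intro n
      exact div_nonneg (ss_massnn n _) (by positivity)
    · intro n
      show mass n Bad / ((n : ℝ) + 1) ≤ 1 / Real.sqrt ((n : ℝ) + 1)
      have hp : (0:ℝ) < (n : ℝ) + 1 := by positivity
      have hs : 0 < Real.sqrt ((n : ℝ) + 1) := Real.sqrt_pos.2 hp
      rw [div_le_div_iff₀ hp hs, one_mul]
      have h3 : Real.sqrt ((n : ℝ) + 1) * Real.sqrt ((n : ℝ) + 1) = (n : ℝ) + 1 :=
        Real.mul_self_sqrt hp.le
      calc mass n Bad * Real.sqrt ((n : ℝ) + 1)
          ≤ Real.sqrt ((n : ℝ) + 1) * Real.sqrt ((n : ℝ) + 1) :=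
            mul_le_mul_of_nonneg_right (hmass n) hs.le
        _ = _ := h3

end Pool.Agent.Helper503.Gp
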