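import Pool.Agent.Helper503.Gp.Defs
import Pool.Agent.Helper503.Gp.Sparse
import Pool.Agent.Helper503.Gp.Char1
import Pool.Agent.Helper503.Gp.Char2
import Pool.Agent.Helper503.Gp.Char3
import Pool.Agent.Helper503.Gp.BF1
import Pool.Agent.Helper503.Gp.BF2
import Pool.Agent.Helper503.Gp.Lib
import Pool.Agent.Helper503.Gp.Harn
import Pool.Agent.Helper503.Gp.Latt

set_option autoImplicit false

open Metric Set Filter Topology Complex
open scoped ComplexConjugate

namespace Pool.Agent.Helper503.Gp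



theorem mass_nonneg' (n : ℕ) (X : Set (ℕ × (ℕ × ℕ))) : 0 ≤ mass n X := by
  unfold mass
  refine Finset.sum_nonneg fun p _ => (PH_pos ?_ (ep_im n p)).le
  have := ep_im n (0, 0)
  simpa [ep, top] using this

theorem mass_mono' (n : ℕ) {X Y : Set (ℕ × (ℕ × ℕ))} (h : ∀ p ∈ En n, (n, p) ∈ X → (n, p) ∈ Y) :
    mass n X ≤ mass n Y := by
  classical
  unfold mass
  refine Finset.sum_le_sum_of_subset_of_nonneg ?_ ?_
  · intro p hp
    simp only [Finset.mem_filter] at hp ⊢
    exact ⟨hp.1, h p hp.1 hp.2⟩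
  · intro p _ _
    refine (PH_pos ?_ (ep_im n p)).le
    have := ep_im n (0, 0)
    simpa [ep, top] using this

theorem small_mono' {X Y : Set (ℕ × (ℕ × ℕ))} (hY : Small Y)
    (h : ∀ n, ∀ p ∈ En n, (n, p) ∈ X → (n, p) ∈ Y) : Small X := by
  unfold Small at *
  refine squeeze_zero (fun n => div_nonneg (mass_nonneg' n X) (by positivity)) (fun n => ?_) hY
  exact div_le_div_of_nonneg_right (mass_mono' n (h n)) (by positivity)

theorem bla_mono' {ι : Type} {w : ι → ℂ} {A B : Set ι} (hB : BlaOn w B) (h : A ⊆ B) : BlaOn w A := by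
  refine ⟨fun i hi => hB.1 i (h hi), ?_⟩
  have h1 : Summable (B.indicator fun i => PH (w i) I) :=
    summable_subtype_iff_indicator.1 hB.2
  have h2 : Summable (A.indicator fun i => PH (w i) I) := by
    have h3 := h1.indicator A
    rw [Set.indicator_indicator, Set.inter_eq_left.2 h] at h3
    exact h3
  exact summable_subtype_iff_indicator.2 h2

theorem HI_mul' {f g : ℂ → ℂ} (hf : f ∈ HI) (hg : g ∈ HI) : f * g ∈ HI := by
  obtain ⟨hf1, C, hC⟩ := hf
  obtain ⟨hg1, D, hD⟩ := hg
  refine ⟨hf1.mul hg1, C * D, fun z hz => ?_⟩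
  have h1 := hC z hz
  have h2 := hD z hz
  calc ‖(f * g) z‖ = ‖f z‖ * ‖g z‖ := by simp
    _ ≤ C * D := mul_le_mul h1 h2 (norm_nonneg _) (le_trans (norm_nonneg _) h1)

theorem vanish_fun {φ : (ℂ → ℂ) → ℂ} (hφ : IsChar φ)
    (hne : ∀ a ∈ Metric.ball (0:ℂ) 1, φ (fun z => z - a) ≠ 0)
    {ι : Type} (w : ι → ℂ) (hw : BlaOn w Set.univ)
    (hA : ∀ ε : ℝ, 0 < ε → ∃ A : Set ι, φ (BF w A) = 0 ∧
      ∃ L : ℝ, ∀ n : ℕ, mass n {q | ε < mu w A (epq q)} ≤ L) :
    ∃ f ∈ HI, (∀ χ, IsChar χ → Gl φ χ → χ f = 0) ∧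
      Small {q | q.2 ∈ En q.1 ∧ ‖f (cay (epq q))‖ < 1 / 3} := by
  classical
  choose A hA0 L hL using fun k : ℕ => hA ((1 / 2 : ℝ) ^ (k + 1)) (by positivity)
  obtain ⟨F, hFfin, hFsum, hFsmall⟩ := sparse_sel w hw A L (fun k n => hL k n)
  -- Blaschke everywhere
  have hB : ∀ X : Set ι, BlaOn w X := fun X => bla_mono' hw (Set.subset_univ X)
  have hpos : ∀ i, 0 < (w i).im := fun i => hw.1 i (Set.mem_univ i)
  -- phi vanishes
  have hz : ∀ k, φ (BF w (A k \ F k)) = 0 := by
    intro k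
    have h1 : Set.EqOn (BF w (A k)) (BF w (A k \ F k) * BF w (A k ∩ F k)) (Metric.ball (0:ℂ) 1) := by
      intro z hz
      have h2 := BF_union (hB (A k \ F k)) (hB (A k ∩ F k))
        (Set.disjoint_sdiff_inter) hz
      rw [Set.diff_union_inter] at h2
      simpa using h2
    have hm1 := BF_mem (hB (A k \ F k))
    have hm2 := BF_mem (hB (A k ∩ F k))
    have h3 := (hφ.2.1 (BF w (A k)) (BF_mem (hB _)) _ (HI_mul' hm1 hm2)).2.2 h1
    have h4 := (hφ.2.1 _ hm1 _ hm2).2.1
    rw [hA0 k, h4] at h3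
    have h5 : φ (BF w (A k ∩ F k)) ≠ 0 :=
      BF_finite_ne hφ hne ((hFfin k).subset Set.inter_subset_right) (fun i _ => hpos i)
    rcases mul_eq_zero.1 h3.symm with h | h
    · exact h
    · exact absurd h h5
  -- the big product
  set M : Set (ℕ × ι) := {p : ℕ × ι | p.2 ∈ A p.1 \ F p.1} with hM
  set w' : ℕ × ι → ℂ := fun p => w p.2 with hw'
  have hBM : BlaOn w' M := ⟨fun i _ => hpos i.2, hFsum⟩
  have hBX : ∀ X : Set (ℕ × ι), X ⊆ M → BlaOn w' X := fun X hX => bla_mono' hBM hX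
  have hfm : BF w' M ∈ HI := BF_mem hBM
  refine ⟨BF w' M, hfm, ?_, ?_⟩
  · intro χ hχ hG
    obtain ⟨r, hr0, hr1, hr⟩ := gl_rho hφ hχ hG
    have hk : ∀ k, ‖χ (BF w (A k \ F k))‖ ≤ r := fun k =>
      hr _ (BF_mem (hB _)) (BF_le (hB _)) (hz k)
    have hslice : ∀ N : ℕ, BF w' (M ∩ {p | p.1 = N}) = BF w (A N \ F N) := by
      intro N
      have h1 : M ∩ {p | p.1 = N} = (fun i : ι => (N, i)) '' (A N \ F N) := by
        ext ⟨a, b⟩
        simp only [hM, Set.mem_inter_iff, Set.mem_setOf_eq, Set.mem_image, Prod.mk.injEq]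
        constructor
        · rintro ⟨h1, rfl⟩
          exact ⟨b, h1, rfl, rfl⟩
        · rintro ⟨c, h1, rfl, rfl⟩
          exact ⟨h1, rfl⟩
      rw [h1, BF_map (fun i : ι => (N, i)) (fun a b h => by simpa using h)]
      rfl
    have hN : ∀ N : ℕ, ‖χ (BF w' (M ∩ {p | p.1 < N}))‖ ≤ r ^ N := by
      intro N
      induction N with
      | zero =>
        have := char_le hχ (BF_mem (hBX (M ∩ {p | p.1 < 0}) Set.inter_subset_left))
          (BF_le (hBX (M ∩ {p | p.1 < 0}) Set.inter_subset_left))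
        simpa using this
      | succ N ih =>
        have hd : Disjoint (M ∩ {p : ℕ × ι | p.1 < N}) (M ∩ {p | p.1 = N}) := by
          rw [Set.disjoint_left]
          rintro p ⟨_, h1⟩ ⟨_, h2⟩
          simp only [Set.mem_setOf_eq] at h1 h2
          omega
        have hu : (M ∩ {p : ℕ × ι | p.1 < N}) ∪ (M ∩ {p | p.1 = N}) = M ∩ {p | p.1 < N + 1} := by
          ext p
          simp only [Set.mem_union, Set.mem_inter_iff, Set.mem_setOf_eq]
          constructor
          · rintro (⟨h1, h2⟩ | ⟨h1, h2⟩)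
            · exact ⟨h1, by omega⟩
            · exact ⟨h1, by omega⟩
          · rintro ⟨h1, h2⟩
            rcases Nat.lt_or_ge p.1 N with h | h
            · exact Or.inl ⟨h1, h⟩
            · exact Or.inr ⟨h1, by omega⟩
        have hb1 := hBX (M ∩ {p : ℕ × ι | p.1 < N}) Set.inter_subset_left
        have hb2 := hBX (M ∩ {p : ℕ × ι | p.1 = N}) Set.inter_subset_left
        have hb3 := hBX (M ∩ {p : ℕ × ι | p.1 < N + 1}) Set.inter_subset_left
        have hE : Set.EqOn (BF w' (M ∩ {p : ℕ × ι | p.1 < N + 1}))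
            (BF w' (M ∩ {p : ℕ × ι | p.1 < N}) * BF w' (M ∩ {p : ℕ × ι | p.1 = N}))
            (Metric.ball (0:ℂ) 1) := by
          intro z hz
          have := BF_union hb1 hb2 hd hz
          rw [hu] at this
          simpa using this
        have h3 := (hχ.2.1 _ (BF_mem hb3) _ (HI_mul' (BF_mem hb1) (BF_mem hb2))).2.2 hE
        rw [h3, (hχ.2.1 _ (BF_mem hb1) _ (BF_mem hb2)).2.1, norm_mul, hslice N, pow_succ]
        exact mul_le_mul ih (hk N) (norm_nonneg _) (pow_nonneg hr0 N)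
    have hall : ∀ N : ℕ, ‖χ (BF w' M)‖ ≤ r ^ N := by
      intro N
      have hd : Disjoint (M ∩ {p : ℕ × ι | p.1 < N}) (M ∩ {p | N ≤ p.1}) := by
        rw [Set.disjoint_left]
        rintro p ⟨_, h1⟩ ⟨_, h2⟩
        simp only [Set.mem_setOf_eq] at h1 h2
        omega
      have hu : (M ∩ {p : ℕ × ι | p.1 < N}) ∪ (M ∩ {p | N ≤ p.1}) = M := by
        ext p
        simp only [Set.mem_union, Set.mem_inter_iff, Set.mem_setOf_eq]
        constructor
        · rintro (⟨h1, h2⟩ | ⟨h1, h2⟩) <;> exact h1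
        · intro h1
          rcases Nat.lt_or_ge p.1 N with h | h
          · exact Or.inl ⟨h1, h⟩
          · exact Or.inr ⟨h1, h⟩
      have hb1 := hBX (M ∩ {p : ℕ × ι | p.1 < N}) Set.inter_subset_left
      have hb2 := hBX (M ∩ {p : ℕ × ι | N ≤ p.1}) Set.inter_subset_left
      have hE : Set.EqOn (BF w' M)
          (BF w' (M ∩ {p : ℕ × ι | p.1 < N}) * BF w' (M ∩ {p : ℕ × ι | N ≤ p.1}))
          (Metric.ball (0:ℂ) 1) := by
        intro z hz
        have := BF_union hb1 hb2 hd hz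
        rw [hu] at this
        simpa using this
      have h3 := (hχ.2.1 _ hfm _ (HI_mul' (BF_mem hb1) (BF_mem hb2))).2.2 hE
      rw [h3, (hχ.2.1 _ (BF_mem hb1) _ (BF_mem hb2)).2.1, norm_mul]
      have h4 := char_le hχ (BF_mem hb2) (BF_le hb2)
      calc _ ≤ r ^ N * 1 := mul_le_mul (hN N) h4 (norm_nonneg _) (pow_nonneg hr0 N)
        _ = r ^ N := mul_one _
    have hlim : Tendsto (fun N : ℕ => r ^ N) atTop (𝓝 0) := tendsto_pow_atTop_nhds_zero_of_lt_one hr0 hr1
    have := ge_of_tendsto' hlim hall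
    exact norm_le_zero_iff.1 this
  · refine small_mono' hFsmall ?_
    intro n p hp hq hcon
    obtain ⟨_, hlt⟩ := hq
    set e : ℂ := epq (n, p) with he
    have hei : 0 < e.im := ep_im n p
    -- summability
    have hs : Summable fun i : M => PH (w' i) e := summable_PH hBM hei
    have hsk : ∀ k, Summable fun i : (A k \ F k : Set ι) => PH (w i) e :=
      fun k => summable_PH (hB _) hei
    have hmu : mu w' M e ≤ 1 := by
      unfold mu
      have h1 : Summable (M.indicator fun i => PH (w' i) e) := by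
        rw [← summable_subtype_iff_indicator]
        exact hs
      have h2 : ∑' i : M, PH (w' i) e = ∑' i, M.indicator (fun i => PH (w' i) e) i :=
        tsum_subtype M (fun i => PH (w' i) e)
      rw [h2, h1.tsum_prod]
      have h3 : ∀ k : ℕ, ∑' i : ι, M.indicator (fun i => PH (w' i) e) (k, i) = mu w (A k \ F k) e := by
        intro k
        unfold mu
        rw [tsum_subtype (A k \ F k) (fun i => PH (w i) e)]
        refine tsum_congr fun i => ?_
        simp only [Set.indicator, hM, hw', Set.mem_setOf_eq]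
      simp only [h3]
      have h4 : HasSum (fun k : ℕ => (1 / 2 : ℝ) ^ (k + 1)) 1 := by
        have := (hasSum_geometric_two).mul_left (1 / 2 : ℝ)
        simpa [pow_succ, mul_comm] using this
      have h5 : ∀ k, 0 ≤ mu w (A k \ F k) e := fun k =>
        tsum_nonneg fun i => (PH_pos (hpos i) hei).le
      calc ∑' k, mu w (A k \ F k) e ≤ ∑' k : ℕ, (1 / 2 : ℝ) ^ (k + 1) :=
            Summable.tsum_le_tsum hcon (Summable.of_nonneg_of_le h5 hcon h4.summable) h4.summable
        _ = 1 := h4.tsum_eq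
    have hhalf : ∀ i ∈ M, PH (w' i) e ≤ 1 / 2 := by
      rintro ⟨k, i⟩ hi
      have hi' : i ∈ A k \ F k := hi
      have h1 : PH (w i) e ≤ mu w (A k \ F k) e := by
        unfold mu
        have := (hsk k).le_tsum ⟨i, hi'⟩ (fun j _ => (PH_pos (hpos j) hei).le)
        simpa using this
      have h2 := hcon k
      have h3 : (1 / 2 : ℝ) ^ (k + 1) ≤ 1 / 2 := by
        have := pow_le_one₀ (n := k) (by norm_num : (0:ℝ) ≤ 1 / 2) (by norm_num)
        rw [pow_succ]; linarith
      exact (h1.trans h2).trans h3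
    have hlow := BF_lower hBM hei hhalf
    have hexp : (1 : ℝ) / 9 < Real.exp (-2 * mu w' M e) := by
      have h1 : Real.exp (-2) ≤ Real.exp (-2 * mu w' M e) := by
        apply Real.exp_le_exp.2; linarith
      have h2 : (1 : ℝ) / 9 < Real.exp (-2) := by
        have h3 : Real.exp 1 < 3 := by
          have := Real.exp_one_lt_d9; linarith
        have h4 : Real.exp 2 = Real.exp 1 * Real.exp 1 := by
          rw [← Real.exp_add]; norm_num
        have h5 : Real.exp 2 < 9 := by
          rw [h4]; nlinarith [Real.exp_pos 1]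
        rw [Real.exp_neg, ← one_div]
        exact one_div_lt_one_div_of_lt (Real.exp_pos 2) h5
      linarith
    have h6 : ‖BF w' M (cay e)‖ ^ 2 < 1 / 9 := by
      have h7 : 0 ≤ ‖BF w' M (cay e)‖ := norm_nonneg _
      nlinarith
    linarith

end Pool.Agent.Helper503.Gp
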