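import Pool.Agent.Helper503.Gp.Defs
import Pool.Agent.Helper503.Gp.PropK
import Pool.Agent.Helper503.Gp.Vanish
import Pool.Agent.Helper503.Gp.ExistsM
import Pool.Agent.Helper503.Gp.Norming
import Pool.Agent.Helper503.Gp.BF3
import Pool.Agent.Helper503.Gp.Latt
import Pool.Agent.Helper503.Gp.Char1

set_option autoImplicit false

open Metric Set Filter Topology Complex
open scoped ComplexConjugate

namespace Pool.Agent.Helper503.Gp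

/-- weak-star closure, as in the frozen statement -/
def InCl (φ : (ℂ → ℂ) → ℂ) (S : Set ((ℂ → ℂ) → ℂ)) : Prop :=
  ∀ s : Finset (ℂ → ℂ), ∀ ε : ℝ, 0 < ε → ∃ ψ ∈ S, ∀ f ∈ s, ‖ψ f - φ f‖ < ε

open Classical in
/-- evaluation at a point as a character -/
noncomputable def evc (a : ℂ) (f : ℂ → ℂ) : ℂ := if f ∈ HI then f a else 0

theorem fin_one_mem : (1 : ℂ → ℂ) ∈ HI :=
  ⟨differentiableOn_const _, 1, fun z _ => by simp⟩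

theorem fin_add_mem {f g : ℂ → ℂ} (hf : f ∈ HI) (hg : g ∈ HI) : f + g ∈ HI := by
  obtain ⟨C, hC⟩ := hf.2
  obtain ⟨D, hD⟩ := hg.2
  exact ⟨hf.1.add hg.1, C + D, fun z hz => (norm_add_le _ _).trans (add_le_add (hC z hz) (hD z hz))⟩

theorem fin_mul_mem {f g : ℂ → ℂ} (hf : f ∈ HI) (hg : g ∈ HI) : f * g ∈ HI := by
  obtain ⟨C, hC⟩ := hf.2
  obtain ⟨D, hD⟩ := hg.2
  refine ⟨hf.1.mul hg.1, C * D, fun z hz => ?_⟩
  rw [Pi.mul_apply, norm_mul]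
  exact mul_le_mul (hC z hz) (hD z hz) (norm_nonneg _) ((norm_nonneg _).trans (hC z hz))

theorem fin_smul_mem {f : ℂ → ℂ} (c : ℂ) (hf : f ∈ HI) : c • f ∈ HI := by
  obtain ⟨C, hC⟩ := hf.2
  refine ⟨hf.1.const_smul c, ‖c‖ * C, fun z hz => ?_⟩
  rw [Pi.smul_apply, norm_smul]
  exact mul_le_mul_of_nonneg_left (hC z hz) (norm_nonneg _)

theorem evc_char {a : ℂ} (ha : a ∈ Metric.ball (0:ℂ) 1) : IsChar (evc a) := by
  refine ⟨?_, ?_, ?_, ?_⟩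
  · simp [evc, fin_one_mem]
  · intro f hf g hg
    refine ⟨?_, ?_, fun h => ?_⟩
    · simp [evc, hf, hg, fin_add_mem hf hg]
    · simp [evc, hf, hg, fin_mul_mem hf hg]
    · simp [evc, hf, hg, h ha]
  · intro c f hf
    simp [evc, hf, fin_smul_mem c hf]
  · intro f hf
    simp [evc, hf]

/-- the index set of the lattice -/
def EE : Set (ℕ × (ℕ × ℕ)) := {q | q.2 ∈ En q.1}

theorem final_main : ∃ m : (ℂ → ℂ) → ℂ, IsChar m ∧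
    (∀ z ∈ Metric.ball (0:ℂ) 1, ∃ f ∈ HI, m f ≠ f z) ∧
    (∃ S : Set ((ℂ → ℂ) → ℂ), (∀ ψ ∈ S, IsChar ψ) ∧
        (∀ φ, IsChar φ → InCl φ S → φ ∈ S) ∧
        (∀ f ∈ HI, ∀ z ∈ Metric.ball (0:ℂ) 1, ∀ ε : ℝ, 0 < ε →
            ∃ ψ ∈ S, ‖f z‖ < ‖ψ f‖ + ε) ∧
        m ∉ S) ∧
    ∀ φ : (ℂ → ℂ) → ℂ, IsChar φ →
      (∀ z ∈ Metric.ball (0:ℂ) 1, ¬ ∃ c : ℝ, c < 2 ∧ ∀ f ∈ HI,
          (∀ w ∈ Metric.ball (0:ℂ) 1, ‖f w‖ ≤ 1) → ‖φ f - f z‖ ≤ c) →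
      (∃ ψ, IsChar ψ ∧ Gl φ ψ ∧ ψ ≠ φ) →
      ¬ InCl m {ψ | IsChar ψ ∧ Gl φ ψ} := by
  obtain ⟨m, hm, hmD, hmB, hmf⟩ := exists_m
  refine ⟨m, hm, hmD, ?_, ?_⟩
  · set B : ℂ → ℂ := BF epq {q | q.2 ∈ En q.1} with hBdef
    have hB : B ∈ HI := BF_mem bla_E
    have hB1 : ∀ z ∈ Metric.ball (0:ℂ) 1, ‖B z‖ ≤ 1 := BF_le bla_E
    refine ⟨{ψ | IsChar ψ ∧ 1 / 2 ≤ ‖ψ B‖}, fun ψ h => h.1, ?_, ?_, ?_⟩
    · intro φ hφ hcl
      refine ⟨hφ, ?_⟩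
      by_contra hlt
      rw [not_le] at hlt
      obtain ⟨ψ, ⟨_, h2⟩, h3⟩ := hcl {B} (1 / 2 - ‖φ B‖) (by linarith)
      have h4 := h3 B (Finset.mem_singleton_self B)
      have h5 : ‖ψ B‖ ≤ ‖ψ B - φ B‖ + ‖φ B‖ := by
        have := norm_add_le (ψ B - φ B) (φ B)
        rwa [sub_add_cancel] at this
      linarith
    · intro f hf z hz ε hε
      obtain ⟨z', hz', h1, h2⟩ := norming hB hB1
        (fun g hg K hK => BF_isometry bla_E hg hK) hf hz ε hε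
      refine ⟨evc z', ⟨evc_char hz', ?_⟩, ?_⟩
      · simpa [evc, hB] using h1
      · simpa [evc, hf] using h2
    · rintro ⟨-, h⟩
      rw [hmB, norm_zero] at h
      norm_num at h
  · intro φ hφ hφD hnt hcl
    have hne : ∀ a ∈ Metric.ball (0:ℂ) 1, φ (fun z => z - a) ≠ 0 :=
      fun a ha => char_point hφ ha (hφD a ha)
    obtain ⟨ι, w, hw, hA⟩ := propK hφ hne hnt
    obtain ⟨f, hf, hf0, hsm⟩ := vanish_fun hφ hne w hw hA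
    have hmne : m f ≠ 0 := hmf f hf hsm
    obtain ⟨χ, ⟨hχ, hgχ⟩, hχf⟩ := hcl {f} ‖m f‖ (norm_pos_iff.2 hmne)
    have h1 := hχf f (Finset.mem_singleton_self f)
    rw [hf0 χ hχ hgχ, zero_sub, norm_neg] at h1
    exact lt_irrefl _ h1

end Pool.Agent.Helper503.Gp
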