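import Pool.Agent.Helper503.Gp.Final
import Pool.Agent.Helper503.Gp.Char2
import Pool.Agent.Helper503.Dg.Fact

set_option autoImplicit false

open Metric Set Filter Topology Complex
open scoped ComplexConjugate

namespace Pool.Agent.Helper503.Gp

theorem evc_apply {a : ℂ} {f : ℂ → ℂ} (hf : f ∈ HI) : evc a f = f a := by
  simp [evc, hf]

theorem tv_point {φ : (ℂ → ℂ) → ℂ} (hφ : IsChar φ) {a : ℂ} (ha : a ∈ Metric.ball (0:ℂ) 1)
    (h0 : φ (fun z => z - a) = 0) : ∀ f ∈ HI, φ f = f a := by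
  obtain ⟨h1, h2, h3, -⟩ := hφ
  intro f hf
  have hcon1 : (f a) • (1 : ℂ → ℂ) ∈ HI := char_le_smul _ char_le_one
  have hds := char_point_dslope hf ha
  have hid := char_point_id a
  have hfe : f = (f a) • (1 : ℂ → ℂ) + (fun z => z - a) * dslope f a := by
    funext z
    change f z = f a * 1 + (z - a) * dslope f a z
    have := sub_smul_dslope f a z
    rw [smul_eq_mul] at this
    rw [this]
    ring
  have e2 : φ ((f a) • (1 : ℂ → ℂ) + (fun z => z - a) * dslope f a) = f a := by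
    rw [(h2 _ hcon1 _ (char_le_mul hid hds)).1, h3 _ _ char_le_one, h1,
      (h2 _ hid _ hds).2.1, h0]
    ring
  rw [← hfe] at e2
  exact e2

theorem tv_id_mem : (fun z : ℂ => z) ∈ HI :=
  ⟨differentiableOn_id, 1, fun z hz => (mem_ball_zero_iff.1 hz).le⟩

theorem tv_id {φ : (ℂ → ℂ) → ℂ} (hφ : IsChar φ) (h : ‖φ (fun z => z)‖ < 1) :
    ∀ f ∈ HI, φ f = f (φ (fun z => z)) := by
  apply tv_point hφ (mem_ball_zero_iff.2 h)
  have e1 : (fun z : ℂ => z - φ (fun z => z)) =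
      (fun z : ℂ => z) + (-(φ (fun z => z))) • (1 : ℂ → ℂ) := by
    funext z
    simp [sub_eq_add_neg]
  rw [e1, (hφ.2.1 _ tv_id_mem _ (char_le_smul _ char_le_one)).1, hφ.2.2.1 _ _ char_le_one, hφ.1]
  ring

theorem tv_gl_symm {φ ψ : (ℂ → ℂ) → ℂ} (h : Gl φ ψ) : Gl ψ φ := by
  obtain ⟨c, hc, h⟩ := h
  exact ⟨c, hc, fun f hf hf1 => by rw [norm_sub_rev]; exact h f hf hf1⟩

theorem tv_gl_refl (φ : (ℂ → ℂ) → ℂ) : Gl φ φ :=
  ⟨0, by norm_num, fun f _ _ => by simp⟩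

/-- a character in the part of a point of the disc has small value on the coordinate function -/
theorem tv_near_point {φ : (ℂ → ℂ) → ℂ} (hφ : IsChar φ) {z : ℂ} (hz : z ∈ Metric.ball (0:ℂ) 1)
    (h : ∃ c : ℝ, c < 2 ∧ ∀ f ∈ HI,
          (∀ w ∈ Metric.ball (0:ℂ) 1, ‖f w‖ ≤ 1) → ‖φ f - f z‖ ≤ c) :
    ‖φ (fun z => z)‖ < 1 := by
  have hg : Gl (evc z) φ := by
    obtain ⟨c, hc, h⟩ := h
    exact ⟨c, hc, fun f hf hf1 => by rw [evc_apply hf, norm_sub_rev]; exact h f hf hf1⟩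
  obtain ⟨r, hr0, hr1, hr⟩ := gl_rho (evc_char hz) hφ hg
  have hid1 : ∀ w ∈ Metric.ball (0:ℂ) 1, ‖(fun z : ℂ => z) w‖ ≤ 1 :=
    fun w hw => (mem_ball_zero_iff.1 hw).le
  have h1 := char_sp (evc_char hz) hφ hr0 hr1 hr tv_id_mem hid1
  have h2 := char_le hφ tv_id_mem hid1
  rw [evc_apply tv_id_mem] at h1
  have hz1 : ‖z‖ < 1 := mem_ball_zero_iff.1 hz
  rcases h2.lt_or_eq with h3 | h3
  · exact h3
  · rw [h3] at h1
    nlinarith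

theorem tv_gl_of_rho {φ ψ : (ℂ → ℂ) → ℂ} (hφ : IsChar φ) (hψ : IsChar ψ) {r : ℝ} (h0 : 0 ≤ r)
    (h1 : r < 1) (hr : ∀ g ∈ HI, (∀ z ∈ Metric.ball (0:ℂ) 1, ‖g z‖ ≤ 1) → φ g = 0 → ‖ψ g‖ ≤ r) :
    Gl φ ψ := by
  refine ⟨2 * r, by linarith, fun f hf hf1 => ?_⟩
  have key : ∀ t : ℝ, 0 < t → t < 1 → t * ‖φ f - ψ f‖ ≤ 2 * r := by
    intro t ht0 ht1
    have htf : (t : ℂ) • f ∈ HI := char_le_smul _ hf
    have htf1 : ∀ z ∈ Metric.ball (0:ℂ) 1, ‖((t : ℂ) • f) z‖ ≤ 1 := by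
      intro z hz
      rw [Pi.smul_apply, norm_smul, Complex.norm_real, Real.norm_of_nonneg ht0.le]
      have := hf1 z hz
      nlinarith [norm_nonneg (f z)]
    have hφf := char_le hφ hf hf1
    have hψf := char_le hψ hf hf1
    have hb : ‖φ ((t : ℂ) • f)‖ < 1 := by
      rw [hφ.2.2.1 _ _ hf, norm_mul, Complex.norm_real, Real.norm_of_nonneg ht0.le]
      nlinarith [norm_nonneg (φ f)]
    obtain ⟨m, hm, hm1, hmm⟩ := x28452_mob hb htf htf1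
    have e1 := hmm φ hφ
    rw [sub_self] at e1
    have e2 := hmm ψ hψ
    have hne := x28452_ne hb hb.le
    have e3 : φ m = 0 := (mul_eq_zero.1 e1).resolve_right hne
    have e4 := hr m hm hm1 e3
    have e5 : ‖ψ ((t : ℂ) • f) - φ ((t : ℂ) • f)‖ ≤ r * 2 := by
      rw [← e2, norm_mul]
      have e6 : ‖1 - conj (φ ((t : ℂ) • f)) * ψ ((t : ℂ) • f)‖ ≤ 2 := by
        have e7 := char_le hψ htf htf1
        calc ‖1 - conj (φ ((t : ℂ) • f)) * ψ ((t : ℂ) • f)‖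
            ≤ ‖(1 : ℂ)‖ + ‖conj (φ ((t : ℂ) • f)) * ψ ((t : ℂ) • f)‖ := norm_sub_le _ _
          _ ≤ 1 + 1 := by
              rw [norm_one, norm_mul, RCLike.norm_conj]
              have : ‖φ ((t : ℂ) • f)‖ * ‖ψ ((t : ℂ) • f)‖ ≤ 1 * 1 :=
                mul_le_mul hb.le e7 (norm_nonneg _) zero_le_one
              linarith
          _ = 2 := by norm_num
      exact mul_le_mul e4 e6 (norm_nonneg _) h0
    rw [hφ.2.2.1 _ _ hf, hψ.2.2.1 _ _ hf, ← mul_sub, norm_mul, Complex.norm_real,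
      Real.norm_of_nonneg ht0.le, norm_sub_rev] at e5
    linarith
  by_contra hcon
  rw [not_le] at hcon
  have hpos : 0 < ‖φ f - ψ f‖ := lt_of_le_of_lt (by positivity) hcon
  obtain ⟨t, ht1, ht2⟩ := exists_between (show 2 * r / ‖φ f - ψ f‖ < 1 by
    rw [div_lt_one hpos]; exact hcon)
  have ht0 : 0 < t := lt_of_le_of_lt (by positivity) ht1
  have := key t ht0 ht2
  rw [div_lt_iff₀ hpos] at ht1
  linarith

theorem tv_gl_points {b w : ℂ} (hb : b ∈ Metric.ball (0:ℂ) 1) (hw : w ∈ Metric.ball (0:ℂ) 1) :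
    Gl (evc b) (evc w) := by
  have hr1 : ‖Dg.bfac b w‖ < 1 := by
    have h := Dg.one_sub_bfac (a := b) (z := w) hb hw
    have hb1 : ‖b‖ < 1 := mem_ball_zero_iff.1 hb
    have hw1 : ‖w‖ < 1 := mem_ball_zero_iff.1 hw
    have h1 : 0 < (1 - ‖b‖ ^ 2) * (1 - ‖w‖ ^ 2) := by
      apply mul_pos <;> nlinarith [norm_nonneg b, norm_nonneg w]
    rw [← h] at h1
    have h2 : 0 ≤ ‖1 - conj b * w‖ ^ 2 := by positivity
    have h3 : 0 < 1 - ‖Dg.bfac b w‖ ^ 2 := by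
      by_contra hc
      rw [not_lt] at hc
      nlinarith
    nlinarith [norm_nonneg (Dg.bfac b w)]
  refine tv_gl_of_rho (evc_char hb) (evc_char hw) (norm_nonneg _) hr1 fun g hg hg1 h0 => ?_
  rw [evc_apply hg] at h0 ⊢
  obtain ⟨g₁, -, h2, h3⟩ := Dg.divide hg.1 hg1 hb h0
  rw [h3 w hw, norm_mul]
  exact mul_le_of_le_one_right (norm_nonneg _) (h2 w hw)

theorem tv_ext {φ ψ : (ℂ → ℂ) → ℂ} (hφ : IsChar φ) (hψ : IsChar ψ) (h : ∀ f ∈ HI, φ f = ψ f) :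
    φ = ψ := by
  funext f
  by_cases hf : f ∈ HI
  · exact h f hf
  · rw [hφ.2.2.2 f hf, hψ.2.2.2 f hf]

theorem tv_incl_trans {χ : (ℂ → ℂ) → ℂ} {S P : Set ((ℂ → ℂ) → ℂ)} (h : InCl χ S)
    (hS : ∀ ψ ∈ S, InCl ψ P) : InCl χ P := by
  intro s ε hε
  obtain ⟨ψ, hψ, h1⟩ := h s (ε / 2) (by linarith)
  obtain ⟨ξ, hξ, h2⟩ := hS ψ hψ s (ε / 2) (by linarith)
  refine ⟨ξ, hξ, fun f hf => ?_⟩
  calc ‖ξ f - χ f‖ = ‖(ξ f - ψ f) + (ψ f - χ f)‖ := by ring_nf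
    _ ≤ ‖ξ f - ψ f‖ + ‖ψ f - χ f‖ := norm_add_le _ _
    _ < ε := by linarith [h1 f hf, h2 f hf]

theorem tv_main : ∃ m : (ℂ → ℂ) → ℂ, IsChar m ∧ (∀ ψ, IsChar ψ → Gl m ψ → ψ = m) ∧
    ∀ φ, IsChar φ → (∃ ψ, IsChar ψ ∧ Gl φ ψ ∧ ψ ≠ φ) →
      ∃ S : Set ((ℂ → ℂ) → ℂ),
        (∀ ψ ∈ S, IsChar ψ ∧ InCl ψ {ψ | IsChar ψ ∧ Gl φ ψ}) ∧
        (∀ χ, IsChar χ → InCl χ S → χ ∈ S) ∧
        (∀ f ∈ HI, ∀ ψ, IsChar ψ → Gl φ ψ → ∀ ε : ℝ, 0 < ε → ∃ χ ∈ S, ‖ψ f‖ < ‖χ f‖ + ε) ∧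
        m ∉ S := by
  obtain ⟨m, hm, hmD, hmB, hmf⟩ := exists_m
  have hfar : ∀ φ : (ℂ → ℂ) → ℂ, IsChar φ →
      (∀ z ∈ Metric.ball (0:ℂ) 1, ¬ ∃ c : ℝ, c < 2 ∧ ∀ f ∈ HI,
          (∀ w ∈ Metric.ball (0:ℂ) 1, ‖f w‖ ≤ 1) → ‖φ f - f z‖ ≤ c) →
      (∃ ψ, IsChar ψ ∧ Gl φ ψ ∧ ψ ≠ φ) →
      ¬ InCl m {ψ | IsChar ψ ∧ Gl φ ψ} := by
    intro φ hφ hφD hnt hcl
    have hne : ∀ a ∈ Metric.ball (0:ℂ) 1, φ (fun z => z - a) ≠ 0 :=
      fun a ha => char_point hφ ha (hφD a ha)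
    obtain ⟨ι, w, hw, hA⟩ := propK hφ hne hnt
    obtain ⟨f, hf, hf0, hsm⟩ := vanish_fun hφ hne w hw hA
    have hmne : m f ≠ 0 := hmf f hf hsm
    obtain ⟨χ, ⟨hχ, hgχ⟩, hχf⟩ := hcl {f} ‖m f‖ (norm_pos_iff.2 hmne)
    have h1 := hχf f (Finset.mem_singleton_self f)
    rw [hf0 χ hχ hgχ, zero_sub, norm_neg] at h1
    exact lt_irrefl _ h1
  have hmfar : ∀ z ∈ Metric.ball (0:ℂ) 1, ¬ ∃ c : ℝ, c < 2 ∧ ∀ f ∈ HI,
      (∀ w ∈ Metric.ball (0:ℂ) 1, ‖f w‖ ≤ 1) → ‖m f - f z‖ ≤ c := by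
    intro z hz hc
    have h1 := tv_near_point hm hz hc
    obtain ⟨f, hf, hne⟩ := hmD _ (mem_ball_zero_iff.2 h1)
    exact hne (tv_id hm h1 f hf)
  refine ⟨m, hm, fun ψ hψ hg => ?_, fun φ hφ hnt => ?_⟩
  · by_contra hne
    exact hfar m hm hmfar ⟨ψ, hψ, hg, hne⟩ fun s ε hε =>
      ⟨m, ⟨hm, tv_gl_refl m⟩, fun f _ => by rw [sub_self, norm_zero]; exact hε⟩
  · by_cases hD : ∀ z ∈ Metric.ball (0:ℂ) 1, ¬ ∃ c : ℝ, c < 2 ∧ ∀ f ∈ HI,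
      (∀ w ∈ Metric.ball (0:ℂ) 1, ‖f w‖ ≤ 1) → ‖φ f - f z‖ ≤ c
    · refine ⟨{χ | IsChar χ ∧ InCl χ {ψ | IsChar ψ ∧ Gl φ ψ}}, fun ψ h => h, ?_, ?_, ?_⟩
      · intro χ hχ hcl
        exact ⟨hχ, tv_incl_trans hcl fun ψ h => h.2⟩
      · intro f hf ψ hψ hg ε hε
        refine ⟨ψ, ⟨hψ, fun s ε' hε' => ⟨ψ, ⟨hψ, hg⟩, fun f _ => ?_⟩⟩, by linarith⟩
        rw [sub_self, norm_zero]; exact hε'
      · rintro ⟨-, h⟩
        exact hfar φ hφ hD hnt h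
    · push Not at hD
      obtain ⟨z, hz, hc⟩ := hD
      have h1 := tv_near_point hφ hz hc
      set b := φ (fun z => z) with hb
      have hbm : b ∈ Metric.ball (0:ℂ) 1 := mem_ball_zero_iff.2 h1
      have hφb : φ = evc b := tv_ext hφ (evc_char hbm) fun f hf => by
        rw [evc_apply hf]; exact tv_id hφ h1 f hf
      set B : ℂ → ℂ := BF epq {q | q.2 ∈ En q.1} with hBdef
      have hB : B ∈ HI := BF_mem bla_E
      have hB1 : ∀ z ∈ Metric.ball (0:ℂ) 1, ‖B z‖ ≤ 1 := BF_le bla_E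
      refine ⟨{χ | IsChar χ ∧ InCl χ {ψ | IsChar ψ ∧ Gl φ ψ} ∧ 1 / 2 ≤ ‖χ B‖},
        fun ψ h => ⟨h.1, h.2.1⟩, ?_, ?_, ?_⟩
      · intro χ hχ hcl
        refine ⟨hχ, tv_incl_trans hcl fun ψ h => h.2.1, ?_⟩
        by_contra hlt
        rw [not_le] at hlt
        obtain ⟨ψ, ⟨_, _, h2⟩, h3⟩ := hcl {B} (1 / 2 - ‖χ B‖) (by linarith)
        have h4 := h3 B (Finset.mem_singleton_self B)
        have h5 : ‖ψ B‖ ≤ ‖ψ B - χ B‖ + ‖χ B‖ := by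
          have := norm_add_le (ψ B - χ B) (χ B)
          rwa [sub_add_cancel] at this
        linarith
      · intro f hf ψ hψ _ ε hε
        -- first a point of the disc
        have h6 : ∃ z' ∈ Metric.ball (0:ℂ) 1, ‖ψ f‖ < ‖f z'‖ + ε / 2 := by
          by_contra hcon
          push Not at hcon
          have h7 := char_le hψ hf (C := ‖ψ f‖ - ε / 2) fun z hz => by linarith [hcon z hz]
          linarith
        obtain ⟨z', hz', h8⟩ := h6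
        obtain ⟨z'', hz'', h9, h10⟩ := norming hB hB1
          (fun g hg K hK => BF_isometry bla_E hg hK) hf hz' (ε / 2) (by linarith)
        refine ⟨evc z'', ⟨evc_char hz'', fun s ε' hε' => ⟨evc z'', ⟨evc_char hz'', ?_⟩,
          fun f _ => ?_⟩, ?_⟩, ?_⟩
        · rw [hφb]; exact tv_gl_points hbm hz''
        · rw [sub_self, norm_zero]; exact hε'
        · rw [evc_apply hB]; exact h9
        · rw [evc_apply hf]; linarith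
      · rintro ⟨-, -, h⟩
        rw [hmB, norm_zero] at h
        norm_num at h

end Pool.Agent.Helper503.Gp
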